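import Mathlib

/-!
# Counting lemmas: sunflowers of labelings, independence of disjoint sets of coordinates
-/

set_option autoImplicit false

namespace Pool.Agent.T9h47.MN

open Finset

section sun

variable {ι Lab : Type} [Fintype ι] [DecidableEq ι] [Fintype Lab] [DecidableEq Lab]

/-- Functions which agree on `K`. -/
theorem card_agree (K : Finset ι) (F : Finset (ι → Lab))
    (h : ∀ f ∈ F, ∀ g ∈ F, ∀ v ∈ K, f v = g v) :
    F.card * Fintype.card Lab ^ K.card ≤ Fintype.card Lab ^ Fintype.card ι := by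
  classical
  have h1 : F.card ≤ Fintype.card ({v // v ∉ K} → Lab) := by
    have : F.card = (F.image (fun f : ι → Lab => fun v : {v // v ∉ K} => f v)).card := by
      rw [card_image_of_injOn]
      intro f hf g hg hfg
      funext v
      by_cases hv : v ∈ K
      · exact h f hf g hg v hv
      · exact congrFun hfg ⟨v, hv⟩
    rw [this]
    exact card_le_univ _
  have h2 : Fintype.card ({v // v ∉ K} → Lab) = Fintype.card Lab ^ (Fintype.card ι - K.card) := by
    rw [Fintype.card_fun]
    congr 1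
    rw [Fintype.card_subtype_compl, Fintype.card_coe]
  have h3 : K.card ≤ Fintype.card ι := card_le_univ K
  calc F.card * Fintype.card Lab ^ K.card
      ≤ Fintype.card Lab ^ (Fintype.card ι - K.card) * Fintype.card Lab ^ K.card :=
        Nat.mul_le_mul_right _ (h1.trans h2.le)
    _ = Fintype.card Lab ^ Fintype.card ι := by rw [← pow_add]; congr 1; omega

/-- A family of labelings without sunflowers (with respect to the coordinates in `D`) is small. -/
theorem sun (p : ℕ) (hp : 1 ≤ p) : ∀ (j : ℕ) (D K : Finset ι) (F : Finset (ι → Lab)),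
    Disjoint D K → D.card = j → (∀ f ∈ F, ∀ g ∈ F, ∀ v ∈ K, f v = g v) →
    (∀ D' ⊆ D, D'.Nonempty → ¬ ∃ s : Fin p → (ι → Lab), (∀ i, s i ∈ F) ∧
      (∀ i i', ∀ v ∈ D \ D', s i v = s i' v) ∧ ∀ i i', i ≠ i' → ∀ v ∈ D', s i v ≠ s i' v) →
    F.card * Fintype.card Lab ^ (D.card + K.card) ≤
      (j * p) ^ j * Fintype.card Lab ^ Fintype.card ι := by
  intro j
  induction j with
  | zero =>
    intro D K F _ hD hK _
    have := card_agree K F hK
    simpa [hD] using this
  | succ j ih =>
    intro D K F hDK hD hK hS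
    classical
    have hDne : D.Nonempty := by
      rw [← card_pos]; omega
    -- a maximal family of pairwise everywhere different members
    obtain ⟨M, hM, hMmax⟩ : ∃ M : Finset (ι → Lab), (M ⊆ F ∧ ∀ f ∈ M, ∀ g ∈ M, f ≠ g →
        ∀ v ∈ D, f v ≠ g v) ∧ ∀ M' : Finset (ι → Lab), (M' ⊆ F ∧ ∀ f ∈ M', ∀ g ∈ M', f ≠ g →
        ∀ v ∈ D, f v ≠ g v) → M'.card ≤ M.card := by
      obtain ⟨M, hM1, hM2⟩ := exists_max_image
        (F.powerset.filter (fun M => ∀ f ∈ M, ∀ g ∈ M, f ≠ g → ∀ v ∈ D, f v ≠ g v)) card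
        ⟨∅, by simp⟩
      rw [mem_filter, mem_powerset] at hM1
      refine ⟨M, hM1, fun M' hM' => hM2 M' ?_⟩
      rw [mem_filter, mem_powerset]
      exact hM'
    have hMp : M.card < p := by
      by_contra hcon
      rw [not_lt] at hcon
      obtain ⟨M', hM'1, hM'2⟩ := exists_subset_card_eq hcon
      have e : Fin p ≃ M' := (M'.equivFinOfCardEq hM'2).symm
      refine hS D (Subset.refl _) hDne ⟨fun i => (e i).1, fun i => hM.1 (hM'1 (e i).2), ?_, ?_⟩
      · simp
      · intro i i' hii v hv
        refine hM.2 _ (hM'1 (e i).2) _ (hM'1 (e i').2) ?_ v hv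
        intro heq
        exact hii (e.injective (Subtype.ext heq))
    have hcov : F ⊆ (D ×ˢ M).biUnion (fun x => F.filter (fun f => f x.1 = x.2 x.1)) := by
      intro f hf
      rw [mem_biUnion]
      by_cases hfM : f ∈ M
      · obtain ⟨v, hv⟩ := hDne
        exact ⟨(v, f), mem_product.2 ⟨hv, hfM⟩, by simp [hf]⟩
      · by_contra hcon
        push Not at hcon
        have h1 := hMmax (insert f M) ?_
        · rw [card_insert_of_notMem hfM] at h1
          omega
        · refine ⟨insert_subset hf hM.1, ?_⟩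
          have key : ∀ g ∈ M, ∀ v ∈ D, f v ≠ g v := by
            intro g hg v hv heq
            exact hcon (v, g) (mem_product.2 ⟨hv, hg⟩) (by simp [hf, heq])
          intro a ha b hb hab v hv
          rcases mem_insert.1 ha with rfl | ha'
          · rcases mem_insert.1 hb with rfl | hb'
            · exact absurd rfl hab
            · exact key b hb' v hv
          · rcases mem_insert.1 hb with rfl | hb'
            · exact (key a ha' v hv).symm
            · exact hM.2 a ha' b hb' hab v hv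
    have hpart : ∀ x ∈ D ×ˢ M, (F.filter (fun f => f x.1 = x.2 x.1)).card *
        Fintype.card Lab ^ (D.card + K.card) ≤
        (j * p) ^ j * Fintype.card Lab ^ Fintype.card ι := by
      rintro ⟨v, g⟩ hx
      obtain ⟨hv, hg⟩ := mem_product.1 hx
      have hvK : v ∉ K := fun h => (disjoint_left.1 hDK) hv h
      have h1 := ih (D.erase v) (insert v K) (F.filter (fun f => f v = g v)) ?_ ?_ ?_ ?_
      · rw [card_insert_of_notMem hvK, card_erase_of_mem hv] at h1
        have : D.card - 1 + (K.card + 1) = D.card + K.card := by omega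
        rw [this] at h1
        exact h1
      · rw [disjoint_insert_right]
        exact ⟨by simp, hDK.mono_left (erase_subset _ _)⟩
      · rw [card_erase_of_mem hv]; omega
      · intro f hf f' hf' u hu
        rw [mem_filter] at hf hf'
        rcases mem_insert.1 hu with rfl | hu'
        · rw [hf.2, hf'.2]
        · exact hK f hf.1 f' hf'.1 u hu'
      · rintro D' hD' hne ⟨s, hs1, hs2, hs3⟩
        refine hS D' (hD'.trans (erase_subset _ _)) hne ⟨s, fun i => (mem_filter.1 (hs1 i)).1, ?_, hs3⟩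
        intro i i' u hu
        rw [mem_sdiff] at hu
        by_cases huv : u = v
        · subst huv
          rw [(mem_filter.1 (hs1 i)).2, (mem_filter.1 (hs1 i')).2]
        · exact hs2 i i' u (mem_sdiff.2 ⟨mem_erase.2 ⟨huv, hu.1⟩, hu.2⟩)
    have h5 : F.card ≤ ∑ x ∈ D ×ˢ M, (F.filter (fun f => f x.1 = x.2 x.1)).card :=
      (card_le_card hcov).trans card_biUnion_le
    calc F.card * Fintype.card Lab ^ (D.card + K.card)
        ≤ (∑ x ∈ D ×ˢ M, (F.filter (fun f => f x.1 = x.2 x.1)).card) *
          Fintype.card Lab ^ (D.card + K.card) := Nat.mul_le_mul_right _ h5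
      _ = ∑ x ∈ D ×ˢ M, (F.filter (fun f => f x.1 = x.2 x.1)).card *
          Fintype.card Lab ^ (D.card + K.card) := sum_mul _ _ _
      _ ≤ ∑ _x ∈ D ×ˢ M, (j * p) ^ j * Fintype.card Lab ^ Fintype.card ι := sum_le_sum hpart
      _ = (D.card * M.card) * ((j * p) ^ j * Fintype.card Lab ^ Fintype.card ι) := by
          rw [sum_const, card_product, smul_eq_mul]
      _ ≤ ((j + 1) * p) * (((j + 1) * p) ^ j * Fintype.card Lab ^ Fintype.card ι) := by
          refine Nat.mul_le_mul (Nat.mul_le_mul hD.le hMp.le) (Nat.mul_le_mul_right _ ?_)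
          exact Nat.pow_le_pow_left (Nat.mul_le_mul_right _ (Nat.le_succ j)) _
      _ = ((j + 1) * p) ^ (j + 1) * Fintype.card Lab ^ Fintype.card ι := by ring

end sun

section indep

variable {X : Type} [Fintype X] [DecidableEq X]

theorem card_inv (Q : Finset X) (τ : X → Bool) (A : Finset (X → Bool))
    (hA : ∀ χ χ' : X → Bool, (∀ x, x ∉ Q → χ x = χ' x) → χ ∈ A → χ' ∈ A) :
    A.card ≤ (A.filter (fun χ => ∀ q ∈ Q, χ q = τ q)).card * 2 ^ Q.card := by
  classical
  rw [← card_powerset, ← card_product]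
  refine card_le_card_of_injOn
    (fun χ => ((fun x => if x ∈ Q then τ x else χ x), Q.filter (fun q => χ q = true))) ?_ ?_
  · intro χ hχ
    rw [mem_coe] at hχ ⊢
    rw [mem_product]
    refine ⟨?_, by simp⟩
    rw [mem_filter]
    refine ⟨hA χ _ (fun x hx => by simp [hx]) hχ, fun q hq => by simp [hq]⟩
  · intro χ hχ χ' hχ' h
    simp only [Prod.mk.injEq] at h
    funext x
    by_cases hx : x ∈ Q
    · have h1 := congrArg (fun S : Finset X => decide (x ∈ S)) h.2
      simp only [mem_filter, hx, true_and] at h1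
      simpa using h1
    · have h1 := congrFun h.1 x
      simpa [hx] using h1

theorem indep (K : ℕ) (τ : X → Bool) (Q : ℕ → Finset X) (hQ : ∀ i j, i ≠ j → Disjoint (Q i) (Q j))
    (hK : ∀ i, (Q i).card ≤ K) (p : ℕ) :
    (univ.filter (fun χ : X → Bool => ∀ i < p, ∃ q ∈ Q i, χ q ≠ τ q)).card * (2 ^ K) ^ p ≤
      (2 ^ K - 1) ^ p * 2 ^ Fintype.card X := by
  classical
  induction p with
  | zero =>
    simp only [not_lt_zero, IsEmpty.forall_iff, implies_true, filter_true, card_univ, pow_zero,
      mul_one, one_mul]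
    rw [Fintype.card_fun, Fintype.card_bool]
  | succ p ih =>
    obtain ⟨A, hA⟩ : ∃ A, A = univ.filter (fun χ : X → Bool => ∀ i < p, ∃ q ∈ Q i, χ q ≠ τ q) :=
      ⟨_, rfl⟩
    rw [← hA] at ih
    have h1 := card_inv (Q p) τ A (by
      intro χ χ' h hχ
      rw [hA, mem_filter] at hχ ⊢
      refine ⟨mem_univ _, fun i hi => ?_⟩
      obtain ⟨q, hq, hne⟩ := hχ.2 i hi
      refine ⟨q, hq, ?_⟩
      rw [← h q]
      · exact hne
      · exact disjoint_left.1 (hQ i p (by omega)) hq)
    have h2 : (univ.filter (fun χ : X → Bool => ∀ i < p + 1, ∃ q ∈ Q i, χ q ≠ τ q)).card +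
        (A.filter (fun χ => ∀ q ∈ Q p, χ q = τ q)).card ≤ A.card := by
      rw [← card_union_of_disjoint]
      · refine card_le_card ?_
        intro χ hχ
        rw [mem_union, mem_filter, mem_filter] at hχ
        rcases hχ with h | h
        · rw [hA, mem_filter]
          exact ⟨mem_univ _, fun i hi => h.2 i (by omega)⟩
        · exact h.1
      · rw [disjoint_left]
        intro χ h3 h4
        rw [mem_filter] at h3 h4
        obtain ⟨q, hq, hne⟩ := h3.2 p (by omega)
        exact hne (h4.2 q hq)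
    obtain ⟨a, ha⟩ : ∃ a, a = (univ.filter (fun χ : X → Bool =>
      ∀ i < p + 1, ∃ q ∈ Q i, χ q ≠ τ q)).card := ⟨_, rfl⟩
    obtain ⟨b, hb⟩ : ∃ b, b = (A.filter (fun χ => ∀ q ∈ Q p, χ q = τ q)).card := ⟨_, rfl⟩
    rw [← ha, ← hb] at h2
    rw [← hb] at h1
    rw [← ha]
    have h3 : A.card ≤ b * 2 ^ K :=
      h1.trans (Nat.mul_le_mul_left _ (Nat.pow_le_pow_right (by norm_num) (hK p)))
    have h4 : a * 2 ^ K ≤ A.card * (2 ^ K - 1) := by
      have h5 : a * 2 ^ K + b * 2 ^ K ≤ A.card * 2 ^ K := by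
        rw [← add_mul]; exact Nat.mul_le_mul_right _ h2
      have h6 : A.card * (2 ^ K - 1) = A.card * 2 ^ K - A.card := by
        rw [Nat.mul_sub, mul_one]
      omega
    calc a * (2 ^ K) ^ (p + 1) = (a * 2 ^ K) * (2 ^ K) ^ p := by ring
      _ ≤ (A.card * (2 ^ K - 1)) * (2 ^ K) ^ p := Nat.mul_le_mul_right _ h4
      _ = (A.card * (2 ^ K) ^ p) * (2 ^ K - 1) := by ring
      _ ≤ ((2 ^ K - 1) ^ p * 2 ^ Fintype.card X) * (2 ^ K - 1) := Nat.mul_le_mul_right _ ih
      _ = (2 ^ K - 1) ^ (p + 1) * 2 ^ Fintype.card X := by ring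

end indep

end Pool.Agent.T9h47.MN
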