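import Mathlib

/-!
# The complete binary tree: colourings, pieces, isoperimetry
-/

set_option autoImplicit false

namespace Pool.Agent.T9h47.MN

open Finset

/-- The nodes of the tree of height `h`, in heap order: the root is `1`, the children of `v` are
`2 v` and `2 v + 1`, the inner nodes are less than `2 ^ h` (`0` is not used). -/
abbrev Nd (h : ℕ) := Fin (2 ^ (h + 1))

variable {h : ℕ}

theorem two_pow_succ' (h : ℕ) : 2 ^ (h + 1) = 2 * 2 ^ h := by ring

/-- inner nodes -/
def inner (h : ℕ) : Finset (Nd h) := univ.filter (fun v => 1 ≤ v.val ∧ v.val < 2 ^ h)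

theorem mem_inner {v : Nd h} : v ∈ inner h ↔ 1 ≤ v.val ∧ v.val < 2 ^ h := by simp [inner]

/-- left child -/
def lc (v : Nd h) : Nd h :=
  if hv : v.val < 2 ^ h then ⟨2 * v.val, by have := two_pow_succ' h; omega⟩ else v

/-- right child -/
def rc (v : Nd h) : Nd h :=
  if hv : v.val < 2 ^ h then ⟨2 * v.val + 1, by have := two_pow_succ' h; omega⟩ else v

/-- parent -/
def par (v : Nd h) : Nd h := ⟨v.val / 2, lt_of_le_of_lt (Nat.div_le_self _ _) v.2⟩

/-- root -/
def root (h : ℕ) : Nd h := ⟨1, by rw [two_pow_succ']; have := Nat.pos_of_neZero (2 ^ h); omega⟩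

theorem lc_val {v : Nd h} (hv : v ∈ inner h) : (lc v).val = 2 * v.val := by
  rw [mem_inner] at hv; unfold lc; rw [dif_pos hv.2]

theorem rc_val {v : Nd h} (hv : v ∈ inner h) : (rc v).val = 2 * v.val + 1 := by
  rw [mem_inner] at hv; unfold rc; rw [dif_pos hv.2]

theorem par_val (v : Nd h) : (par v).val = v.val / 2 := rfl

theorem par_lc {v : Nd h} (hv : v ∈ inner h) : par (lc v) = v := by
  apply Fin.ext; rw [par_val, lc_val hv]; omega

theorem par_rc {v : Nd h} (hv : v ∈ inner h) : par (rc v) = v := by
  apply Fin.ext; rw [par_val, rc_val hv]; omega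

/-- `z` is a colouring in which the root is true, the leaves are false, and all true nodes in `α`
have a true child. -/
def Col (z : Nd h → Bool) (α : Finset (Nd h)) : Prop :=
  z (root h) = true ∧ (∀ v : Nd h, 2 ^ h ≤ v.val → z v = false) ∧
    ∀ v ∈ α, z v = true → z (lc v) = true ∨ z (rc v) = true

/-- All boundary nodes of `α` are in `D`. -/
def Cr (α D : Finset (Nd h)) : Prop :=
  ∀ v : Nd h, 2 ≤ v.val → v.val < 2 ^ h → v ∉ D → (v ∈ α ↔ par v ∈ α)

theorem Cr_empty (D : Finset (Nd h)) : Cr ∅ D := by
  intro v _ _ _; simp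

theorem Cr_step {α D T α' D' : Finset (Nd h)} (hα : Cr α D) (hT : T ⊆ inner h) (h1 : α ⊆ α')
    (h2 : α' ⊆ α ∪ T) (hD : D ⊆ D') (hTD : T ⊆ D') (hl : ∀ v ∈ T, lc v ∈ D')
    (hr : ∀ v ∈ T, rc v ∈ D') : Cr α' D' := by
  intro v hv2 hvh hvD
  have h3 := hα v hv2 hvh (fun h => hvD (hD h))
  constructor
  · intro h4
    rcases mem_union.1 (h2 h4) with h5 | h5
    · exact h1 (h3.1 h5)
    · exact absurd (hTD h5) hvD
  · intro h4
    rcases mem_union.1 (h2 h4) with h5 | h5
    · exact h1 (h3.2 h5)
    · exfalso
      have hp := hT h5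
      have h6 := par_val v
      rcases Nat.even_or_odd' v.val with ⟨c, hc | hc⟩
      · have : lc (par v) = v := by
          apply Fin.ext; rw [lc_val hp, h6]; omega
        exact hvD (this ▸ hl _ h5)
      · have : rc (par v) = v := by
          apply Fin.ext; rw [rc_val hp, h6]; omega
        exact hvD (this ▸ hr _ h5)

/-! ### Ancestors -/

/-- `u` is an ancestor of `v` or equal to `v`. -/
def Anc (u v : Nd h) : Prop := ∃ e, v.val / 2 ^ e = u.val

theorem Anc.refl (v : Nd h) : Anc v v := ⟨0, by simp⟩

theorem Anc.le {u v : Nd h} (h1 : Anc u v) : u.val ≤ v.val := by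
  obtain ⟨e, he⟩ := h1
  rw [← he]; exact Nat.div_le_self _ _

theorem Anc.par_of_ne {u v : Nd h} (h1 : Anc u v) (hne : u ≠ v) : Anc u (par v) := by
  obtain ⟨e, he⟩ := h1
  cases e with
  | zero => exact absurd (Fin.ext (by simpa using he.symm)) hne
  | succ e =>
    refine ⟨e, ?_⟩
    rw [par_val, Nat.div_div_eq_div_mul, ← he, pow_succ 2 e, mul_comm]

theorem anc_par (v : Nd h) {u : Nd h} (h1 : Anc u (par v)) : Anc u v := by
  obtain ⟨e, he⟩ := h1
  refine ⟨e + 1, ?_⟩
  rw [← he, par_val, Nat.div_div_eq_div_mul, pow_succ 2 e, mul_comm]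

/-- The child of `v` in the direction of the descendant `y`. -/
theorem Anc.child {v y : Nd h} (h1 : Anc v y) (hne : v ≠ y) (hv : v ∈ inner h) :
    ∃ c : Nd h, Anc c y ∧ par c = v ∧ (c = lc v ∨ c = rc v) := by
  obtain ⟨e, he⟩ := h1
  cases e with
  | zero => exact absurd (Fin.ext (by simpa using he.symm)) hne
  | succ e =>
    refine ⟨⟨y.val / 2 ^ e, lt_of_le_of_lt (Nat.div_le_self _ _) y.2⟩, ⟨e, rfl⟩, ?_, ?_⟩
    · apply Fin.ext
      rw [par_val, ← he, pow_succ 2 e, ← Nat.div_div_eq_div_mul]
    · have h2 : y.val / 2 ^ e / 2 = v.val := by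
        rw [← he, pow_succ 2 e, Nat.div_div_eq_div_mul]
      rcases Nat.even_or_odd' (y.val / 2 ^ e) with ⟨c, hc | hc⟩
      · left; apply Fin.ext; rw [lc_val hv]; simp only; omega
      · right; apply Fin.ext; rw [rc_val hv]; simp only; omega

/-- The lowest ancestor of `v` in `D ∪ {root}`. -/
def top (D : Finset (Nd h)) (v : Nd h) : Nd h :=
  if hv : v ∈ D ∨ v.val ≤ 1 then v else top D (par v)
termination_by v.val
decreasing_by
  rw [not_or] at hv
  rw [par_val]; omega

theorem top_of {D : Finset (Nd h)} {v : Nd h} (hv : v ∈ D ∨ v.val ≤ 1) : top D v = v := by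
  rw [top, dif_pos hv]

theorem top_par {D : Finset (Nd h)} {v : Nd h} (hv : v ∉ D) (h1 : 2 ≤ v.val) :
    top D v = top D (par v) := by
  rw [top, dif_neg]
  rw [not_or]; exact ⟨hv, by omega⟩

theorem top_anc (D : Finset (Nd h)) (v : Nd h) : Anc (top D v) v := by
  induction hn : v.val using Nat.strong_induction_on generalizing v with
  | _ n ih =>
    by_cases hv : v ∈ D ∨ v.val ≤ 1
    · rw [top_of hv]; exact Anc.refl v
    · rw [not_or] at hv
      rw [top_par hv.1 (by omega)]
      exact anc_par v (ih (v.val / 2) (by omega) (par v) rfl)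

theorem top_lowest {D : Finset (Nd h)} {c v : Nd h} (hc : c ∈ D) (h1 : Anc c v) :
    Anc c (top D v) := by
  induction hn : v.val using Nat.strong_induction_on generalizing v with
  | _ n ih =>
    by_cases hv : v ∈ D ∨ v.val ≤ 1
    · rw [top_of hv]; exact h1
    · rw [not_or] at hv
      rw [top_par hv.1 (by omega)]
      refine ih (v.val / 2) (by omega) (h1.par_of_ne ?_) rfl
      rintro rfl; exact hv.1 hc

/-- The whole piece below `w` is in `α`. -/
def Full (D α : Finset (Nd h)) (w : Nd h) : Prop := ∀ y ∈ inner h, top D y = w → y ∈ α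

/-- Restriction of a configuration to a smaller domain. -/
theorem restrict (α D : Finset (Nd h)) (hα : α ⊆ inner h) :
    ∃ β : Finset (Nd h), β ⊆ α ∧ Cr β D ∧
      ∀ z, Col z β → ∃ z', Col z' α ∧ ∀ v ∈ D, z' v = z v := by
  classical
  refine ⟨(inner h).filter (fun v => Full D α (top D v)), ?_, ?_, ?_⟩
  · intro v hv
    rw [mem_filter] at hv
    exact hv.2 v hv.1 rfl
  · intro v hv2 hvh hvD
    have h1 := top_par hvD hv2
    have h2 : v ∈ inner h := mem_inner.2 ⟨by omega, hvh⟩
    have h3 : par v ∈ inner h := mem_inner.2 ⟨by rw [par_val]; omega, by rw [par_val]; omega⟩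
    rw [mem_filter, mem_filter, h1]
    simp [h2, h3]
  · rintro z ⟨hz1, hz2, hz3⟩
    have hpick : ∀ w : Nd h, ∃ y : Nd h, ¬ Full D α w → y ∈ inner h ∧ top D y = w ∧ y ∉ α := by
      intro w
      by_cases hw : Full D α w
      · exact ⟨w, fun h => absurd hw h⟩
      · have hw' := hw
        unfold Full at hw'
        push Not at hw'
        obtain ⟨y, h1, h2, h3⟩ := hw'
        exact ⟨y, fun _ => ⟨h1, h2, h3⟩⟩
    choose pk hpk using hpick
    obtain ⟨z', hz'⟩ : ∃ z' : Nd h → Bool, z' = fun u => if Full D α (top D u) then z u else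
      (z (top D u) && decide (Anc u (pk (top D u)))) := ⟨_, rfl⟩
    have agree : ∀ u, (u ∈ D ∨ u.val ≤ 1) → z' u = z u := by
      intro u hu
      rw [hz']
      simp only [top_of hu]
      split_ifs with hF
      · rfl
      · have h1 := hpk u hF
        have h2 : Anc u (pk u) := by
          have := top_anc D (pk u)
          rwa [h1.2.1] at this
        simp [h2]
    refine ⟨z', ⟨?_, ?_, ?_⟩, fun v hv => agree v (Or.inl hv)⟩
    · rw [agree _ (Or.inr (by simp [root])), hz1]
    · intro u hu
      rw [hz']
      simp only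
      split_ifs with hF
      · exact hz2 u hu
      · have h1 := hpk _ hF
        have h2 : ¬ Anc u (pk (top D u)) := by
          intro h3
          have h4 := h3.le
          have h5 := (mem_inner.1 h1.1).2
          omega
        simp [h2]
    · intro v hv hzv
      have hvi := hα hv
      have hvi' := mem_inner.1 hvi
      by_cases hF : Full D α (top D v)
      · have h1 : z v = true := by
          rw [hz'] at hzv; simpa [hF] using hzv
        have h2 := hz3 v (mem_filter.2 ⟨hvi, hF⟩) h1
        have key : ∀ c : Nd h, par c = v → 2 ≤ c.val → z c = true → z' c = true := by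
          intro c hc hc2 hzc
          by_cases hcD : c ∈ D
          · rw [agree c (Or.inl hcD), hzc]
          · have h3 : top D c = top D v := by rw [top_par hcD hc2, hc]
            rw [hz']; simp [h3, hF, hzc]
        rcases h2 with h2 | h2
        · left; exact key _ (par_lc hvi) (by rw [lc_val hvi]; omega) h2
        · right; exact key _ (par_rc hvi) (by rw [rc_val hvi]; omega) h2
      · have h1 : z (top D v) = true ∧ Anc v (pk (top D v)) := by
          rw [hz'] at hzv; simpa [hF] using hzv
        have h2 := hpk _ hF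
        have hne : v ≠ pk (top D v) := by
          intro h3; exact h2.2.2 (h3 ▸ hv)
        obtain ⟨c, hc1, hc2, hc3⟩ := h1.2.child hne hvi
        have hcv : 2 * v.val ≤ c.val := by
          rcases hc3 with rfl | rfl
          · rw [lc_val hvi]
          · rw [rc_val hvi]; omega
        have hcD : c ∉ D := by
          intro h3
          have h4 := top_lowest h3 hc1
          rw [h2.2.1] at h4
          have h5 := h4.le
          have h6 := (top_anc D v).le
          omega
        have h3 : top D c = top D v := by rw [top_par hcD (by omega), hc2]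
        have h4 : z' c = true := by
          rw [hz']; simp only [h3, hF, if_false, h1.1, Bool.true_and, decide_eq_true_eq]
          exact hc1
        rcases hc3 with rfl | rfl
        · left; exact h4
        · right; exact h4

theorem root_anc {v : Nd h} (hv : v ∈ inner h) : Anc (root h) v := by
  refine ⟨Nat.log 2 v.val, ?_⟩
  rw [mem_inner] at hv
  have h1 := Nat.pow_log_le_self 2 (x := v.val) (by omega)
  have h2 := Nat.lt_pow_succ_log_self (b := 2) (by norm_num) v.val
  show v.val / 2 ^ Nat.log 2 v.val = 1
  rw [Nat.div_eq_iff (Nat.pow_pos (by norm_num))]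
  rw [Nat.succ_eq_add_one, pow_succ 2 (Nat.log 2 v.val)] at h2
  omega

/-- If `α` is not everything then there is a colouring. -/
theorem exists_col {α : Finset (Nd h)} (hα : α ⊆ inner h) (hne : α ≠ inner h) :
    ∃ z, Col z α := by
  classical
  obtain ⟨y, hy1, hy2⟩ : ∃ y ∈ inner h, y ∉ α := by
    by_contra hcon
    push Not at hcon
    exact hne (Subset.antisymm hα hcon)
  refine ⟨fun u => decide (Anc u y), ?_, ?_, ?_⟩
  · simpa using root_anc hy1
  · intro v hv
    simp only [decide_eq_false_iff_not]
    intro h1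
    have := h1.le
    have := (mem_inner.1 hy1).2
    omega
  · intro v hv hz
    simp only [decide_eq_true_eq] at hz ⊢
    obtain ⟨c, hc1, _, hc3⟩ := hz.child (by rintro rfl; exact hy2 hv) (hα hv)
    rcases hc3 with rfl | rfl
    · left; exact hc1
    · right; exact hc1

/-- The number of sets with boundary in `D`. -/
theorem card_Cr [DecidableEq (Finset (Nd h))] (D : Finset (Nd h))
    (F : Finset (Finset (Nd h))) (hF : ∀ α ∈ F, α ⊆ inner h ∧ Cr α D) :
    F.card ≤ 2 ^ (D.card + 1) := by
  classical
  have h1 : F.card ≤ (insert (root h) D).powerset.card := by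
    refine card_le_card_of_injOn (fun α => α ∩ insert (root h) D) ?_ ?_
    · intro α _
      rw [mem_coe, mem_powerset]
      exact inter_subset_right
    · intro α hα β hβ hab
      simp only at hab
      have hα' := hF α hα
      have hβ' := hF β hβ
      have key : ∀ n : ℕ, ∀ v : Nd h, v.val = n → 1 ≤ v.val → v.val < 2 ^ h → (v ∈ α ↔ v ∈ β) := by
        intro n
        induction n using Nat.strong_induction_on with
        | _ n ih =>
          intro v hv h1 h2
          by_cases h3 : v ∈ insert (root h) D
          · have h4 := congrArg (fun S : Finset (Nd h) => v ∈ S) hab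
            simp only [mem_inter, h3, and_true, eq_iff_iff] at h4
            exact h4
          · rw [mem_insert, not_or] at h3
            have h4 : 2 ≤ v.val := by
              rcases Nat.lt_or_ge v.val 2 with h5 | h5
              · exact absurd (Fin.ext (by show v.val = 1; omega)) h3.1
              · exact h5
            rw [hα'.2 v h4 h2 h3.2, hβ'.2 v h4 h2 h3.2]
            exact ih (par v).val (by rw [par_val]; omega) (par v) rfl
              (by rw [par_val]; omega) (by rw [par_val]; omega)
      ext v
      by_cases hv : v ∈ inner h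
      · have := mem_inner.1 hv
        exact key _ v rfl this.1 this.2
      · exact ⟨fun h => absurd (hα'.1 h) hv, fun h => absurd (hβ'.1 h) hv⟩
  refine h1.trans ?_
  rw [card_powerset]
  exact Nat.pow_le_pow_right (by norm_num) (card_insert_le _ _)

/-- parity of the depth -/
def dpar (v : Nd h) : Bool := decide (Even (Nat.log 2 v.val))

theorem dpar_lc {v : Nd h} (hv : v ∈ inner h) : dpar (lc v) = !dpar v := by
  have h1 := (mem_inner.1 hv).1
  unfold dpar
  rw [lc_val hv, mul_comm, Nat.log_mul_base (by norm_num) (by omega)]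
  by_cases h2 : Even (Nat.log 2 v.val)
  · simp [h2, Nat.even_add_one]
  · simp [h2, Nat.even_add_one]

theorem dpar_rc {v : Nd h} (hv : v ∈ inner h) : dpar (rc v) = !dpar v := by
  have h1 := (mem_inner.1 hv).1
  have h3 : Nat.log 2 (2 * v.val + 1) = Nat.log 2 v.val + 1 := by
    rw [Nat.log_of_one_lt_of_le (by norm_num) (by omega)]
    congr 2
    omega
  unfold dpar
  rw [rc_val hv, h3]
  by_cases h2 : Even (Nat.log 2 v.val)
  · simp [h2, Nat.even_add_one]
  · simp [h2, Nat.even_add_one]

/-- the node with its children -/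
def tri (v : Nd h) : Finset (Nd h) := {v, lc v, rc v}

theorem card_tri {v : Nd h} (hv : v ∈ inner h) : (tri v).card = 3 := by
  have h1 := (mem_inner.1 hv).1
  have hl := lc_val hv
  have hr := rc_val hv
  unfold tri
  rw [card_eq_three]
  refine ⟨v, lc v, rc v, ?_, ?_, ?_, rfl⟩
  · intro h; have := congrArg Fin.val h; omega
  · intro h; have := congrArg Fin.val h; omega
  · intro h; have := congrArg Fin.val h; omega

theorem disjoint_tri {v w : Nd h} (hv : v ∈ inner h) (hw : w ∈ inner h) (hne : v ≠ w)
    (hp : dpar v = dpar w) : Disjoint (tri v) (tri w) := by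
  have hne' : v.val ≠ w.val := fun h => hne (Fin.ext h)
  have a1 := lc_val hv
  have a2 := rc_val hv
  have b1 := lc_val hw
  have b2 := rc_val hw
  have c1 := dpar_lc hv
  have c2 := dpar_rc hv
  have d1 := dpar_lc hw
  have d2 := dpar_rc hw
  rw [disjoint_left]
  intro x hx hy
  unfold tri at hx hy
  simp only [mem_insert, mem_singleton] at hx hy
  have flip : ∀ b : Bool, b ≠ !b := by decide
  rcases hx with rfl | rfl | rfl <;> rcases hy with hy | hy | hy
  · exact hne hy
  · rw [hy, d1] at hp; exact flip _ hp.symm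
  · rw [hy, d2] at hp; exact flip _ hp.symm
  · rw [hy, ← hp] at c1; exact flip _ c1
  · have := congrArg Fin.val hy; omega
  · have := congrArg Fin.val hy; omega
  · rw [hy, ← hp] at c2; exact flip _ c2
  · have := congrArg Fin.val hy; omega
  · have := congrArg Fin.val hy; omega

end Pool.Agent.T9h47.MN
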