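import Mathlib
import Pool.Agent.T9h47.MN.Tree

/-!
# Isoperimetry in the complete binary tree
-/

set_option autoImplicit false

namespace Pool.Agent.T9h47.MN

open Finset

/-- the sum of the distances of `x / 2 ^ j` to the integers -/
def nu (h : ℕ) (x : ℤ) : ℚ := ∑ j ∈ Icc 1 h, |(x : ℚ) / 2 ^ j - round ((x : ℚ) / 2 ^ j)|

theorem nu_zero (h : ℕ) : nu h 0 = 0 := by simp [nu]

theorem nu_add (h : ℕ) (x y : ℤ) : nu h (x + y) ≤ nu h x + nu h y := by
  unfold nu
  rw [← sum_add_distrib]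
  refine sum_le_sum fun j _ => ?_
  refine (round_le _ (round ((x : ℚ) / 2 ^ j) + round ((y : ℚ) / 2 ^ j))).trans ?_
  have : ((x + y : ℤ) : ℚ) / 2 ^ j -
      ((round ((x : ℚ) / 2 ^ j) + round ((y : ℚ) / 2 ^ j) : ℤ) : ℚ) =
      ((x : ℚ) / 2 ^ j - round ((x : ℚ) / 2 ^ j)) + ((y : ℚ) / 2 ^ j - round ((y : ℚ) / 2 ^ j)) := by
    push_cast; ring
  rw [this]
  exact abs_add_le _ _

theorem nu_neg (h : ℕ) (x : ℤ) : nu h (-x) ≤ nu h x := by
  unfold nu
  refine sum_le_sum fun j _ => ?_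
  refine (round_le _ (-round ((x : ℚ) / 2 ^ j))).trans ?_
  have : ((-x : ℤ) : ℚ) / 2 ^ j - ((-round ((x : ℚ) / 2 ^ j) : ℤ) : ℚ) =
      -((x : ℚ) / 2 ^ j - round ((x : ℚ) / 2 ^ j)) := by
    push_cast; ring
  rw [this, abs_neg]

theorem nu_succ (h : ℕ) (x : ℤ) : nu (h + 1) x =
    nu h x + |(x : ℚ) / 2 ^ (h + 1) - round ((x : ℚ) / 2 ^ (h + 1))| := by
  unfold nu
  rw [sum_Icc_succ_top (by omega)]

theorem nu_pow_le (i : ℕ) : ∀ h ≤ i, nu h (2 ^ i - 1) ≤ 1 - (1 / 2) ^ h := by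
  intro h
  induction h with
  | zero => intro _; simp [nu]
  | succ h ih =>
    intro hi
    rw [nu_succ]
    have h1 := ih (by omega)
    have h2 := round_le (((2 ^ i - 1 : ℤ) : ℚ) / 2 ^ (h + 1)) (2 ^ (i - (h + 1)))
    have h3 : ((2 ^ i - 1 : ℤ) : ℚ) / 2 ^ (h + 1) - ((2 ^ (i - (h + 1)) : ℤ) : ℚ) =
        -(1 / 2) ^ (h + 1) := by
      have : (2 : ℚ) ^ i = 2 ^ (i - (h + 1)) * 2 ^ (h + 1) := by
        rw [← pow_add]; congr 1; omega
      push_cast
      rw [this]
      have h4 : (2 : ℚ) ^ (h + 1) ≠ 0 := by positivity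
      rw [one_div, inv_pow]
      field_simp
      ring
    rw [h3, abs_neg, abs_of_nonneg (show (0 : ℚ) ≤ (1 / 2) ^ (h + 1) by positivity)] at h2
    have h5 : (1 / 2 : ℚ) ^ h = 2 * (1 / 2) ^ (h + 1) := by rw [pow_succ]; ring
    linarith

theorem nu_pow (h i : ℕ) (hi : i ≤ h) : nu h (2 ^ i - 1) ≤ 2 := by
  have key : nu h (2 ^ i - 1) ≤ 2 - (1 / 2) ^ i - (1 / 2) ^ (h - i) := by
    induction h, hi using Nat.le_induction with
    | base =>
      have := nu_pow_le i i le_rfl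
      simp only [Nat.sub_self, pow_zero]
      linarith
    | succ h hi ih =>
      rw [nu_succ]
      have h2 := round_le (((2 ^ i - 1 : ℤ) : ℚ) / 2 ^ (h + 1)) 0
      have h3 : |((2 ^ i - 1 : ℤ) : ℚ) / 2 ^ (h + 1) - ((0 : ℤ) : ℚ)| ≤ (1 / 2) ^ (h + 1 - i) := by
        have h4 : (0 : ℚ) ≤ ((2 ^ i - 1 : ℤ) : ℚ) / 2 ^ (h + 1) := by
          apply div_nonneg
          · push_cast
            have : (1 : ℚ) ≤ 2 ^ i := one_le_pow₀ (by norm_num)
            linarith
          · positivity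
        rw [Int.cast_zero, sub_zero, abs_of_nonneg h4]
        have h5 : (1 / 2 : ℚ) ^ (h + 1 - i) = 2 ^ i / 2 ^ (h + 1) := by
          have : (2 : ℚ) ^ (h + 1) = 2 ^ (h + 1 - i) * 2 ^ i := by
            rw [← pow_add]; congr 1; omega
          rw [this, one_div, inv_pow]
          field_simp
        rw [h5]
        apply div_le_div_of_nonneg_right _ (by positivity)
        push_cast; linarith
      have h6 : (1 / 2 : ℚ) ^ (h - i) = 2 * (1 / 2) ^ (h + 1 - i) := by
        have : h + 1 - i = (h - i) + 1 := by omega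
        rw [this, pow_succ]; ring
      linarith
  have h1 : (0 : ℚ) < (1 / 2) ^ i := by positivity
  have h2 : (0 : ℚ) < (1 / 2) ^ (h - i) := by positivity
  linarith

theorem three_not_dvd_two_pow (n : ℕ) : ¬ (3 : ℤ) ∣ 2 ^ n := by
  intro h
  have h1 : Prime (3 : ℤ) := by exact Int.prime_iff_natAbs_prime.2 (by norm_num)
  have h2 := h1.dvd_of_dvd_pow h
  norm_num at h2

theorem nu_t_aux (g : ℕ) (t : ℤ) (ht : 3 * t = 4 ^ g - 1) (j : ℕ) (hj2 : 2 ≤ j) (hj : j ≤ 2 * g)
    (z : ℤ) : 2 ^ j ≤ 4 * |t - z * 2 ^ j| := by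
  have h1 : (4 : ℤ) ^ g = 2 ^ j * 2 ^ (2 * g - j) := by
    rw [← pow_add, show (4 : ℤ) = 2 ^ 2 by norm_num, ← pow_mul]
    congr 1; omega
  obtain ⟨P, hP⟩ : ∃ P : ℤ, P = 2 ^ j := ⟨_, rfl⟩
  obtain ⟨Q, hQ⟩ : ∃ Q : ℤ, Q = 2 ^ (2 * g - j) := ⟨_, rfl⟩
  have hP4 : 4 ≤ P := by
    rw [hP]
    calc (4 : ℤ) = 2 ^ 2 := by norm_num
      _ ≤ 2 ^ j := pow_le_pow_right₀ (by norm_num) hj2
  rw [← hP, ← hQ] at h1
  rw [← hP]
  have h2 : 3 * (t - z * P) = P * (Q - 3 * z) - 1 := by linear_combination ht + h1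
  have h3 : Q - 3 * z ≠ 0 := by
    intro h4
    apply three_not_dvd_two_pow (2 * g - j)
    rw [← hQ]
    exact ⟨z, by linarith⟩
  rcases lt_or_gt_of_ne h3 with h4 | h4
  · have h5 : Q - 3 * z ≤ -1 := by omega
    have h6 : P * (Q - 3 * z) ≤ P * (-1) := mul_le_mul_of_nonneg_left h5 (by linarith)
    have h7 := neg_abs_le (t - z * P)
    linarith
  · have h5 : 1 ≤ Q - 3 * z := by omega
    have h6 : P * 1 ≤ P * (Q - 3 * z) := mul_le_mul_of_nonneg_left h5 (by linarith)
    have h7 := le_abs_self (t - z * P)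
    linarith

theorem nu_t (g : ℕ) (t : ℤ) (ht : 3 * t = 4 ^ g - 1) :
    ((2 * g : ℕ) : ℚ) ≤ 4 * nu (2 * g) t + 1 := by
  have key : ∀ h ≤ 2 * g, ((h : ℕ) : ℚ) ≤ 4 * nu h t + 1 := by
    intro h
    induction h with
    | zero => intro _; simp [nu]
    | succ h ih =>
      intro hh
      have h1 := ih (by omega)
      rw [nu_succ]
      rcases Nat.eq_zero_or_pos h with rfl | hpos
      · have : (0 : ℚ) ≤ |(t : ℚ) / 2 ^ (0 + 1) - round ((t : ℚ) / 2 ^ (0 + 1))| := abs_nonneg _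
        simp only [nu, Icc_eq_empty_of_lt (show (0 : ℕ) < 1 by norm_num), sum_empty] at h1 ⊢
        push_cast
        linarith
      · have h2 := nu_t_aux g t ht (h + 1) (by omega) hh (round ((t : ℚ) / 2 ^ (h + 1)))
        have h3 : (2 : ℚ) ^ (h + 1) ≤
            4 * |(t : ℚ) - (round ((t : ℚ) / 2 ^ (h + 1)) : ℚ) * 2 ^ (h + 1)| := by
          exact_mod_cast h2
        have h4 : |(t : ℚ) - (round ((t : ℚ) / 2 ^ (h + 1)) : ℚ) * 2 ^ (h + 1)| =
            |(t : ℚ) / 2 ^ (h + 1) - (round ((t : ℚ) / 2 ^ (h + 1)) : ℚ)| * 2 ^ (h + 1) := by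
          conv_rhs => rw [← abs_of_pos (show (0 : ℚ) < 2 ^ (h + 1) by positivity)]
          rw [← abs_mul]
          congr 1
          rw [abs_of_pos (show (0 : ℚ) < 2 ^ (h + 1) by positivity), sub_mul,
            div_mul_cancel₀ _ (by positivity)]
        rw [h4] at h3
        have h5 : (0 : ℚ) < 2 ^ (h + 1) := by positivity
        have h6 : 1 ≤ 4 * |(t : ℚ) / 2 ^ (h + 1) - (round ((t : ℚ) / 2 ^ (h + 1)) : ℚ)| := by
          by_contra hcon
          rw [not_le] at hcon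
          have := mul_lt_mul_of_pos_right hcon h5
          linarith
        push_cast
        linarith
  exact key _ le_rfl

/-! ### Subtrees -/

/-- The first `i` levels of the subtree at `v`. -/
def Sub : ℕ → ℕ → Finset ℕ
  | _, 0 => ∅
  | v, i + 1 => insert v (Sub (2 * v) i ∪ Sub (2 * v + 1) i)

theorem exists_of_mem_Sub : ∀ (i v u : ℕ), u ∈ Sub v i → ∃ e < i, u / 2 ^ e = v := by
  intro i
  induction i with
  | zero => intro v u hu; simp [Sub] at hu
  | succ i ih =>
    intro v u hu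
    rw [Sub, mem_insert, mem_union] at hu
    rcases hu with rfl | hu | hu
    · exact ⟨0, by omega, by simp⟩
    · obtain ⟨e, he, h1⟩ := ih _ _ hu
      exact ⟨e + 1, by omega, by rw [pow_succ, ← Nat.div_div_eq_div_mul, h1]; omega⟩
    · obtain ⟨e, he, h1⟩ := ih _ _ hu
      exact ⟨e + 1, by omega, by rw [pow_succ, ← Nat.div_div_eq_div_mul, h1]; omega⟩

theorem mem_Sub_of_exists : ∀ (i v u : ℕ), (∃ e < i, u / 2 ^ e = v) → u ∈ Sub v i := by
  intro i
  induction i with
  | zero => rintro v u ⟨e, he, _⟩; omega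
  | succ i ih =>
    rintro v u ⟨e, he, h1⟩
    rw [Sub, mem_insert, mem_union]
    cases e with
    | zero => left; simpa using h1
    | succ e =>
      right
      rw [pow_succ, ← Nat.div_div_eq_div_mul] at h1
      rcases Nat.even_or_odd' (u / 2 ^ e) with ⟨c, hc | hc⟩
      · left; exact ih _ _ ⟨e, by omega, by omega⟩
      · right; exact ih _ _ ⟨e, by omega, by omega⟩

theorem div_pow_lt {v : ℕ} (hv : 1 ≤ v) {e : ℕ} (he : 1 ≤ e) (c : ℕ) (hc : c = 2 * v ∨ c = 2 * v + 1) :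
    c / 2 ^ e ≤ v := by
  calc c / 2 ^ e ≤ c / 2 ^ 1 := Nat.div_le_div_left (Nat.pow_le_pow_right (by norm_num) he) (by norm_num)
    _ ≤ v := by omega

theorem Sub_disj {v : ℕ} (hv : 1 ≤ v) (i : ℕ) : Disjoint (Sub (2 * v) i) (Sub (2 * v + 1) i) := by
  rw [disjoint_left]
  intro u h1 h2
  obtain ⟨e, _, h3⟩ := exists_of_mem_Sub _ _ _ h1
  obtain ⟨e', _, h4⟩ := exists_of_mem_Sub _ _ _ h2
  rcases lt_trichotomy e e' with h5 | h5 | h5
  · have : u / 2 ^ e' = (2 * v) / 2 ^ (e' - e) := by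
      rw [← h3, Nat.div_div_eq_div_mul, ← pow_add]; congr 2; omega
    have h6 := div_pow_lt hv (show 1 ≤ e' - e by omega) (2 * v) (Or.inl rfl)
    omega
  · subst h5; omega
  · have : u / 2 ^ e = (2 * v + 1) / 2 ^ (e - e') := by
      rw [← h4, Nat.div_div_eq_div_mul, ← pow_add]; congr 2; omega
    have h6 := div_pow_lt hv (show 1 ≤ e - e' by omega) (2 * v + 1) (Or.inr rfl)
    omega

theorem notMem_Sub {v : ℕ} (hv : 1 ≤ v) (i c : ℕ) (hc : c = 2 * v ∨ c = 2 * v + 1) :
    v ∉ Sub c i := by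
  intro h1
  obtain ⟨e, _, h3⟩ := exists_of_mem_Sub _ _ _ h1
  have := Nat.div_le_self v (2 ^ e)
  omega

theorem iso_aux (h : ℕ) (A B : Finset ℕ) : ∀ (i : ℕ), i ≤ h → ∀ v, 1 ≤ v →
    (∀ c ∈ Sub v i, c ≠ v → c ∉ B → (c ∈ A ↔ c / 2 ∈ A)) →
    nu h (((A ∩ Sub v i).card : ℤ) - (if v ∈ A then 2 ^ i - 1 else 0)) ≤
      2 * (((B ∩ Sub v i).erase v).card : ℚ) := by
  intro i
  induction i with
  | zero =>
    intro _ v _ _
    simp [Sub, nu_zero]
  | succ i ih =>
    intro hi v hv hcr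
    have hd := Sub_disj hv i
    have hvl := notMem_Sub hv i (2 * v) (Or.inl rfl)
    have hvr := notMem_Sub hv i (2 * v + 1) (Or.inr rfl)
    have hdA : Disjoint (A ∩ Sub (2 * v) i) (A ∩ Sub (2 * v + 1) i) :=
      hd.mono inter_subset_right inter_subset_right
    have hdB : Disjoint (B ∩ Sub (2 * v) i) (B ∩ Sub (2 * v + 1) i) :=
      hd.mono inter_subset_right inter_subset_right
    have e1 : ((A ∩ Sub v (i + 1)).card : ℤ) = (if v ∈ A then 1 else 0) +
        (A ∩ Sub (2 * v) i).card + (A ∩ Sub (2 * v + 1) i).card := by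
      rw [Sub]
      by_cases hA : v ∈ A
      · rw [inter_insert_of_mem hA, inter_union_distrib_left, card_insert_of_notMem,
          card_union_of_disjoint hdA, if_pos hA]
        · push_cast; ring
        · simp [hvl, hvr]
      · rw [inter_insert_of_notMem hA, inter_union_distrib_left, card_union_of_disjoint hdA,
          if_neg hA]
        push_cast; ring
    have e2 : (((B ∩ Sub v (i + 1)).erase v).card : ℚ) =
        (B ∩ Sub (2 * v) i).card + (B ∩ Sub (2 * v + 1) i).card := by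
      have : (B ∩ Sub v (i + 1)).erase v = (B ∩ Sub (2 * v) i) ∪ (B ∩ Sub (2 * v + 1) i) := by
        rw [Sub]
        ext x
        simp only [mem_erase, mem_inter, mem_insert, mem_union]
        constructor
        · rintro ⟨h1, h2, h3 | h3 | h3⟩
          · exact absurd h3 h1
          · exact Or.inl ⟨h2, h3⟩
          · exact Or.inr ⟨h2, h3⟩
        · rintro (⟨h1, h2⟩ | ⟨h1, h2⟩)
          · exact ⟨by rintro rfl; exact hvl h2, h1, Or.inr (Or.inl h2)⟩
          · exact ⟨by rintro rfl; exact hvr h2, h1, Or.inr (Or.inr h2)⟩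
      rw [this, card_union_of_disjoint hdB]
      push_cast; ring
    -- one child
    have child : ∀ c, (c = 2 * v ∨ c = 2 * v + 1) →
        nu h (((A ∩ Sub c i).card : ℤ) - (if v ∈ A then 2 ^ i - 1 else 0)) ≤
          2 * ((B ∩ Sub c i).card : ℚ) := by
      intro c hc
      have hc2 : c / 2 = v := by omega
      have hsub : Sub c i ⊆ Sub v (i + 1) := by
        rw [Sub]
        rcases hc with rfl | rfl
        · exact subset_union_left.trans (subset_insert _ _)
        · exact subset_union_right.trans (subset_insert _ _)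
      have h1 := ih (by omega) c (by omega) (by
        intro d hd1 hd2 hd3
        refine hcr d (hsub hd1) ?_ hd3
        rintro rfl
        rcases hc with rfl | rfl
        · exact hvl hd1
        · exact hvr hd1)
      by_cases heq : (c ∈ A ↔ v ∈ A)
      · have h2 : (((B ∩ Sub c i).erase c).card : ℚ) ≤ ((B ∩ Sub c i).card : ℚ) := by
          exact_mod_cast card_le_card (erase_subset _ _)
        simp only [heq] at h1
        linarith
      · rcases Nat.eq_zero_or_pos i with rfl | hi0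
        · simp [Sub, nu_zero]
        · have hcm : c ∈ Sub c i := by
            obtain ⟨i', rfl⟩ : ∃ i', i = i' + 1 := ⟨i - 1, by omega⟩
            rw [Sub]; exact mem_insert_self _ _
          have hcB : c ∈ B := by
            by_contra hcon
            have := hcr c (hsub hcm) (by omega) hcon
            rw [hc2] at this
            exact heq this
          have h2 : (((B ∩ Sub c i).erase c).card : ℚ) + 1 = ((B ∩ Sub c i).card : ℚ) := by
            exact_mod_cast card_erase_add_one (mem_inter.2 ⟨hcB, hcm⟩)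
          have h3 := nu_pow h i (by omega)
          by_cases hvA : v ∈ A
          · have hcA : c ∉ A := fun h => heq ⟨fun _ => hvA, fun _ => h⟩
            rw [if_neg hcA, sub_zero] at h1
            rw [if_pos hvA, sub_eq_add_neg]
            have h4 := nu_add h ((A ∩ Sub c i).card : ℤ) (-(2 ^ i - 1))
            have h5 := nu_neg h (2 ^ i - 1)
            linarith
          · have hcA : c ∈ A := by
              by_contra hcon
              exact heq ⟨fun h => absurd h hcon, fun h => absurd h hvA⟩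
            rw [if_pos hcA] at h1
            rw [if_neg hvA, sub_zero]
            have h4 := nu_add h (((A ∩ Sub c i).card : ℤ) - (2 ^ i - 1)) (2 ^ i - 1)
            rw [sub_add_cancel] at h4
            linarith
    have c1 := child (2 * v) (Or.inl rfl)
    have c2 := child (2 * v + 1) (Or.inr rfl)
    have e3 : ((A ∩ Sub v (i + 1)).card : ℤ) - (if v ∈ A then 2 ^ (i + 1) - 1 else 0) =
        (((A ∩ Sub (2 * v) i).card : ℤ) - (if v ∈ A then 2 ^ i - 1 else 0)) +
        (((A ∩ Sub (2 * v + 1) i).card : ℤ) - (if v ∈ A then 2 ^ i - 1 else 0)) := by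
      rw [e1]
      split_ifs <;> ring
    rw [e3, e2]
    have h4 := nu_add h (((A ∩ Sub (2 * v) i).card : ℤ) - (if v ∈ A then 2 ^ i - 1 else 0))
      (((A ∩ Sub (2 * v + 1) i).card : ℤ) - (if v ∈ A then 2 ^ i - 1 else 0))
    linarith

theorem card_inner (h : ℕ) : (inner h).card = 2 ^ h - 1 := by
  have : (inner h).card = (Ico 1 (2 ^ h)).card := by
    refine card_bij (fun v _ => v.val) ?_ ?_ ?_
    · intro v hv; rw [mem_inner] at hv; simpa using hv
    · intro v _ w _ hvw; exact Fin.ext hvw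
    · intro x hx
      rw [mem_Ico] at hx
      have := two_pow_succ' h
      exact ⟨⟨x, by omega⟩, mem_inner.2 hx, rfl⟩
  rw [this, Nat.card_Ico]

/-- **Isoperimetry**: a set of `t` inner nodes has a large boundary, `3 t = 4 ^ g - 1`. -/
theorem iso (g t : ℕ) (ht : 3 * t + 1 = 4 ^ g) (α D : Finset (Nd (2 * g)))
    (hα : α ⊆ inner (2 * g)) (hcard : α.card = t) (hcr : Cr α D) : 2 * g ≤ 8 * D.card + 9 := by
  obtain ⟨A, hA⟩ : ∃ A : Finset ℕ, A = α.image Fin.val := ⟨_, rfl⟩
  obtain ⟨B, hB⟩ : ∃ B : Finset ℕ, B = D.image Fin.val := ⟨_, rfl⟩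
  have hAcard : A.card = t := by rw [hA, card_image_of_injective _ Fin.val_injective, hcard]
  have hBcard : B.card ≤ D.card := by rw [hB]; exact card_image_le
  have hmem : ∀ u : ℕ, 1 ≤ u → u < 2 ^ (2 * g) → u ∈ Sub 1 (2 * g) := by
    intro u h1 h2
    refine mem_Sub_of_exists _ _ _ ⟨Nat.log 2 u, ?_, ?_⟩
    · exact Nat.log_lt_of_lt_pow (by omega) h2
    · have h3 := Nat.pow_log_le_self 2 (x := u) (by omega)
      have h4 := Nat.lt_pow_succ_log_self (b := 2) (by norm_num) u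
      rw [Nat.div_eq_iff (Nat.pow_pos (by norm_num))]
      rw [Nat.succ_eq_add_one, pow_succ] at h4
      omega
  have hAsub : A ⊆ Sub 1 (2 * g) := by
    intro u hu
    rw [hA, mem_image] at hu
    obtain ⟨v, hv, rfl⟩ := hu
    have := mem_inner.1 (hα hv)
    exact hmem _ this.1 this.2
  have hub : ∀ c ∈ Sub 1 (2 * g), 1 ≤ c ∧ c < 2 ^ (2 * g) := by
    intro c hc
    obtain ⟨e, he, h1⟩ := exists_of_mem_Sub _ _ _ hc
    have h0 : c ≠ 0 := by
      rintro rfl; simp at h1
    refine ⟨by omega, ?_⟩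
    have h2 : c < 2 ^ (e + 1) := by
      rw [Nat.div_eq_iff (Nat.pow_pos (by norm_num))] at h1
      rw [pow_succ]; omega
    exact h2.trans_le (Nat.pow_le_pow_right (by norm_num) (by omega))
  have h1 := iso_aux (2 * g) A B (2 * g) le_rfl 1 le_rfl (by
    intro c hc hc1 hcB
    obtain ⟨h2, h3⟩ := hub c hc
    have h4 := two_pow_succ' (2 * g)
    obtain ⟨v, hv⟩ : ∃ v : Nd (2 * g), v.val = c := ⟨⟨c, by omega⟩, rfl⟩
    have h5 : v ∉ D := by
      intro h; exact hcB (by rw [hB]; exact mem_image.2 ⟨v, h, hv⟩)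
    have h6 := hcr v (by omega) (by omega) h5
    have h7 : ∀ w : Nd (2 * g), w ∈ α ↔ w.val ∈ A := by
      intro w
      rw [hA, mem_image]
      constructor
      · intro h; exact ⟨w, h, rfl⟩
      · rintro ⟨w', h, hw⟩; rwa [← Fin.ext hw]
    rw [h7, h7, par_val, hv] at h6
    exact h6)
  rw [inter_eq_left.2 hAsub, hAcard] at h1
  have h2 : (((B ∩ Sub 1 (2 * g)).erase 1).card : ℚ) ≤ D.card := by
    exact_mod_cast (card_le_card ((erase_subset _ _).trans inter_subset_left)).trans hBcard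
  have h3 := nu_t g (t : ℤ) (by
    have : ((3 * t + 1 : ℕ) : ℤ) = ((4 ^ g : ℕ) : ℤ) := by rw [ht]
    push_cast at this
    linarith)
  have h4 : nu (2 * g) (t : ℤ) ≤ 2 * (D.card : ℚ) + 2 := by
    by_cases hA1 : 1 ∈ A
    · rw [if_pos hA1] at h1
      have h5 := nu_add (2 * g) ((t : ℤ) - (2 ^ (2 * g) - 1)) (2 ^ (2 * g) - 1)
      rw [sub_add_cancel] at h5
      have h6 := nu_pow (2 * g) (2 * g) le_rfl
      linarith
    · rw [if_neg hA1, sub_zero] at h1
      linarith
  have h5 : ((2 * g : ℕ) : ℚ) ≤ 8 * (D.card : ℚ) + 9 := by linarith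
  exact_mod_cast h5

end Pool.Agent.T9h47.MN
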