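import Mathlib
import Pool.Agent.T9h47.MN.Count
import Pool.Agent.T9h47.MN.Iso

/-!
# Monotone networks for the tree problem: the approximation argument
-/

set_option autoImplicit false

namespace Pool.Agent.T9h47.MN

open Finset

section defs

variable {h : ℕ} {Lab : Type}

/-- the variables: a node with the labels of its left child, its right child, and itself -/
abbrev Var (h : ℕ) (Lab : Type) := Nd h × Lab × Lab × Lab

/-- the variable at `v` of the labeling `l` -/
def trip (l : Nd h → Lab) (v : Nd h) : Var h Lab := (v, l (lc v), l (rc v), l v)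

/-- positive tests -/
def posT (l : Nd h → Lab) : Set (Var h Lab) := {q | q.1 ∈ inner h ∧ q = trip l q.1}

/-- the colour of the label `a` at `v`: the root is always true, the leaves are always false -/
def eff (χ : Nd h × Lab → Bool) (v : Nd h) (a : Lab) : Bool :=
  if v = root h then true else if 2 ^ h ≤ v.val then false else χ (v, a)

/-- negative tests -/
def negT (χ : Nd h × Lab → Bool) : Set (Var h Lab) :=
  {q | q.1 ∈ inner h ∧ (eff χ q.1 q.2.2.2 = true →
    eff χ (lc q.1) q.2.1 = true ∨ eff χ (rc q.1) q.2.2.1 = true)}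

/-- a network: a graph whose edges are guarded by conditions on the input `x : Set X` -/
structure Net (X : Type) where
  /-- vertices -/
  V : Type
  /-- edges -/
  E : Type
  /-- start of an edge -/
  src : E → V
  /-- end of an edge -/
  dst : E → V
  /-- start vertex -/
  s : V
  /-- end vertex -/
  t : V
  /-- the guards -/
  guard : E → Set X → Prop

/-- reachability for the input `x` -/
def Net.Reach {X : Type} (P : Net X) (x : Set X) : P.V → Prop :=
  Relation.ReflTransGen (fun u v => ∃ e, P.src e = u ∧ P.dst e = v ∧ P.guard e x) P.s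

variable [DecidableEq Lab]

/-- the graph of a labeling on `D` -/
def gr (l : Nd h → Lab) (D : Finset (Nd h)) : Finset (Nd h × Lab) := D.image (fun v => (v, l v))

theorem mem_gr {l : Nd h → Lab} {D : Finset (Nd h)} {q : Nd h × Lab} :
    q ∈ gr l D ↔ q.1 ∈ D ∧ q.2 = l q.1 := by
  unfold gr
  rw [mem_image]
  constructor
  · rintro ⟨v, hv, rfl⟩; exact ⟨hv, rfl⟩
  · rintro ⟨h1, h2⟩; exact ⟨q.1, h1, by rw [← h2]⟩

theorem gr_fst (l : Nd h → Lab) (D : Finset (Nd h)) : (gr l D).image Prod.fst = D := by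
  unfold gr
  rw [image_image]
  simp only [Function.comp_def]
  exact image_id

theorem gr_card (l : Nd h → Lab) (D : Finset (Nd h)) : (gr l D).card = D.card := by
  unfold gr
  refine card_image_of_injective _ ?_
  intro v w hvw
  exact congrArg Prod.fst hvw

theorem eq_gr {l : Nd h → Lab} {P : Finset (Nd h × Lab)} (hP : P ⊆ gr l univ) :
    P = gr l (P.image Prod.fst) := by
  ext q
  rw [mem_gr, mem_image]
  constructor
  · intro hq
    exact ⟨⟨q, hq, rfl⟩, (mem_gr.1 (hP hq)).2⟩
  · rintro ⟨⟨q', hq', h1⟩, h2⟩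
    have h3 := (mem_gr.1 (hP hq')).2
    have : q = q' := by
      apply Prod.ext
      · exact h1.symm
      · rw [h2, h3, h1]
    rw [this]; exact hq'

/-- a configuration is accepted by a colouring -/
def AccC (χ : Nd h × Lab → Bool) (P : Finset (Nd h × Lab)) (α : Finset (Nd h)) : Prop :=
  ∃ z, Col z α ∧ ∀ q ∈ P, z q.1 = eff χ q.1 q.2

end defs

section core

variable {h : ℕ} {Lab : Type} [Fintype Lab] [DecidableEq Lab]

/-- if a colouring agrees with `χ` on the pairs which are not special then it agrees with `eff` -/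
theorem eff_eq {χ : Nd h × Lab → Bool} {z : Nd h → Bool} {α : Finset (Nd h)} (hz : Col z α)
    {v : Nd h} {a : Lab} (h1 : v ≠ root h → v.val < 2 ^ h → χ (v, a) = z v) :
    z v = eff χ v a := by
  unfold eff
  split_ifs with h2 h3
  · rw [h2]; exact hz.1
  · exact hz.2.1 v h3
  · exact (h1 h2 (by omega)).symm

/-- the event of an error by plucking is small -/
theorem pluck_err (p K : ℕ) (D D' : Finset (Nd h)) (hK : D.card ≤ K)
    (ls : Fin p → Nd h → Lab) (hdiff : ∀ i j, i ≠ j → ∀ v ∈ D \ D', ls i v ≠ ls j v)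
    (α β : Finset (Nd h)) (i0 : Fin p) (hDD : D' ⊆ D)
    (hagree : ∀ i j, ∀ v ∈ D', ls i v = ls j v)
    (hres : ∀ z, Col z β → ∃ z', Col z' α ∧ ∀ v ∈ D', z' v = z v)
    (S : Finset (Nd h × Lab → Bool))
    (hS : ∀ χ ∈ S, AccC χ (gr (ls i0) D') β ∧ ∀ i, ¬ AccC χ (gr (ls i) D) α) :
    S.card * (2 ^ K) ^ p ≤ 2 ^ K * ((2 ^ K - 1) ^ p * 2 ^ Fintype.card (Nd h × Lab)) := by
  classical
  obtain ⟨Q, hQ⟩ : ∃ Q : ℕ → Finset (Nd h × Lab), Q = fun i => if hi : i < p then
      (gr (ls ⟨i, hi⟩) (D \ D')).filter (fun q => q.1 ≠ root h ∧ q.1.val < 2 ^ h) else ∅ := ⟨_, rfl⟩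
  have hQd : ∀ i j, i ≠ j → Disjoint (Q i) (Q j) := by
    intro i j hij
    rw [hQ]
    simp only
    split_ifs with hi hj
    · rw [disjoint_left]
      intro q h1 h2
      rw [mem_filter, mem_gr] at h1 h2
      refine hdiff ⟨i, hi⟩ ⟨j, hj⟩ (by simpa using hij) q.1 h1.1.1 ?_
      rw [← h1.1.2, ← h2.1.2]
    all_goals simp
  have hQc : ∀ i, (Q i).card ≤ K := by
    intro i
    rw [hQ]
    simp only
    split_ifs with hi
    · refine (card_filter_le _ _).trans ?_
      rw [gr_card]
      exact (card_le_card sdiff_subset).trans hK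
    · simp
  have hcov : S ⊆ D.powerset.biUnion (fun A => univ.filter (fun χ : Nd h × Lab → Bool =>
      ∀ i < p, ∃ q ∈ Q i, χ q ≠ (fun q : Nd h × Lab => decide (q.1 ∈ A)) q)) := by
    intro χ hχ
    obtain ⟨⟨z, hz, hzP⟩, hno⟩ := hS χ hχ
    obtain ⟨z', hz', hzz⟩ := hres z hz
    rw [mem_biUnion]
    refine ⟨D.filter (fun v => z' v = true), by simp, ?_⟩
    rw [mem_filter]
    refine ⟨mem_univ _, fun i hi => ?_⟩
    by_contra hcon
    push Not at hcon
    apply hno ⟨i, hi⟩
    refine ⟨z', hz', ?_⟩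
    intro q hq
    rw [mem_gr] at hq
    by_cases hqD : q.1 ∈ D'
    · rw [hzz _ hqD]
      refine hzP q ?_
      rw [mem_gr]
      exact ⟨hqD, by rw [hq.2]; exact hagree _ _ _ hqD⟩
    · refine eff_eq hz' ?_
      intro h1 h2
      have h3 := hcon q (by
        rw [hQ]
        simp only [hi, dif_pos]
        rw [mem_filter, mem_gr, mem_sdiff]
        exact ⟨⟨⟨hq.1, hqD⟩, hq.2⟩, h1, h2⟩)
      have h4 : χ q = decide (q.1 ∈ D.filter (fun v => z' v = true)) := h3
      rw [show (q.1, q.2) = q from rfl, h4]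
      simp [hq.1]
  have h1 : S.card ≤ ∑ A ∈ D.powerset, (univ.filter (fun χ : Nd h × Lab → Bool =>
      ∀ i < p, ∃ q ∈ Q i, χ q ≠ (fun q : Nd h × Lab => decide (q.1 ∈ A)) q)).card :=
    (card_le_card hcov).trans card_biUnion_le
  calc S.card * (2 ^ K) ^ p
      ≤ (∑ A ∈ D.powerset, (univ.filter (fun χ : Nd h × Lab → Bool =>
        ∀ i < p, ∃ q ∈ Q i, χ q ≠ (fun q : Nd h × Lab => decide (q.1 ∈ A)) q)).card) *
        (2 ^ K) ^ p := Nat.mul_le_mul_right _ h1
    _ = ∑ A ∈ D.powerset, (univ.filter (fun χ : Nd h × Lab → Bool =>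
        ∀ i < p, ∃ q ∈ Q i, χ q ≠ (fun q : Nd h × Lab => decide (q.1 ∈ A)) q)).card *
        (2 ^ K) ^ p := sum_mul _ _ _
    _ ≤ ∑ _A ∈ D.powerset, (2 ^ K - 1) ^ p * 2 ^ Fintype.card (Nd h × Lab) :=
        sum_le_sum fun A _ => indep K _ Q hQd hQc p
    _ = 2 ^ D.card * ((2 ^ K - 1) ^ p * 2 ^ Fintype.card (Nd h × Lab)) := by
        rw [sum_const, card_powerset, smul_eq_mul]
    _ ≤ 2 ^ K * ((2 ^ K - 1) ^ p * 2 ^ Fintype.card (Nd h × Lab)) :=
        Nat.mul_le_mul_right _ (Nat.pow_le_pow_right (by norm_num) hK)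

variable (N : Net (Var h Lab)) (k w p : ℕ)

/-- the vertex of a state -/
def vt : Option N.E → N.V
  | none => N.s
  | some e => N.dst e

/-- states with configurations -/
abbrev Cf := Option N.E × Finset (Nd h × Lab) × Finset (Nd h)

/-- the rules which produce configurations -/
inductive Rule (S : Set (Cf N)) : Cf N → Prop
  | base : Rule S (none, ∅, ∅)
  | step (o : Option N.E) (P α) (e : N.E) (l : Nd h → Lab) (T : Finset (Nd h)) :
      (o, P, α) ∈ S → P.card ≤ k → N.src e = vt N o → T ⊆ inner h → T.card ≤ w →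
      P ⊆ gr l univ → N.guard e (trip l '' (T : Set (Nd h))) →
      Rule S (some e, P ∪ gr l (T.biUnion tri), α ∪ T)
  | pluck (o : Option N.E) (D D' : Finset (Nd h)) (ls : Fin p → Nd h → Lab)
      (α β : Finset (Nd h)) (i0 : Fin p) : D' ⊆ D → (∀ i, (o, gr (ls i) D, α) ∈ S) →
      (∀ i j, ∀ v ∈ D', ls i v = ls j v) → (∀ i j, i ≠ j → ∀ v ∈ D \ D', ls i v ≠ ls j v) →
      β ⊆ α → Cr β D' → (∀ z, Col z β → ∃ z', Col z' α ∧ ∀ v ∈ D', z' v = z v) →
      Rule S (o, gr (ls i0) D', β)

/-- invariant of configurations -/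
def Inv (K t : ℕ) (x : Cf N) : Prop :=
  x.2.1.card ≤ K ∧ x.2.2 ⊆ inner h ∧ Cr x.2.2 (x.2.1.image Prod.fst) ∧ x.2.2.card < t

theorem inv_of_rule {K t : ℕ} (hK : k + 3 * w ≤ K) (ht : 0 < t)
    (hiso : ∀ α D : Finset (Nd h), α ⊆ inner h → Cr α D → α.card = t → K < D.card)
    (S : Set (Cf N)) (hS : ∀ x ∈ S, Inv N K t x) (x : Cf N) (hx : Rule N k w p S x) :
    Inv N K t x := by
  classical
  cases hx with
  | base => exact ⟨by simp, by simp, by simpa using Cr_empty _, by simpa using ht⟩
  | step o P α e l T hmem hPk hsrc hT hTw hPl hg =>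
    obtain ⟨h1, h2, h3, h4⟩ := hS _ hmem
    simp only at h1 h2 h3 h4
    have hcard : (P ∪ gr l (T.biUnion tri)).card ≤ K := by
      refine (card_union_le _ _).trans ?_
      rw [gr_card]
      have h5 : (T.biUnion tri).card ≤ T.card * 3 :=
        card_biUnion_le_card_mul _ _ _ fun v hv => (card_tri (hT hv)).le
      omega
    have hfst : (P ∪ gr l (T.biUnion tri)).image Prod.fst =
        P.image Prod.fst ∪ T.biUnion tri := by rw [image_union, gr_fst]
    have key : ∀ α' : Finset (Nd h), α ⊆ α' → α' ⊆ α ∪ T →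
        Cr α' ((P ∪ gr l (T.biUnion tri)).image Prod.fst) := by
      intro α' h5 h6
      rw [hfst]
      refine Cr_step h3 hT h5 h6 subset_union_left ?_ ?_ ?_
      · intro v hv
        exact mem_union_right _ (mem_biUnion.2 ⟨v, hv, by simp [tri]⟩)
      · intro v hv
        exact mem_union_right _ (mem_biUnion.2 ⟨v, hv, by simp [tri]⟩)
      · intro v hv
        exact mem_union_right _ (mem_biUnion.2 ⟨v, hv, by simp [tri]⟩)
    refine ⟨hcard, union_subset h2 hT, key _ subset_union_left (Subset.refl _), ?_⟩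
    simp only
    by_contra hcon
    rw [not_lt] at hcon
    obtain ⟨α', h5, h6, h7⟩ := exists_subsuperset_card_eq
      (subset_union_left (s₁ := α) (s₂ := T)) h4.le hcon
    have h8 := hiso α' _ (h6.trans (union_subset h2 hT)) (key α' h5 h6) h7
    have h9 : ((P ∪ gr l (T.biUnion tri)).image Prod.fst).card ≤ K := card_image_le.trans hcard
    omega
  | pluck o D D' ls α β i0 hDD hmem _ _ hβ hCr _ =>
    obtain ⟨h1, h2, h3, h4⟩ := hS _ (hmem i0)
    simp only at h1 h2 h3 h4
    refine ⟨?_, hβ.trans h2, ?_, lt_of_le_of_lt (card_le_card hβ) h4⟩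
    · rw [gr_card] at h1 ⊢
      exact (card_le_card hDD).trans h1
    · simp only [gr_fst]; exact hCr

/-- the derivable sets of configurations -/
inductive Chain [DecidableEq (Cf N)] : Finset (Cf N) → Prop
  | nil : Chain ∅
  | cons (S : Finset (Cf N)) (x : Cf N) : Chain S → Rule N k w p (S : Set (Cf N)) x →
      Chain (insert x S)

/-- the guards are monotone -/
def Net.Mono {X : Type} (N : Net X) : Prop :=
  ∀ e (x y : Set X), x ⊆ y → N.guard e x → N.guard e y

/-- the guard depends only on `I` -/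
def DepOn {X : Type} (g : Set X → Prop) (I : Finset X) : Prop :=
  ∀ x y : Set X, x ∩ I = y ∩ I → (g x ↔ g y)

open Classical in
/-- the colourings for which some configuration is accepted by mistake -/
noncomputable def Err (S : Finset (Cf N)) : Finset (Nd h × Lab → Bool) :=
  univ.filter (fun χ => ∃ x ∈ S, AccC χ x.2.1 x.2.2 ∧ ¬ N.Reach (negT χ) (vt N x.1))

open Classical in
theorem chain_spec (hmono : N.Mono) {K t : ℕ} (hK : k + 3 * w ≤ K) (ht : 0 < t)
    (hiso : ∀ α D : Finset (Nd h), α ⊆ inner h → Cr α D → α.card = t → K < D.card)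
    (S : Finset (Cf N)) (hS : Chain N k w p S) :
    (∀ x ∈ S, Inv N K t x) ∧ (Err N S).card * (2 ^ K) ^ p ≤
      S.card * (2 ^ K * ((2 ^ K - 1) ^ p * 2 ^ Fintype.card (Nd h × Lab))) := by
  induction hS with
  | nil =>
    refine ⟨by simp, ?_⟩
    simp [Err]
  | cons S x hS hx ih =>
    obtain ⟨ih1, ih2⟩ := ih
    by_cases hxS : x ∈ S
    · rw [insert_eq_of_mem hxS]; exact ⟨ih1, ih2⟩
    have hinv : Inv N K t x := inv_of_rule N k w p hK ht hiso _ (fun y hy => ih1 y hy) x hx
    refine ⟨?_, ?_⟩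
    · intro y hy
      rcases mem_insert.1 hy with rfl | hy
      · exact hinv
      · exact ih1 y hy
    rw [card_insert_of_notMem hxS]
    obtain ⟨W, hW⟩ : ∃ W, W = 2 ^ K * ((2 ^ K - 1) ^ p * 2 ^ Fintype.card (Nd h × Lab)) := ⟨_, rfl⟩
    rw [← hW] at ih2 ⊢
    suffices hnew : (Err N (insert x S) \ Err N S).card * (2 ^ K) ^ p ≤ W by
      have h1 : (Err N (insert x S)).card ≤ (Err N (insert x S) \ Err N S).card + (Err N S).card := by
        rw [← card_sdiff_add_card_inter (Err N (insert x S)) (Err N S)]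
        have := card_le_card (inter_subset_right (s₁ := Err N (insert x S)) (s₂ := Err N S))
        omega
      calc (Err N (insert x S)).card * (2 ^ K) ^ p
          ≤ ((Err N (insert x S) \ Err N S).card + (Err N S).card) * (2 ^ K) ^ p :=
            Nat.mul_le_mul_right _ h1
        _ = (Err N (insert x S) \ Err N S).card * (2 ^ K) ^ p + (Err N S).card * (2 ^ K) ^ p := by ring
        _ ≤ W + S.card * W := Nat.add_le_add hnew ih2
        _ = (S.card + 1) * W := by ring
    have hsplit : ∀ χ ∈ Err N (insert x S) \ Err N S,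
        AccC χ x.2.1 x.2.2 ∧ ¬ N.Reach (negT χ) (vt N x.1) ∧
        ∀ y ∈ S, AccC χ y.2.1 y.2.2 → N.Reach (negT χ) (vt N y.1) := by
      intro χ hχ
      rw [mem_sdiff] at hχ
      obtain ⟨h1, h2⟩ := hχ
      unfold Err at h1 h2
      rw [mem_filter] at h1 h2
      obtain ⟨_, y, hy, h3, h4⟩ := h1
      push Not at h2
      rcases mem_insert.1 hy with rfl | hy
      · exact ⟨h3, h4, fun y hy h5 => h2 (mem_univ _) y hy h5⟩
      · exact absurd (h2 (mem_univ _) y hy h3) h4
    cases hx with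
    | base =>
      have : Err N (insert (none, ∅, ∅) S) \ Err N S = ∅ := by
        rw [eq_empty_iff_forall_notMem]
        intro χ hχ
        exact (hsplit χ hχ).2.1 Relation.ReflTransGen.refl
      rw [this]; simp
    | step o P α e l T hmem hPk hsrc hT hTw hPl hg =>
      have : Err N (insert (some e, P ∪ gr l (T.biUnion tri), α ∪ T) S) \ Err N S = ∅ := by
        rw [eq_empty_iff_forall_notMem]
        intro χ hχ
        obtain ⟨⟨z, hz, hzP⟩, h2, h3⟩ := hsplit χ hχ
        simp only at hz hzP h2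
        have h4 : N.Reach (negT χ) (vt N o) := by
          refine h3 _ (mem_coe.1 hmem) ⟨z, ⟨hz.1, hz.2.1, fun v hv => hz.2.2 v (mem_union_left _ hv)⟩,
            fun q hq => hzP q (mem_union_left _ hq)⟩
        apply h2
        refine h4.tail ⟨e, hsrc, rfl, ?_⟩
        refine hmono e _ _ ?_ hg
        rintro q ⟨v, hv, rfl⟩
        have hvT : v ∈ T := hv
        have hlab : ∀ u ∈ tri v, z u = eff χ u (l u) := by
          intro u hu
          exact hzP (u, l u) (mem_union_right _ (mem_gr.2 ⟨mem_biUnion.2 ⟨v, hvT, hu⟩, rfl⟩))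
        have e1 := hlab v (by simp [tri])
        have e2 := hlab (lc v) (by simp [tri])
        have e3 := hlab (rc v) (by simp [tri])
        refine ⟨hT hvT, ?_⟩
        show eff χ v (l v) = true → eff χ (lc v) (l (lc v)) = true ∨ eff χ (rc v) (l (rc v)) = true
        rw [← e1, ← e2, ← e3]
        exact hz.2.2 v (mem_union_right _ hvT)
      rw [this]; simp
    | pluck o D D' ls α β i0 hDD hmem hag hdf hβ hCr hres =>
      rw [hW]
      have h1 : D.card ≤ K := by
        have := (ih1 _ (mem_coe.1 (hmem i0))).1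
        simpa [gr_card] using this
      refine pluck_err p K D D' h1 ls hdf α β i0 hDD hag hres _ ?_
      intro χ hχ
      obtain ⟨h2, h3, h4⟩ := hsplit χ hχ
      refine ⟨h2, fun i hacc => h3 ?_⟩
      exact h4 (o, gr (ls i) D, α) (mem_coe.1 (hmem i)) hacc

end core

end Pool.Agent.T9h47.MN
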