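import Mathlib
import Pool.Agent.T9h47.MN.Core

/-!
# Monotone networks for the tree problem: conclusion
-/

set_option autoImplicit false

namespace Pool.Agent.T9h47.MN

open Finset

variable {h : ℕ} {Lab : Type} [Fintype Lab] [DecidableEq Lab]

section count

/-- Number of small sets. -/
theorem card_small {X : Type} [Fintype X] [DecidableEq X] (K : ℕ) (F : Finset (Finset X))
    (hF : ∀ P ∈ F, P.card ≤ K) : F.card ≤ (Fintype.card X + 1) ^ K := by
  classical
  have h1 : F.card ≤ (univ : Finset (Fin K → Option X)).card := by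
    have hsurj : ∀ P ∈ F, ∃ f : Fin K → Option X, (univ.filter (fun x => ∃ i, f i = some x)) = P := by
      intro P hP
      have hc := hF P hP
      refine ⟨fun i => if hi : i.val < P.card then some (P.equivFin.symm ⟨i.val, hi⟩).1 else none, ?_⟩
      ext x
      simp only [mem_filter, mem_univ, true_and]
      constructor
      · rintro ⟨i, hi⟩
        split_ifs at hi with h2
        rw [Option.some.injEq] at hi
        rw [← hi]
        exact (P.equivFin.symm ⟨i.val, h2⟩).2
      · intro hx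
        have h3 := (P.equivFin ⟨x, hx⟩).2
        refine ⟨⟨(P.equivFin ⟨x, hx⟩).val, by omega⟩, ?_⟩
        simp
    choose! f hf using hsurj
    refine card_le_card_of_injOn f (fun _ _ => by simp) ?_
    intro P hP Q hQ hPQ
    rw [← hf P hP, hPQ, hf Q hQ]
  refine h1.trans ?_
  rw [card_univ, Fintype.card_fun, Fintype.card_option, Fintype.card_fin]

end count

variable (N : Net (Var h Lab)) (k w p : ℕ)

open Classical in
theorem exists_closed [Fintype N.E] : ∃ S : Finset (Cf N), Chain N k w p S ∧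
    ∀ x, Rule N k w p (S : Set (Cf N)) x → x ∈ S := by
  obtain ⟨S, hS1, hS2⟩ := exists_max_image (univ.filter (fun S : Finset (Cf N) => Chain N k w p S))
    card ⟨∅, by simp [Chain.nil]⟩
  rw [mem_filter] at hS1
  refine ⟨S, hS1.2, fun x hx => ?_⟩
  by_contra hcon
  have h1 := hS2 (insert x S) (by simpa using Chain.cons S x hS1.2 hx)
  rw [card_insert_of_notMem hcon] at h1
  omega

open Classical in
theorem card_closed [Fintype N.E] {K t : ℕ} (S : Finset (Cf N)) (hS : ∀ x ∈ S, Inv N K t x) :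
    S.card ≤ (Fintype.card N.E + 1) *
      ((Fintype.card (Nd h × Lab) + 1) ^ K * 2 ^ (K + 1)) := by
  have h1 : S.card ≤ ∑ oP ∈ S.image (fun x => (x.1, x.2.1)),
      (S.filter (fun x => (x.1, x.2.1) = oP)).card := by
    rw [← card_eq_sum_card_image]
  have h2 : ∀ oP ∈ S.image (fun x => (x.1, x.2.1)),
      (S.filter (fun x => (x.1, x.2.1) = oP)).card ≤ 2 ^ (K + 1) := by
    intro oP hoP
    have h3 : (S.filter (fun x => (x.1, x.2.1) = oP)).card =
        ((S.filter (fun x => (x.1, x.2.1) = oP)).image (fun x => x.2.2)).card := by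
      rw [card_image_of_injOn]
      intro x hx y hy hxy
      rw [mem_coe, mem_filter] at hx hy
      have h4 := hx.2.trans hy.2.symm
      rw [Prod.mk.injEq] at h4
      exact Prod.ext h4.1 (Prod.ext h4.2 hxy)
    rw [h3]
    rw [mem_image] at hoP
    obtain ⟨x0, hx0, rfl⟩ := hoP
    refine (card_Cr (x0.2.1.image Prod.fst) _ ?_).trans ?_
    · intro α hα
      rw [mem_image] at hα
      obtain ⟨x, hx, rfl⟩ := hα
      rw [mem_filter] at hx
      obtain ⟨_, h5, h6, _⟩ := hS x hx.1
      have h7 := hx.2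
      rw [Prod.mk.injEq] at h7
      rw [h7.2] at h6
      exact ⟨h5, h6⟩
    · refine Nat.pow_le_pow_right (by norm_num) ?_
      have := (hS x0 hx0).1
      have := card_image_le (s := x0.2.1) (f := Prod.fst)
      omega
  have h4 : (S.image (fun x => (x.1, x.2.1))).card ≤
      (Fintype.card N.E + 1) * (Fintype.card (Nd h × Lab) + 1) ^ K := by
    have h5 : S.image (fun x => (x.1, x.2.1)) ⊆
        (univ : Finset (Option N.E)) ×ˢ (S.image (fun x => x.2.1)) := by
      intro y hy
      rw [mem_image] at hy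
      obtain ⟨x, hx, rfl⟩ := hy
      exact mem_product.2 ⟨mem_univ _, mem_image.2 ⟨x, hx, rfl⟩⟩
    refine (card_le_card h5).trans ?_
    rw [card_product, card_univ, Fintype.card_option]
    refine Nat.mul_le_mul_left _ (card_small K _ ?_)
    intro P hP
    rw [mem_image] at hP
    obtain ⟨x, hx, rfl⟩ := hP
    exact (hS x hx).1
  calc S.card ≤ ∑ oP ∈ S.image (fun x => (x.1, x.2.1)),
        (S.filter (fun x => (x.1, x.2.1) = oP)).card := h1
    _ ≤ ∑ _oP ∈ S.image (fun x => (x.1, x.2.1)), 2 ^ (K + 1) := sum_le_sum h2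
    _ = (S.image (fun x => (x.1, x.2.1))).card * 2 ^ (K + 1) := by rw [sum_const, smul_eq_mul]
    _ ≤ (Fintype.card N.E + 1) * (Fintype.card (Nd h × Lab) + 1) ^ K * 2 ^ (K + 1) :=
        Nat.mul_le_mul_right _ h4
    _ = _ := by ring

open Classical in
/-- No configuration at the end vertex. -/
theorem no_sink [Fintype N.E] (hmono : N.Mono) {K t : ℕ} (hK : k + 3 * w ≤ K) (ht : 0 < t)
    (ht2 : t < (inner h).card)
    (hiso : ∀ α D : Finset (Nd h), α ⊆ inner h → Cr α D → α.card = t → K < D.card)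
    (hneg : ∀ χ, ¬ N.Reach (negT χ) N.t)
    (S : Finset (Cf N)) (hS : Chain N k w p S)
    (hC1 : (Fintype.card N.E + 1) * ((Fintype.card (Nd h × Lab) + 1) ^ K * 2 ^ (K + 1)) *
      (4 ^ K * (2 ^ K - 1) ^ p) < (2 ^ K) ^ p) :
    ∀ x ∈ S, vt N x.1 ≠ N.t := by
  intro x hx hxt
  obtain ⟨hinv, herr⟩ := chain_spec N k w p hmono hK ht hiso S hS
  obtain ⟨h1, h2, h3, h4⟩ := hinv x hx
  obtain ⟨z, hz⟩ := exists_col h2 (by
    intro heq; rw [heq] at h4; omega)
  have h5 := card_inv x.2.1 (fun q => z q.1) (univ : Finset (Nd h × Lab → Bool))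
    (fun _ _ _ _ => mem_univ _)
  have h6 : (univ.filter (fun χ : Nd h × Lab → Bool => ∀ q ∈ x.2.1, χ q = z q.1)) ⊆ Err N S := by
    intro χ hχ
    rw [mem_filter] at hχ
    unfold Err
    rw [mem_filter]
    refine ⟨mem_univ _, x, hx, ⟨z, hz, ?_⟩, ?_⟩
    · intro q hq
      exact eff_eq hz (fun _ _ => hχ.2 q hq)
    · rw [hxt]; exact hneg χ
  have h7 : 2 ^ Fintype.card (Nd h × Lab) ≤ (Err N S).card * 2 ^ K := by
    calc 2 ^ Fintype.card (Nd h × Lab) = (univ : Finset (Nd h × Lab → Bool)).card := by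
          rw [card_univ, Fintype.card_fun, Fintype.card_bool]
      _ ≤ _ := h5
      _ ≤ (Err N S).card * 2 ^ K :=
          Nat.mul_le_mul (card_le_card h6) (Nat.pow_le_pow_right (by norm_num) h1)
  have h8 := card_closed N S hinv
  obtain ⟨B, hB⟩ : ∃ B, B = 2 ^ Fintype.card (Nd h × Lab) := ⟨_, rfl⟩
  have hBpos : 0 < B := by rw [hB]; positivity
  rw [← hB] at h7 herr
  obtain ⟨T, hT⟩ : ∃ T, T = (Fintype.card N.E + 1) *
    ((Fintype.card (Nd h × Lab) + 1) ^ K * 2 ^ (K + 1)) := ⟨_, rfl⟩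
  rw [← hT] at h8 hC1
  have h9 : B * (2 ^ K) ^ p ≤ B * (T * (4 ^ K * (2 ^ K - 1) ^ p)) := by
    calc B * (2 ^ K) ^ p ≤ ((Err N S).card * 2 ^ K) * (2 ^ K) ^ p := Nat.mul_le_mul_right _ h7
      _ = ((Err N S).card * (2 ^ K) ^ p) * 2 ^ K := by ring
      _ ≤ (S.card * (2 ^ K * ((2 ^ K - 1) ^ p * B))) * 2 ^ K := Nat.mul_le_mul_right _ herr
      _ ≤ (T * (2 ^ K * ((2 ^ K - 1) ^ p * B))) * 2 ^ K :=
          Nat.mul_le_mul_right _ (Nat.mul_le_mul_right _ h8)
      _ = B * (T * (4 ^ K * (2 ^ K - 1) ^ p)) := by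
          rw [show (4 : ℕ) = 2 * 2 by norm_num, mul_pow]; ring
  have h10 := Nat.le_of_mul_le_mul_left h9 hBpos
  omega

/-! ### Lost labelings -/

open Classical in
/-- labelings which contain a configuration of the state, but no small one -/
noncomputable def Lost (S : Finset (Cf N)) (o : Option N.E) : Finset (Nd h → Lab) :=
  univ.filter (fun l => (∃ P α, (o, P, α) ∈ S ∧ P ⊆ gr l univ) ∧
    ¬ ∃ P α, (o, P, α) ∈ S ∧ P ⊆ gr l univ ∧ P.card ≤ k)

open Classical in
/-- labelings for which `D`, `α` is a minimal configuration -/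
noncomputable def MinL (S : Finset (Cf N)) (o : Option N.E) (D α : Finset (Nd h)) :
    Finset (Nd h → Lab) :=
  univ.filter (fun l => (o, gr l D, α) ∈ S ∧ ∀ D' β, D' ⊆ D → D' ≠ D → (o, gr l D', β) ∉ S)

open Classical in
theorem card_MinL (hp : 1 ≤ p) (S : Finset (Cf N)) {K t : ℕ} (hinv : ∀ x ∈ S, Inv N K t x)
    (hcl : ∀ x, Rule N k w p (S : Set (Cf N)) x → x ∈ S) (o : Option N.E) (D α : Finset (Nd h)) :
    (MinL N S o D α).card * Fintype.card Lab ^ D.card ≤
      (D.card * p) ^ D.card * Fintype.card Lab ^ Fintype.card (Nd h) := by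
  have h1 := sun p hp D.card D ∅ (MinL N S o D α) (by simp) rfl (by simp) ?_
  · simpa using h1
  · rintro D' hD' hne ⟨s, hs1, hs2, hs3⟩
    have h2 : ∀ i, (o, gr (s i) D, α) ∈ S := by
      intro i
      have := hs1 i
      unfold MinL at this
      rw [mem_filter] at this
      exact this.2.1
    obtain ⟨β, hβ1, hβ2, hβ3⟩ := restrict α (D \ D') (hinv _ (h2 ⟨0, hp⟩)).2.1
    have h3 := hcl _ (Rule.pluck (S := (S : Set (Cf N))) (k := k) (w := w) (p := p) o D (D \ D') s α β
      ⟨0, hp⟩ sdiff_subset (fun i => mem_coe.2 (h2 i)) hs2 (by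
        intro i j hij v hv
        rw [Finset.sdiff_sdiff_eq_self hD'] at hv
        exact hs3 i j hij v hv) hβ1 hβ2 hβ3)
    have h4 := hs1 ⟨0, hp⟩
    unfold MinL at h4
    rw [mem_filter] at h4
    refine h4.2.2 (D \ D') β sdiff_subset ?_ h3
    intro h5
    obtain ⟨v, hv⟩ := hne
    have h6 : v ∈ D \ D' := by rw [h5]; exact hD' hv
    exact (mem_sdiff.1 h6).2 hv

open Classical in
theorem Lost_subset (S : Finset (Cf N)) {K t : ℕ} (hinv : ∀ x ∈ S, Inv N K t x)
    (o : Option N.E) : Lost N k S o ⊆ ((univ : Finset (Finset (Nd h))).filter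
      (fun D => k < D.card ∧ D.card ≤ K)).biUnion (fun D =>
        ((univ : Finset (Finset (Nd h))).filter (fun α => α ⊆ inner h ∧ Cr α D)).biUnion
          (fun α => MinL N S o D α)) := by
  intro l hl
  unfold Lost at hl
  rw [mem_filter] at hl
  obtain ⟨_, ⟨P0, α0, h1, h2⟩, h3⟩ := hl
  -- a minimal domain
  obtain ⟨D, hD1, hD2⟩ := exists_min_image ((univ : Finset (Finset (Nd h))).filter
    (fun D => ∃ α, (o, gr l D, α) ∈ S)) card ⟨P0.image Prod.fst, by
      rw [mem_filter]; exact ⟨mem_univ _, α0, by rw [← eq_gr h2]; exact h1⟩⟩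
  rw [mem_filter] at hD1
  obtain ⟨_, α, hα⟩ := hD1
  have hi := hinv _ hα
  have hcardK : D.card ≤ K := by simpa [gr_card] using hi.1
  have hcr : Cr α D := by simpa [gr_fst] using hi.2.2.1
  have hk : k < D.card := by
    by_contra hcon
    rw [not_lt] at hcon
    refine h3 ⟨gr l D, α, hα, ?_, by rwa [gr_card]⟩
    intro q hq
    rw [mem_gr] at hq ⊢
    exact ⟨mem_univ _, hq.2⟩
  rw [mem_biUnion]
  refine ⟨D, by simp [hk, hcardK], ?_⟩
  rw [mem_biUnion]
  refine ⟨α, by simp [hi.2.1, hcr], ?_⟩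
  unfold MinL
  rw [mem_filter]
  refine ⟨mem_univ _, hα, ?_⟩
  intro D' β hD' hne hmem
  have h4 := hD2 D' (by rw [mem_filter]; exact ⟨mem_univ _, β, hmem⟩)
  have h5 := card_lt_card (ssubset_of_subset_of_ne hD' hne)
  omega

open Classical in
theorem card_Lost (hp : 1 ≤ p) (S : Finset (Cf N)) {K t : ℕ} (hinv : ∀ x ∈ S, Inv N K t x)
    (hcl : ∀ x, Rule N k w p (S : Set (Cf N)) x → x ∈ S) (o : Option N.E)
    (hN : 0 < Fintype.card Lab)
    (hβ : (2 * Fintype.card (Nd h) * K * p : ℝ) / Fintype.card Lab ≤ 1) :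
    ((Lost N k S o).card : ℝ) ≤ 2 * K *
      ((2 * Fintype.card (Nd h) * K * p : ℝ) / Fintype.card Lab) ^ (k + 1) *
      (Fintype.card Lab : ℝ) ^ Fintype.card (Nd h) := by
  obtain ⟨L, hL⟩ : ∃ L : ℝ, L = Fintype.card Lab := ⟨_, rfl⟩
  obtain ⟨n, hn⟩ : ∃ n, n = Fintype.card (Nd h) := ⟨_, rfl⟩
  obtain ⟨b, hb⟩ : ∃ b : ℝ, b = (2 * Fintype.card (Nd h) * K * p : ℝ) / Fintype.card Lab := ⟨_, rfl⟩
  have hLpos : 0 < L := by rw [hL]; exact_mod_cast hN
  have hb0 : 0 ≤ b := by rw [hb]; positivity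
  rw [← hb] at hβ ⊢
  rw [← hL, ← hn]
  have h1 : ((Lost N k S o).card : ℝ) ≤ ∑ D ∈ (univ : Finset (Finset (Nd h))).filter
      (fun D => k < D.card ∧ D.card ≤ K), (2 : ℝ) ^ (D.card + 1) * ((K * p / L) ^ D.card * L ^ n) := by
    have h2 : ((Lost N k S o).card : ℝ) ≤ ∑ D ∈ (univ : Finset (Finset (Nd h))).filter
        (fun D => k < D.card ∧ D.card ≤ K), ((((univ : Finset (Finset (Nd h))).filter
          (fun α => α ⊆ inner h ∧ Cr α D)).biUnion (fun α => MinL N S o D α)).card : ℝ) := by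
      exact_mod_cast (card_le_card (Lost_subset N k S hinv o)).trans card_biUnion_le
    refine h2.trans (sum_le_sum fun D hD => ?_)
    rw [mem_filter] at hD
    have h3 : ((((univ : Finset (Finset (Nd h))).filter
        (fun α => α ⊆ inner h ∧ Cr α D)).biUnion (fun α => MinL N S o D α)).card : ℝ) ≤
        ∑ α ∈ (univ : Finset (Finset (Nd h))).filter (fun α => α ⊆ inner h ∧ Cr α D),
          ((MinL N S o D α).card : ℝ) := by
      exact_mod_cast card_biUnion_le
    have h4 : ∀ α, ((MinL N S o D α).card : ℝ) ≤ (K * p / L) ^ D.card * L ^ n := by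
      intro α
      have h5 := card_MinL N k w p hp S hinv hcl o D α
      have h6 : ((MinL N S o D α).card : ℝ) * L ^ D.card ≤ (K * p) ^ D.card * L ^ n := by
        have h7 : ((MinL N S o D α).card : ℝ) * L ^ D.card ≤ (D.card * p) ^ D.card * L ^ n := by
          rw [hL, hn]; exact_mod_cast h5
        refine h7.trans ?_
        have h8 : ((D.card : ℝ) * p) ^ D.card ≤ (K * p) ^ D.card := by
          refine pow_le_pow_left₀ (by positivity) ?_ _
          have : (D.card : ℝ) ≤ K := by exact_mod_cast hD.2.2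
          exact mul_le_mul_of_nonneg_right this (by positivity)
        exact mul_le_mul_of_nonneg_right h8 (by positivity)
      rw [div_pow, div_mul_eq_mul_div, le_div_iff₀ (by positivity)]
      exact h6
    refine h3.trans ?_
    calc ∑ α ∈ (univ : Finset (Finset (Nd h))).filter (fun α => α ⊆ inner h ∧ Cr α D),
          ((MinL N S o D α).card : ℝ)
        ≤ ∑ _α ∈ (univ : Finset (Finset (Nd h))).filter (fun α => α ⊆ inner h ∧ Cr α D),
          (K * p / L) ^ D.card * L ^ n := sum_le_sum fun α _ => h4 α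
      _ = (((univ : Finset (Finset (Nd h))).filter
          (fun α => α ⊆ inner h ∧ Cr α D)).card : ℝ) * ((K * p / L) ^ D.card * L ^ n) := by
          rw [sum_const, nsmul_eq_mul]
      _ ≤ (2 : ℝ) ^ (D.card + 1) * ((K * p / L) ^ D.card * L ^ n) := by
          refine mul_le_mul_of_nonneg_right ?_ (by positivity)
          have := card_Cr D ((univ : Finset (Finset (Nd h))).filter
            (fun α => α ⊆ inner h ∧ Cr α D)) (fun α hα => (mem_filter.1 hα).2)
          exact_mod_cast this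
  -- group by cardinality
  have h2 : ∑ D ∈ (univ : Finset (Finset (Nd h))).filter (fun D => k < D.card ∧ D.card ≤ K),
      (2 : ℝ) ^ (D.card + 1) * ((K * p / L) ^ D.card * L ^ n) =
      ∑ j ∈ Ioc k K, ((n.choose j : ℕ) : ℝ) * ((2 : ℝ) ^ (j + 1) * ((K * p / L) ^ j * L ^ n)) := by
    rw [← sum_fiberwise_of_maps_to (s := (univ : Finset (Finset (Nd h))).filter
      (fun D => k < D.card ∧ D.card ≤ K)) (t := Ioc k K) (g := card)
      (by intro D hD; rw [mem_filter] at hD; rw [mem_Ioc]; exact hD.2)]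
    refine sum_congr rfl fun j hj => ?_
    rw [mem_Ioc] at hj
    have h3 : ((univ : Finset (Finset (Nd h))).filter (fun D => k < D.card ∧ D.card ≤ K)).filter
        (fun D => D.card = j) = powersetCard j univ := by
      ext D
      simp only [mem_filter, mem_univ, true_and, mem_powersetCard, subset_univ]
      constructor
      · exact fun h => h.2
      · intro h; exact ⟨by omega, h⟩
    rw [h3, sum_congr rfl (g := fun _ => (2 : ℝ) ^ (j + 1) * ((K * p / L) ^ j * L ^ n)) (by
      intro D hD; rw [mem_powersetCard] at hD; rw [hD.2]), sum_const, card_powersetCard,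
      card_univ, nsmul_eq_mul, ← hn]
  rw [h2] at h1
  refine h1.trans ?_
  have h3 : ∀ j ∈ Ioc k K, ((n.choose j : ℕ) : ℝ) * ((2 : ℝ) ^ (j + 1) * ((K * p / L) ^ j * L ^ n)) ≤
      2 * b ^ (k + 1) * L ^ n := by
    intro j hj
    rw [mem_Ioc] at hj
    have h4 : ((n.choose j : ℕ) : ℝ) ≤ (n : ℝ) ^ j := by exact_mod_cast Nat.choose_le_pow n j
    have h5 : b ^ j ≤ b ^ (k + 1) := pow_le_pow_of_le_one hb0 hβ (by omega)
    have h6 : b ^ j = (n : ℝ) ^ j * 2 ^ j * (K * p / L) ^ j := by
      rw [hb, ← hn, ← hL, ← mul_pow, ← mul_pow]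
      congr 1
      ring
    calc ((n.choose j : ℕ) : ℝ) * ((2 : ℝ) ^ (j + 1) * ((K * p / L) ^ j * L ^ n))
        ≤ (n : ℝ) ^ j * ((2 : ℝ) ^ (j + 1) * ((K * p / L) ^ j * L ^ n)) :=
          mul_le_mul_of_nonneg_right h4 (by positivity)
      _ = 2 * b ^ j * L ^ n := by rw [h6, pow_succ]; ring
      _ ≤ 2 * b ^ (k + 1) * L ^ n := by gcongr
  calc ∑ j ∈ Ioc k K, ((n.choose j : ℕ) : ℝ) * ((2 : ℝ) ^ (j + 1) * ((K * p / L) ^ j * L ^ n))
      ≤ ∑ _j ∈ Ioc k K, 2 * b ^ (k + 1) * L ^ n := sum_le_sum h3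
    _ = ((K - k : ℕ) : ℝ) * (2 * b ^ (k + 1) * L ^ n) := by
        rw [sum_const, Nat.card_Ioc, nsmul_eq_mul]
    _ ≤ (K : ℝ) * (2 * b ^ (k + 1) * L ^ n) := by
        refine mul_le_mul_of_nonneg_right ?_ (by positivity)
        exact_mod_cast Nat.sub_le K k
    _ = 2 * K * b ^ (k + 1) * L ^ n := by ring

/-! ### Heavy labelings -/

/-- The labelings with more than `2 w` variables in `I` are few. -/
theorem card_heavy (I : Finset (Var h Lab)) (w : ℕ) :
    (univ.filter (fun l : Nd h → Lab => 2 * w < ((inner h).filter (fun v => trip l v ∈ I)).card)).card *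
      (Fintype.card Lab ^ 3) ^ w ≤ 2 * I.card ^ w * Fintype.card Lab ^ Fintype.card (Nd h) := by
  classical
  obtain ⟨F, hF⟩ : ∃ F : Bool → Finset (Var h Lab) → Finset (Nd h → Lab), F = fun _ Q =>
    univ.filter (fun l : Nd h → Lab => ∀ q ∈ Q, trip l q.1 = q) := ⟨_, rfl⟩
  obtain ⟨G, hG⟩ : ∃ G : Bool → Finset (Finset (Var h Lab)), G = fun b =>
    (I.powersetCard w).filter (fun Q => (∀ q ∈ Q, q.1 ∈ inner h ∧ dpar q.1 = b) ∧
      ∀ q ∈ Q, ∀ q' ∈ Q, q ≠ q' → q.1 ≠ q'.1) := ⟨_, rfl⟩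
  have hcov : (univ.filter (fun l : Nd h → Lab =>
      2 * w < ((inner h).filter (fun v => trip l v ∈ I)).card)) ⊆
      (univ : Finset Bool).biUnion (fun b => (G b).biUnion (fun Q => F b Q)) := by
    intro l hl
    rw [mem_filter] at hl
    obtain ⟨_, hl⟩ := hl
    obtain ⟨T, hT⟩ : ∃ T, T = (inner h).filter (fun v => trip l v ∈ I) := ⟨_, rfl⟩
    rw [← hT] at hl
    obtain ⟨b, hb⟩ : ∃ b, w ≤ (T.filter (fun v => dpar v = b)).card := by
      by_contra hcon
      push Not at hcon
      have h1 := hcon true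
      have h2 := hcon false
      have h3 : T.card = (T.filter (fun v => dpar v = true)).card +
          (T.filter (fun v => dpar v = false)).card := by
        rw [← card_filter_add_card_filter_not (s := T) (fun v => dpar v = true)]
        congr 2
        ext v; simp
      omega
    obtain ⟨A, hA1, hA2⟩ := exists_subset_card_eq hb
    have hAT : ∀ v ∈ A, v ∈ inner h ∧ trip l v ∈ I ∧ dpar v = b := by
      intro v hv
      have h1 := hA1 hv
      rw [mem_filter, hT, mem_filter] at h1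
      exact ⟨h1.1.1, h1.1.2, h1.2⟩
    rw [mem_biUnion]
    refine ⟨b, mem_univ _, ?_⟩
    rw [mem_biUnion]
    refine ⟨A.image (trip l), ?_, ?_⟩
    · rw [hG]
      simp only
      rw [mem_filter, mem_powersetCard]
      refine ⟨⟨?_, ?_⟩, ?_, ?_⟩
      · intro q hq
        rw [mem_image] at hq
        obtain ⟨v, hv, rfl⟩ := hq
        exact (hAT v hv).2.1
      · rw [card_image_of_injective, hA2]
        intro v v' hvv
        exact congrArg Prod.fst hvv
      · intro q hq
        rw [mem_image] at hq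
        obtain ⟨v, hv, rfl⟩ := hq
        exact ⟨(hAT v hv).1, (hAT v hv).2.2⟩
      · intro q hq q' hq' hne
        rw [mem_image] at hq hq'
        obtain ⟨v, hv, rfl⟩ := hq
        obtain ⟨v', hv', rfl⟩ := hq'
        intro h1
        apply hne
        have h2 : v = v' := h1
        rw [h2]
    · rw [hF]
      simp only
      rw [mem_filter]
      refine ⟨mem_univ _, ?_⟩
      intro q hq
      rw [mem_image] at hq
      obtain ⟨v, hv, rfl⟩ := hq
      rfl
  have hone : ∀ b, ∀ Q ∈ G b, (F b Q).card * (Fintype.card Lab ^ 3) ^ w ≤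
      Fintype.card Lab ^ Fintype.card (Nd h) := by
    intro b Q hQ
    rw [hG] at hQ
    simp only at hQ
    rw [mem_filter, mem_powersetCard] at hQ
    obtain ⟨⟨_, hQc⟩, hQ1, hQ2⟩ := hQ
    have h1 := card_agree (Q.biUnion (fun q => tri q.1)) (F b Q) (by
      intro f hf g hg v hv
      rw [hF] at hf hg
      simp only at hf hg
      rw [mem_filter] at hf hg
      rw [mem_biUnion] at hv
      obtain ⟨q, hq, hv⟩ := hv
      have h2 := hf.2 q hq
      have h3 := hg.2 q hq
      have h4 : trip f q.1 = trip g q.1 := h2.trans h3.symm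
      unfold trip at h4
      simp only [Prod.mk.injEq, true_and] at h4
      unfold tri at hv
      simp only [mem_insert, mem_singleton] at hv
      rcases hv with rfl | rfl | rfl
      · exact h4.2.2
      · exact h4.1
      · exact h4.2.1)
    have h2 : (Q.biUnion (fun q => tri q.1)).card = 3 * w := by
      rw [card_biUnion]
      · rw [sum_congr rfl (g := fun _ => 3) (fun q hq => card_tri (hQ1 q hq).1), sum_const, hQc,
          smul_eq_mul, mul_comm]
      · intro q hq q' hq' hne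
        exact disjoint_tri (hQ1 q hq).1 (hQ1 q' hq').1 (hQ2 q hq q' hq' hne)
          ((hQ1 q hq).2.trans (hQ1 q' hq').2.symm)
    rw [h2] at h1
    rw [← pow_mul]
    exact h1
  have hGc : ∀ b, (G b).card ≤ I.card ^ w := by
    intro b
    rw [hG]
    simp only
    refine (card_filter_le _ _).trans ?_
    rw [card_powersetCard]
    exact Nat.choose_le_pow _ _
  have h1 := (card_le_card hcov).trans card_biUnion_le
  calc (univ.filter (fun l : Nd h → Lab =>
        2 * w < ((inner h).filter (fun v => trip l v ∈ I)).card)).card * (Fintype.card Lab ^ 3) ^ w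
      ≤ (∑ b, ((G b).biUnion (fun Q => F b Q)).card) * (Fintype.card Lab ^ 3) ^ w :=
        Nat.mul_le_mul_right _ h1
    _ = ∑ b, ((G b).biUnion (fun Q => F b Q)).card * (Fintype.card Lab ^ 3) ^ w := sum_mul _ _ _
    _ ≤ ∑ _b : Bool, I.card ^ w * Fintype.card Lab ^ Fintype.card (Nd h) := by
        refine sum_le_sum fun b _ => ?_
        calc ((G b).biUnion (fun Q => F b Q)).card * (Fintype.card Lab ^ 3) ^ w
            ≤ (∑ Q ∈ G b, (F b Q).card) * (Fintype.card Lab ^ 3) ^ w :=
              Nat.mul_le_mul_right _ card_biUnion_le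
          _ = ∑ Q ∈ G b, (F b Q).card * (Fintype.card Lab ^ 3) ^ w := sum_mul _ _ _
          _ ≤ ∑ _Q ∈ G b, Fintype.card Lab ^ Fintype.card (Nd h) := sum_le_sum (hone b)
          _ = (G b).card * Fintype.card Lab ^ Fintype.card (Nd h) := by
              rw [sum_const, smul_eq_mul]
          _ ≤ _ := Nat.mul_le_mul_right _ (hGc b)
    _ = 2 * I.card ^ w * Fintype.card Lab ^ Fintype.card (Nd h) := by
        rw [sum_const, card_univ, Fintype.card_bool, smul_eq_mul]; ring

open Classical in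
/-- **The core theorem.** -/
theorem core [Fintype N.E] (hmono : N.Mono) (hp : 1 ≤ p) {K t a r : ℕ} (hw : w = 2 * a)
    (hK : k + 3 * w ≤ K) (ht : 0 < t) (ht2 : t < (inner h).card)
    (hiso : ∀ α D : Finset (Nd h), α ⊆ inner h → Cr α D → α.card = t → K < D.card)
    (hdep : ∀ e, ∃ I : Finset (Var h Lab), I.card ≤ r ∧ DepOn (N.guard e) I)
    (hpos : ∀ l : Nd h → Lab, N.Reach (posT l) N.t)
    (hneg : ∀ χ, ¬ N.Reach (negT χ) N.t) (hLab : 0 < Fintype.card Lab)
    (hC1 : (Fintype.card N.E + 1) * ((Fintype.card (Nd h × Lab) + 1) ^ K * 2 ^ (K + 1)) *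
      (4 ^ K * (2 ^ K - 1) ^ p) < (2 ^ K) ^ p)
    (hβ : (2 * Fintype.card (Nd h) * K * p : ℝ) / Fintype.card Lab ≤ 1)
    (hC2 : (Fintype.card N.E : ℝ) * (2 * K *
      ((2 * Fintype.card (Nd h) * K * p : ℝ) / Fintype.card Lab) ^ (k + 1) +
        2 * ((r : ℝ) / (Fintype.card Lab : ℝ) ^ 3) ^ a) < 1) : False := by
  obtain ⟨S, hS, hcl⟩ := exists_closed N k w p
  have hinv := (chain_spec N k w p hmono hK ht hiso S hS).1
  have hsink := no_sink N k w p hmono hK ht ht2 hiso hneg S hS hC1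
  choose I hI1 hI2 using hdep
  obtain ⟨H, hH⟩ : ∃ H : N.E → Finset (Nd h → Lab), H = fun e => univ.filter
    (fun l : Nd h → Lab => 2 * a < ((inner h).filter (fun v => trip l v ∈ I e)).card) := ⟨_, rfl⟩
  have hcov : ∀ l : Nd h → Lab, ∃ e, l ∈ Lost N k S (some e) ∨ l ∈ H e := by
    intro l
    by_contra hcon
    push Not at hcon
    have key : ∀ u, N.Reach (posT l) u → ∃ o P α, vt N o = u ∧ (o, P, α) ∈ S ∧
        P ⊆ gr l univ ∧ P.card ≤ k := by
      intro u hu
      induction hu with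
      | refl => exact ⟨none, ∅, ∅, rfl, hcl _ Rule.base, by simp, by simp⟩
      | tail _ hstep ih =>
        obtain ⟨o, P, α, h1, h2, h3, h4⟩ := ih
        obtain ⟨e, he1, he2, he3⟩ := hstep
        obtain ⟨hL, hHv⟩ := hcon e
        obtain ⟨T, hT⟩ : ∃ T, T = (inner h).filter (fun v => trip l v ∈ I e) := ⟨_, rfl⟩
        have hTc : T.card ≤ w := by
          rw [hH] at hHv
          simp only [mem_filter, mem_univ, true_and, not_lt] at hHv
          rw [hT, hw]; exact hHv
        have hTi : T ⊆ inner h := by rw [hT]; exact filter_subset _ _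
        have hg : N.guard e (trip l '' (T : Set (Nd h))) := by
          refine (hI2 e _ _ ?_).1 he3
          ext q
          simp only [Set.mem_inter_iff, mem_coe, posT, Set.mem_ofPred_eq, Set.mem_image]
          constructor
          · rintro ⟨⟨h5, h6⟩, h7⟩
            refine ⟨⟨q.1, ?_, h6.symm⟩, h7⟩
            rw [hT, mem_filter, ← h6]
            exact ⟨h5, h7⟩
          · rintro ⟨⟨v, h5, rfl⟩, h7⟩
            exact ⟨⟨hTi h5, rfl⟩, h7⟩
        have h5 := hcl _ (Rule.step (S := (S : Set (Cf N))) (p := p) o P α e l T (mem_coe.2 h2) h4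
          (he1.trans h1.symm) hTi hTc h3 hg)
        unfold Lost at hL
        rw [mem_filter] at hL
        have h6 : ∃ P α, (some e, P, α) ∈ S ∧ P ⊆ gr l univ ∧ P.card ≤ k := by
          by_contra h7
          refine hL ⟨mem_univ _, ⟨_, _, h5, union_subset h3 ?_⟩, h7⟩
          intro q hq
          rw [mem_gr] at hq ⊢
          exact ⟨mem_univ _, hq.2⟩
        obtain ⟨P', α', h7, h8, h9⟩ := h6
        exact ⟨some e, P', α', he2, h7, h8, h9⟩
    obtain ⟨o, P, α, h1, h2, _, _⟩ := key N.t (hpos l)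
    exact hsink _ h2 h1
  obtain ⟨L, hL⟩ : ∃ L : ℝ, L = Fintype.card Lab := ⟨_, rfl⟩
  obtain ⟨n, hn⟩ : ∃ n, n = Fintype.card (Nd h) := ⟨_, rfl⟩
  have hLpos : 0 < L := by rw [hL]; exact_mod_cast hLab
  have hHe : ∀ e, ((H e).card : ℝ) ≤ 2 * ((r : ℝ) / L ^ 3) ^ a * L ^ n := by
    intro e
    have h1 := card_heavy (I e) a
    have h2 : ((H e).card : ℝ) * (L ^ 3) ^ a ≤ 2 * (r : ℝ) ^ a * L ^ n := by
      have h3 : ((H e).card : ℝ) * (L ^ 3) ^ a ≤ 2 * ((I e).card : ℝ) ^ a * L ^ n := by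
        rw [hH, hL, hn]; exact_mod_cast h1
      refine h3.trans ?_
      have h4 : (((I e).card : ℕ) : ℝ) ≤ r := by exact_mod_cast hI1 e
      gcongr
    rw [div_pow]
    rw [mul_div_assoc', div_mul_eq_mul_div, le_div_iff₀ (by positivity)]
    exact h2
  have hLe : ∀ e, ((Lost N k S (some e)).card : ℝ) ≤ 2 * K *
      ((2 * Fintype.card (Nd h) * K * p : ℝ) / Fintype.card Lab) ^ (k + 1) * L ^ n := by
    intro e
    have := card_Lost N k w p hp S hinv hcl (some e) hLab hβ
    rw [hL, hn]; exact this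
  have htot : L ^ n ≤ ∑ e : N.E, (((Lost N k S (some e)).card : ℝ) + ((H e).card : ℝ)) := by
    have h1 : (univ : Finset (Nd h → Lab)) ⊆
        (univ : Finset N.E).biUnion (fun e => Lost N k S (some e) ∪ H e) := by
      intro l _
      obtain ⟨e, he⟩ := hcov l
      rw [mem_biUnion]
      exact ⟨e, mem_univ _, mem_union.2 he⟩
    have h2 := (card_le_card h1).trans card_biUnion_le
    rw [card_univ, Fintype.card_fun] at h2
    have h3 : L ^ n = ((Fintype.card Lab ^ Fintype.card (Nd h) : ℕ) : ℝ) := by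
      rw [hL, hn]; push_cast; rfl
    rw [h3]
    have h4 : ((∑ e : N.E, (Lost N k S (some e) ∪ H e).card : ℕ) : ℝ) ≤
        ∑ e : N.E, (((Lost N k S (some e)).card : ℝ) + ((H e).card : ℝ)) := by
      push_cast
      refine sum_le_sum fun e _ => ?_
      exact_mod_cast card_union_le _ _
    refine le_trans ?_ h4
    exact_mod_cast h2
  have h1 : L ^ n ≤ (Fintype.card N.E : ℝ) * (2 * K *
      ((2 * Fintype.card (Nd h) * K * p : ℝ) / Fintype.card Lab) ^ (k + 1) +
        2 * ((r : ℝ) / L ^ 3) ^ a) * L ^ n := by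
    refine htot.trans ?_
    calc ∑ e : N.E, (((Lost N k S (some e)).card : ℝ) + ((H e).card : ℝ))
        ≤ ∑ _e : N.E, (2 * K * ((2 * Fintype.card (Nd h) * K * p : ℝ) / Fintype.card Lab) ^ (k + 1) *
            L ^ n + 2 * ((r : ℝ) / L ^ 3) ^ a * L ^ n) :=
          sum_le_sum fun e _ => add_le_add (hLe e) (hHe e)
      _ = _ := by
          rw [sum_const, card_univ, nsmul_eq_mul]; ring
  have h2 : (0 : ℝ) < L ^ n := by positivity
  rw [← hL] at hC2 h1
  have h3 := mul_lt_mul_of_pos_right hC2 h2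
  linarith

end Pool.Agent.T9h47.MN
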