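import Mathlib
import Pool.Agent.Helper336.CF

/-!
# The context-free language of the lower bound

The words consist of blocks which end with `sep`. A block is a list of options; an option starts
with the letter `yes` or `no` and continues with letters `opn b`, `cls b`. A word is in the language
if in each block one can choose an option with the letter `yes` such that the brackets of the
chosen options, one block after the other, form a word of the Dyck language.
-/

set_option autoImplicit false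

namespace Pool.Agent.T9h47.MN

open Finset

/-- the alphabet -/
inductive Ltr
  | yes
  | no
  | sep
  | opn (b : Bool)
  | cls (b : Bool)
  deriving DecidableEq, Fintype

open Ltr

instance : PartialOrder Ltr where
  le a b := a = b ∨ (a = no ∧ b = yes)
  le_refl a := Or.inl rfl
  le_trans a b c := by
    rintro (rfl | ⟨rfl, rfl⟩) (h | ⟨h1, h2⟩)
    · exact Or.inl h
    · exact Or.inr ⟨h1, h2⟩
    · exact Or.inr ⟨rfl, h.symm⟩
    · exact absurd h1 (by decide)
  le_antisymm a b := by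
    rintro (rfl | ⟨rfl, rfl⟩) (h | ⟨h1, h2⟩)
    · rfl
    · rfl
    · exact h.symm
    · exact absurd h1 (by decide)

theorem le_iff (a b : Ltr) : a ≤ b ↔ a = b ∨ (a = no ∧ b = yes) := Iff.rfl

/-- states: before, inside, after the chosen option of the block -/
inductive St
  | B
  | I
  | A
  deriving DecidableEq

open St

instance : Fintype St := ⟨{B, I, A}, by intro x; cases x <;> simp⟩

/-- transitions which do not change the stack -/
def Neu (p : St) (c : Ltr) (q : St) : Prop :=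
  (p = B ∧ q = B ∧ c ≠ sep) ∨ (p = B ∧ q = I ∧ c = yes) ∨ (p = I ∧ q = A ∧ (c = yes ∨ c = no)) ∨
    (p = I ∧ q = B ∧ c = sep) ∨ (p = A ∧ q = A ∧ c ≠ sep) ∨ (p = A ∧ q = B ∧ c = sep)

instance (p : St) (c : Ltr) (q : St) : Decidable (Neu p c q) := by unfold Neu; infer_instance

/-- one step -/
def Stp (p : St) (σ : List Bool) (c : Ltr) (q : St) (τ : List Bool) : Prop :=
  (Neu p c q ∧ τ = σ) ∨ (p = I ∧ q = I ∧ ∃ b, c = opn b ∧ τ = b :: σ) ∨
    (p = I ∧ q = I ∧ ∃ b, c = cls b ∧ σ = b :: τ)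

/-- runs -/
def Rn (p : St) (σ : List Bool) : List Ltr → St → List Bool → Prop
  | [], q, τ => p = q ∧ σ = τ
  | c :: w, q, τ => ∃ p' σ', Stp p σ c p' σ' ∧ Rn p' σ' w q τ

theorem Rn_append (u v : List Ltr) (p : St) (σ : List Bool) (q : St) (τ : List Bool) :
    Rn p σ (u ++ v) q τ ↔ ∃ r ρ, Rn p σ u r ρ ∧ Rn r ρ v q τ := by
  induction u generalizing p σ with
  | nil =>
    simp only [List.nil_append, Rn]
    constructor
    · intro h; exact ⟨p, σ, ⟨rfl, rfl⟩, h⟩
    · rintro ⟨r, ρ, ⟨rfl, rfl⟩, h⟩; exact h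
  | cons c u ih =>
    simp only [List.cons_append, Rn, ih]
    constructor
    · rintro ⟨p', σ', h1, r, ρ, h2, h3⟩; exact ⟨r, ρ, ⟨p', σ', h1, h2⟩, h3⟩
    · rintro ⟨r, ρ, ⟨p', σ', h1, h2⟩, h3⟩; exact ⟨p', σ', h1, r, ρ, h2, h3⟩

theorem Stp_lift {p : St} {σ : List Bool} {c : Ltr} {q : St} {τ : List Bool}
    (h : Stp p σ c q τ) (ρ : List Bool) : Stp p (σ ++ ρ) c q (τ ++ ρ) := by
  rcases h with ⟨h1, rfl⟩ | ⟨h1, h2, b, h3, rfl⟩ | ⟨h1, h2, b, h3, rfl⟩
  · exact Or.inl ⟨h1, rfl⟩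
  · exact Or.inr (Or.inl ⟨h1, h2, b, h3, rfl⟩)
  · exact Or.inr (Or.inr ⟨h1, h2, b, h3, rfl⟩)

theorem Rn_lift (w : List Ltr) (p : St) (σ : List Bool) (q : St) (τ ρ : List Bool)
    (h : Rn p σ w q τ) : Rn p (σ ++ ρ) w q (τ ++ ρ) := by
  induction w generalizing p σ with
  | nil => obtain ⟨rfl, rfl⟩ := h; exact ⟨rfl, rfl⟩
  | cons c w ih =>
    obtain ⟨p', σ', h1, h2⟩ := h
    exact ⟨p', σ' ++ ρ, Stp_lift h1 ρ, ih _ _ h2⟩

/-- The language. -/
def Lg : Language Ltr := {w | Rn B [] w B []}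

theorem Stp_mono {p : St} {σ : List Bool} {c c' : Ltr} {q : St} {τ : List Bool}
    (h : Stp p σ c q τ) (hc : c ≤ c') : Stp p σ c' q τ := by
  rcases hc with rfl | ⟨rfl, rfl⟩
  · exact h
  · rcases h with ⟨h1, rfl⟩ | ⟨_, _, b, h3, _⟩ | ⟨_, _, b, h3, _⟩
    · refine Or.inl ⟨?_, rfl⟩
      unfold Neu at h1 ⊢
      simp at h1 ⊢
      tauto
    · cases h3
    · cases h3

theorem Rn_mono {w w' : List Ltr} (hw : List.Forall₂ (· ≤ ·) w w') (p : St) (σ : List Bool) (q : St)
    (τ : List Bool) (h : Rn p σ w q τ) : Rn p σ w' q τ := by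
  induction hw generalizing p σ with
  | nil => exact h
  | cons hc _ ih =>
    obtain ⟨p', σ', h1, h2⟩ := h
    exact ⟨p', σ', Stp_mono h1 hc, ih _ _ h2⟩

/-! ### The grammar -/

theorem popdec (w : List Ltr) (p : St) (ρ : List Bool) (b : Bool) (q : St)
    (h : Rn p (ρ ++ [b]) w q []) :
    ∃ u w2, w = u ++ cls b :: w2 ∧ Rn p ρ u I [] ∧ Rn I [] w2 q [] := by
  induction w generalizing p ρ with
  | nil =>
    obtain ⟨_, h2⟩ := h
    simp at h2
  | cons c w ih =>
    obtain ⟨p', σ', h1, h2⟩ := h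
    rcases h1 with ⟨h1, rfl⟩ | ⟨h1, h3, b', h4, rfl⟩ | ⟨h1, h3, b', h4, h5⟩
    · obtain ⟨u, w2, rfl, h6, h7⟩ := ih p' ρ h2
      exact ⟨c :: u, w2, rfl, ⟨p', ρ, Or.inl ⟨h1, rfl⟩, h6⟩, h7⟩
    · rw [← List.cons_append] at h2
      obtain ⟨u, w2, rfl, h6, h7⟩ := ih p' (b' :: ρ) h2
      exact ⟨c :: u, w2, rfl, ⟨p', b' :: ρ, Or.inr (Or.inl ⟨h1, h3, b', h4, rfl⟩), h6⟩, h7⟩
    · cases ρ with
      | nil =>
        simp only [List.nil_append, List.cons.injEq] at h5
        obtain ⟨rfl, rfl⟩ := h5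
        subst h1 h3 h4
        exact ⟨[], w, rfl, ⟨rfl, rfl⟩, h2⟩
      | cons b'' ρ =>
        simp only [List.cons_append, List.cons.injEq] at h5
        obtain ⟨rfl, rfl⟩ := h5
        obtain ⟨u, w2, rfl, h6, h7⟩ := ih p' ρ h2
        exact ⟨c :: u, w2, rfl, ⟨p', ρ, Or.inr (Or.inr ⟨h1, h3, b'', h4, rfl⟩), h6⟩, h7⟩

/-- the rules of the grammar -/
def rls : Finset (ContextFreeRule Ltr (St × St)) :=
  ((univ : Finset St).image (fun p => ⟨(p, p), []⟩)) ∪
  (((univ : Finset (St × Ltr × St × St)).filter (fun x => Neu x.1 x.2.1 x.2.2.1)).image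
    (fun x => ⟨(x.1, x.2.2.2), [Symbol.terminal x.2.1, Symbol.nonterminal (x.2.2.1, x.2.2.2)]⟩)) ∪
  ((univ : Finset (Bool × St)).image (fun x => ⟨(I, x.2), [Symbol.terminal (opn x.1),
    Symbol.nonterminal (I, I), Symbol.terminal (cls x.1), Symbol.nonterminal (I, x.2)]⟩))

theorem mem_rls1 {p : St} {c : Ltr} {p' : St} (h1 : Neu p c p') (q : St) :
    (⟨(p, q), [Symbol.terminal c, Symbol.nonterminal (p', q)]⟩ : ContextFreeRule Ltr (St × St)) ∈
      rls := by
  unfold rls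
  rw [mem_union, mem_union, mem_image, mem_image, mem_image]
  left; right
  exact ⟨(p, c, p', q), by simpa using h1, rfl⟩

theorem mem_rls2 (b : Bool) (q : St) :
    (⟨(I, q), [Symbol.terminal (opn b), Symbol.nonterminal (I, I), Symbol.terminal (cls b),
      Symbol.nonterminal (I, q)]⟩ : ContextFreeRule Ltr (St × St)) ∈ rls := by
  unfold rls
  rw [mem_union, mem_union, mem_image, mem_image, mem_image]
  right
  exact ⟨(b, q), by simp, rfl⟩

/-- the grammar -/
def grm : ContextFreeGrammar Ltr := ⟨St × St, (B, B), rls⟩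

/-- the words of the nonterminals -/
def sem : St × St → Set (List Ltr) := fun x => {w | Rn x.1 [] w x.2 []}

theorem sem_sound (r : ContextFreeRule Ltr (St × St)) (hr : r ∈ rls) (w : List Ltr)
    (hw : Helper336.CF.Comp sem r.output w) : w ∈ sem r.input := by
  unfold rls at hr
  rw [mem_union, mem_union, mem_image, mem_image, mem_image] at hr
  rcases hr with (⟨p, _, rfl⟩ | ⟨⟨p, c, p', q⟩, h1, rfl⟩) | ⟨⟨b, q⟩, _, rfl⟩
  · simp only [Helper336.CF.Comp] at hw
    subst hw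
    exact ⟨rfl, rfl⟩
  · rw [mem_filter] at h1
    obtain ⟨w', rfl, w1, w2, rfl, h2, h3⟩ := hw
    simp only [Helper336.CF.Comp] at h3
    subst h3
    exact ⟨p', [], Or.inl ⟨h1.2, rfl⟩, by rw [List.append_nil]; exact h2⟩
  · obtain ⟨w', rfl, u, w1, rfl, h2, w2, rfl, w3, w4, rfl, h3, h4⟩ := hw
    simp only [Helper336.CF.Comp] at h4
    subst h4
    refine ⟨I, [b], Or.inr (Or.inl ⟨rfl, rfl, b, rfl, rfl⟩), ?_⟩
    rw [Rn_append]
    refine ⟨I, [b], ?_, I, [], Or.inr (Or.inr ⟨rfl, rfl, b, rfl, rfl⟩),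
      by rw [List.append_nil]; exact h3⟩
    have := Rn_lift u I [] I [] [b] h2
    simpa using this

theorem gen_of_Rn : ∀ (n : ℕ) (w : List Ltr) (p q : St), w.length ≤ n → Rn p [] w q [] →
    w ∈ Helper336.CF.Gen grm (p, q) := by
  intro n
  induction n with
  | zero =>
    intro w p q hn h
    have : w = [] := List.eq_nil_of_length_eq_zero (by omega)
    subst this
    obtain ⟨rfl, _⟩ := h
    refine Helper336.CF.gen_of_rule grm ⟨(p, p), []⟩ ?_ _ rfl
    unfold grm rls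
    simp
  | succ n ih =>
    intro w p q hn h
    cases w with
    | nil =>
      obtain ⟨rfl, _⟩ := h
      refine Helper336.CF.gen_of_rule grm ⟨(p, p), []⟩ ?_ _ rfl
      unfold grm rls
      simp
    | cons c w =>
      obtain ⟨p', σ', h1, h2⟩ := h
      simp only [List.length_cons] at hn
      rcases h1 with ⟨h1, rfl⟩ | ⟨h1, h3, b', h4, rfl⟩ | ⟨h1, h3, b', h4, h5⟩
      · refine Helper336.CF.gen_of_rule grm
          ⟨(p, q), [Symbol.terminal c, Symbol.nonterminal (p', q)]⟩ ?_ _ ?_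
        · exact mem_rls1 h1 q
        · exact ⟨w, rfl, w, [], by simp, ih w p' q (by omega) h2, rfl⟩
      · obtain ⟨u, w2, rfl, h6, h7⟩ := popdec w p' [] b' q (by simpa using h2)
        subst h1 h3 h4
        simp only [List.length_append, List.length_cons] at hn
        refine Helper336.CF.gen_of_rule grm
          ⟨(I, q), [Symbol.terminal (opn b'), Symbol.nonterminal (I, I), Symbol.terminal (cls b'),
            Symbol.nonterminal (I, q)]⟩ ?_ _ ?_
        · exact mem_rls2 b' q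
        · exact ⟨_, rfl, u, _, rfl, ih u I I (by omega) h6, w2, rfl, w2, [], by simp,
            ih w2 I q (by omega) h7, rfl⟩
      · cases h5

theorem Lg_cf : Lg.IsContextFree := by
  refine ⟨grm, ?_⟩
  ext w
  exact Helper336.CF.language_eq grm sem (fun r hr w hw => sem_sound r hr w hw)
    (fun w hw => gen_of_Rn w.length w B B le_rfl hw) w

/-! ### Blocks -/

/-- letters of the bodies of the options -/
def IsBr (c : Ltr) : Prop := ∃ b, c = opn b ∨ c = cls b

theorem skipA (w : List Ltr) (hw : ∀ c ∈ w, c ≠ sep) (σ : List Bool) (q : St) (τ : List Bool) :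
    Rn A σ w q τ ↔ q = A ∧ τ = σ := by
  induction w with
  | nil =>
    simp only [Rn]
    constructor
    · rintro ⟨rfl, rfl⟩; exact ⟨rfl, rfl⟩
    · rintro ⟨rfl, rfl⟩; exact ⟨rfl, rfl⟩
  | cons c w ih =>
    have ih' := ih (fun c hc => hw c (List.mem_cons_of_mem _ hc))
    have hc := hw c List.mem_cons_self
    simp only [Rn]
    rw [← ih']
    constructor
    · rintro ⟨p', σ', h1, h2⟩
      rcases h1 with ⟨h1, rfl⟩ | ⟨h1, _⟩ | ⟨h1, _⟩
      · unfold Neu at h1
        simp [hc] at h1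
        rw [← h1]; exact h2
      · cases h1
      · cases h1
    · intro h
      exact ⟨A, σ, Or.inl ⟨by unfold Neu; simp [hc], rfl⟩, h⟩

theorem afterA (w : List Ltr) (hw : ∀ c ∈ w, c ≠ sep) (σ : List Bool) (q : St) (τ : List Bool) :
    Rn A σ (w ++ [sep]) q τ ↔ q = B ∧ τ = σ := by
  rw [Rn_append]
  constructor
  · rintro ⟨r, ρ, h1, p', σ', h2, h3⟩
    rw [skipA w hw] at h1
    obtain ⟨rfl, rfl⟩ := h1
    obtain ⟨rfl, rfl⟩ := h3
    rcases h2 with ⟨h2, rfl⟩ | ⟨h2, _⟩ | ⟨h2, _⟩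
    · unfold Neu at h2
      simp at h2
      exact ⟨h2, rfl⟩
    · cases h2
    · cases h2
  · rintro ⟨rfl, rfl⟩
    exact ⟨A, τ, (skipA w hw τ A τ).2 ⟨rfl, rfl⟩, B, τ, Or.inl ⟨by unfold Neu; simp, rfl⟩, rfl, rfl⟩

theorem br_ne {c : Ltr} (h : IsBr c) : c ≠ sep ∧ c ≠ yes ∧ c ≠ no := by
  obtain ⟨b, rfl | rfl⟩ := h <;> simp

/-- skipping the body of an option before the choice -/
theorem skipB (w : List Ltr) (hw : ∀ c ∈ w, IsBr c) (σ : List Bool) (q : St) (τ : List Bool) :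
    Rn B σ w q τ ↔ q = B ∧ τ = σ := by
  induction w with
  | nil =>
    simp only [Rn]
    constructor
    · rintro ⟨rfl, rfl⟩; exact ⟨rfl, rfl⟩
    · rintro ⟨rfl, rfl⟩; exact ⟨rfl, rfl⟩
  | cons c w ih =>
    have ih' := ih (fun c hc => hw c (List.mem_cons_of_mem _ hc))
    have hc := br_ne (hw c List.mem_cons_self)
    simp only [Rn]
    rw [← ih']
    constructor
    · rintro ⟨p', σ', h1, h2⟩
      rcases h1 with ⟨h1, rfl⟩ | ⟨h1, _⟩ | ⟨h1, _⟩
      · unfold Neu at h1
        simp [hc.1, hc.2.1] at h1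
        rw [← h1]; exact h2
      · cases h1
      · cases h1
    · intro h
      exact ⟨B, σ, Or.inl ⟨by unfold Neu; simp [hc.1], rfl⟩, h⟩

/-- the letters of a list of options -/
def flat (opts : List (Ltr × List Ltr)) : List Ltr := opts.flatMap (fun o => o.1 :: o.2)

/-- the options are well formed -/
def WF (opts : List (Ltr × List Ltr)) : Prop :=
  ∀ o ∈ opts, (o.1 = yes ∨ o.1 = no) ∧ ∀ c ∈ o.2, IsBr c

theorem flat_ne {opts : List (Ltr × List Ltr)} (h : WF opts) : ∀ c ∈ flat opts, c ≠ sep := by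
  intro c hc
  unfold flat at hc
  rw [List.mem_flatMap] at hc
  obtain ⟨o, ho, hc⟩ := hc
  obtain ⟨h1, h2⟩ := h o ho
  rw [List.mem_cons] at hc
  rcases hc with rfl | hc
  · rcases h1 with h1 | h1 <;> rw [h1] <;> simp
  · exact (br_ne (h2 c hc)).1

/-- in the state `I` the rest of the block is skipped -/
theorem restI {opts : List (Ltr × List Ltr)} (h : WF opts) (σ : List Bool) (q : St)
    (τ : List Bool) : Rn I σ (flat opts ++ [sep]) q τ ↔ q = B ∧ τ = σ := by
  cases opts with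
  | nil =>
    simp only [flat, List.flatMap_nil, List.nil_append, Rn]
    constructor
    · rintro ⟨p', σ', h1, rfl, rfl⟩
      rcases h1 with ⟨h1, rfl⟩ | ⟨_, _, b, h1, _⟩ | ⟨_, _, b, h1, _⟩
      · unfold Neu at h1
        simp at h1
        exact ⟨h1, rfl⟩
      · cases h1
      · cases h1
    · rintro ⟨rfl, rfl⟩
      exact ⟨B, τ, Or.inl ⟨by unfold Neu; simp, rfl⟩, rfl, rfl⟩
  | cons o opts =>
    obtain ⟨h1, h2⟩ := h o List.mem_cons_self
    have hsplit : flat (o :: opts) ++ [sep] = o.1 :: ((o.2 ++ flat opts) ++ [sep]) := by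
      simp [flat]
    have hne : ∀ c ∈ o.2 ++ flat opts, c ≠ sep := by
      intro c hc
      rw [List.mem_append] at hc
      rcases hc with hc | hc
      · exact (br_ne (h2 c hc)).1
      · exact flat_ne (fun o ho => h o (List.mem_cons_of_mem _ ho)) c hc
    rw [hsplit]
    simp only [Rn]
    constructor
    · rintro ⟨p', σ', h3, h4⟩
      rcases h3 with ⟨h3, rfl⟩ | ⟨_, _, b, h3, _⟩ | ⟨_, _, b, h3, _⟩
      · have : p' = A := by
          unfold Neu at h3
          rcases h1 with h1 | h1 <;> simpa [h1] using h3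
        subst this
        exact (afterA _ hne _ _ _).1 h4
      · rcases h1 with h1 | h1 <;> rw [h1] at h3 <;> cases h3
      · rcases h1 with h1 | h1 <;> rw [h1] at h3 <;> cases h3
    · intro h3
      refine ⟨A, σ, Or.inl ⟨?_, rfl⟩, (afterA _ hne _ _ _).2 h3⟩
      unfold Neu
      rcases h1 with h1 | h1 <;> simp [h1]

/-- a block -/
theorem block {opts : List (Ltr × List Ltr)} (h : WF opts) (σ : List Bool) (q : St)
    (τ : List Bool) : Rn B σ (flat opts ++ [sep]) q τ ↔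
      q = B ∧ ∃ o ∈ opts, o.1 = yes ∧ Rn I σ o.2 I τ := by
  induction opts with
  | nil =>
    simp only [flat, List.flatMap_nil, List.nil_append, Rn]
    constructor
    · rintro ⟨p', σ', h1, rfl, rfl⟩
      rcases h1 with ⟨h1, rfl⟩ | ⟨h1, _⟩ | ⟨h1, _⟩
      · unfold Neu at h1
        simp at h1
      · cases h1
      · cases h1
    · rintro ⟨_, o, ho, _⟩; simp at ho
  | cons o opts ih =>
    have h' : WF opts := fun o ho => h o (List.mem_cons_of_mem _ ho)
    obtain ⟨h1, h2⟩ := h o List.mem_cons_self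
    have hsplit : flat (o :: opts) ++ [sep] = o.1 :: (o.2 ++ (flat opts ++ [sep])) := by
      simp [flat]
    have bodyI : ∀ (w : List Ltr), (∀ c ∈ w, IsBr c) → ∀ (ρ : List Bool) (r : St)
        (ρ' : List Bool), Rn I ρ w r ρ' → r = I := by
      intro w
      induction w with
      | nil => rintro _ ρ r ρ' ⟨rfl, _⟩; rfl
      | cons c w ihw =>
        rintro hw ρ r ρ' ⟨p', σ', h3, h4⟩
        have hc := br_ne (hw c List.mem_cons_self)
        rcases h3 with ⟨h3, rfl⟩ | ⟨_, rfl, _⟩ | ⟨_, rfl, _⟩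
        · unfold Neu at h3
          simp [hc.1, hc.2.1, hc.2.2] at h3
        · exact ihw (fun c hc => hw c (List.mem_cons_of_mem _ hc)) _ _ _ h4
        · exact ihw (fun c hc => hw c (List.mem_cons_of_mem _ hc)) _ _ _ h4
    rw [hsplit]
    simp only [Rn]
    constructor
    · rintro ⟨p', σ', h3, h4⟩
      rcases h3 with ⟨h3, rfl⟩ | ⟨h3, _⟩ | ⟨h3, _⟩
      · rw [Rn_append] at h4
        obtain ⟨r, ρ, h5, h6⟩ := h4
        have hcases : p' = B ∨ (p' = I ∧ o.1 = yes) := by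
          unfold Neu at h3
          rcases h1 with h1 | h1 <;> simpa [h1] using h3
        rcases hcases with rfl | ⟨rfl, hy⟩
        · rw [skipB _ h2] at h5
          obtain ⟨rfl, rfl⟩ := h5
          obtain ⟨h7, o', ho', h8⟩ := (ih h').1 h6
          exact ⟨h7, o', List.mem_cons_of_mem _ ho', h8⟩
        · have hr := bodyI _ h2 _ _ _ h5
          subst hr
          obtain ⟨h7, h8⟩ := (restI h' _ _ _).1 h6
          subst h8
          exact ⟨h7, o, List.mem_cons_self, hy, h5⟩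
      · cases h3
      · cases h3
    · rintro ⟨rfl, o', ho', hy, hrun⟩
      rcases List.mem_cons.1 ho' with rfl | ho'
      · refine ⟨I, σ, Or.inl ⟨by unfold Neu; simp [hy], rfl⟩, ?_⟩
        rw [Rn_append]
        exact ⟨I, τ, hrun, (restI h' _ _ _).2 ⟨rfl, rfl⟩⟩
      · refine ⟨B, σ, Or.inl ⟨?_, rfl⟩, ?_⟩
        · unfold Neu
          rcases h1 with h1 | h1 <;> simp [h1]
        · rw [Rn_append]
          exact ⟨B, σ, (skipB _ h2 _ _ _).2 ⟨rfl, rfl⟩, (ih h').2 ⟨rfl, o', ho', hy, hrun⟩⟩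

theorem run_cls (c : List Bool) (σ : List Bool) (τ : List Bool) :
    Rn I σ (c.map cls) I τ ↔ σ = c ++ τ := by
  induction c generalizing σ with
  | nil => simp [Rn]
  | cons b c ih =>
    simp only [List.map_cons, Rn, List.cons_append]
    constructor
    · rintro ⟨p', σ', h1, h2⟩
      rcases h1 with ⟨h1, _⟩ | ⟨_, _, b', h1, _⟩ | ⟨_, rfl, b', h1, rfl⟩
      · unfold Neu at h1; simp at h1
      · cases h1
      · rw [Ltr.cls.injEq] at h1
        rw [ih] at h2
        rw [h1, h2]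
    · rintro rfl
      exact ⟨I, c ++ τ, Or.inr (Or.inr ⟨rfl, rfl, b, rfl, rfl⟩), (ih _).2 rfl⟩

theorem run_opn (a : List Bool) (σ : List Bool) (τ : List Bool) :
    Rn I σ (a.map opn) I τ ↔ τ = a.reverse ++ σ := by
  induction a generalizing σ with
  | nil => simp [Rn, eq_comm]
  | cons b a ih =>
    simp only [List.map_cons, Rn, List.reverse_cons, List.append_assoc, List.singleton_append]
    constructor
    · rintro ⟨p', σ', h1, h2⟩
      rcases h1 with ⟨h1, _⟩ | ⟨_, rfl, b', h1, rfl⟩ | ⟨_, _, b', h1, _⟩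
      · unfold Neu at h1; simp at h1
      · rw [Ltr.opn.injEq] at h1
        rw [ih] at h2
        rw [h1, h2]
      · cases h1
    · intro h
      exact ⟨I, b :: σ, Or.inr (Or.inl ⟨rfl, rfl, b, rfl, rfl⟩), (ih _).2 h⟩

theorem bodyI' (w : List Ltr) (hw : ∀ c ∈ w, IsBr c) (ρ : List Bool) (r : St) (ρ' : List Bool)
    (h : Rn I ρ w r ρ') : r = I := by
  induction w generalizing ρ with
  | nil => obtain ⟨rfl, _⟩ := h; rfl
  | cons c w ihw =>
    obtain ⟨p', σ', h3, h4⟩ := h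
    have hc := br_ne (hw c List.mem_cons_self)
    rcases h3 with ⟨h3, rfl⟩ | ⟨_, rfl, _⟩ | ⟨_, rfl, _⟩
    · unfold Neu at h3
      simp [hc.1, hc.2.1, hc.2.2] at h3
    · exact ihw (fun c hc => hw c (List.mem_cons_of_mem _ hc)) _ h4
    · exact ihw (fun c hc => hw c (List.mem_cons_of_mem _ hc)) _ h4

/-- the body of an option: pop `c`, push `b`, push `a` -/
theorem run_body (a b c σ τ : List Bool) :
    Rn I σ (c.map cls ++ (b.reverse.map opn ++ a.reverse.map opn)) I τ ↔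
      ∃ ρ, σ = c ++ ρ ∧ τ = a ++ (b ++ ρ) := by
  rw [Rn_append]
  constructor
  · rintro ⟨r, ρ, h1, h2⟩
    have hr := bodyI' _ (by
      intro x hx; rw [List.mem_map] at hx; obtain ⟨y, _, rfl⟩ := hx; exact ⟨y, Or.inr rfl⟩) _ _ _ h1
    subst hr
    rw [Rn_append] at h2
    obtain ⟨r', ρ', h3, h4⟩ := h2
    have hr' := bodyI' _ (by
      intro x hx; rw [List.mem_map] at hx; obtain ⟨y, _, rfl⟩ := hx; exact ⟨y, Or.inl rfl⟩) _ _ _ h3
    subst hr'
    rw [run_cls] at h1
    rw [run_opn, List.reverse_reverse] at h3 h4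
    exact ⟨ρ, h1, by rw [h4, h3]⟩
  · rintro ⟨ρ, rfl, rfl⟩
    refine ⟨I, ρ, (run_cls _ _ _).2 rfl, ?_⟩
    rw [Rn_append]
    refine ⟨I, b ++ ρ, ?_, ?_⟩
    · rw [run_opn, List.reverse_reverse]
    · rw [run_opn, List.reverse_reverse]

/-- the padding block -/
theorem run_pad (i : ℕ) (σ : List Bool) : Rn B σ (yes :: (List.replicate i no ++ [sep])) B σ := by
  refine ⟨I, σ, Or.inl ⟨by unfold Neu; simp, rfl⟩, ?_⟩
  cases i with
  | zero => exact ⟨B, σ, Or.inl ⟨by unfold Neu; simp, rfl⟩, rfl, rfl⟩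
  | succ i =>
    rw [List.replicate_succ, List.cons_append]
    refine ⟨A, σ, Or.inl ⟨by unfold Neu; simp, rfl⟩, ?_⟩
    refine (afterA _ ?_ _ _ _).2 ⟨rfl, rfl⟩
    intro c hc
    rw [List.eq_of_mem_replicate hc]
    simp

end Pool.Agent.T9h47.MN
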