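import Mathlib
import Pool.Agent.T9h47.MN.Lang
import Pool.Agent.T9h47.MN.Core2

/-!
# From programs for the language to networks for the tree problem
-/

set_option autoImplicit false

namespace Pool.Agent.T9h47.MN

open Finset Ltr St

variable {h m : ℕ}

/-- labels are bit strings of length `m` -/
abbrev Lb (m : ℕ) := Fin m → Bool

/-- the code of a label -/
def code (a : Lb m) : List Bool := List.ofFn a

theorem code_length (a : Lb m) : (code a).length = m := by simp [code]

theorem code_inj {a b : Lb m} {σ τ : List Bool} (hab : code a ++ σ = code b ++ τ) :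
    a = b ∧ σ = τ := by
  have h1 := List.append_inj hab (by rw [code_length, code_length])
  exact ⟨List.ofFn_injective h1.1, h1.2⟩

/-- letters of the template: fixed letters, or `yes` or `no` according to a variable -/
abbrev TL (h m : ℕ) := Ltr ⊕ Var h (Lb m)

open Classical in
/-- evaluation of a letter of the template -/
noncomputable def ev (x : Set (Var h (Lb m))) : TL h m → Ltr
  | Sum.inl c => c
  | Sum.inr q => if q ∈ x then yes else no

/-- the body of an option of an inner block -/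
def bdy (x : Lb m × Lb m × Lb m) : List Ltr :=
  (code x.2.2).map cls ++ ((code x.2.1).reverse.map opn ++ (code x.1).reverse.map opn)

/-- template of a leaf -/
noncomputable def leafT (h m : ℕ) : List (TL h m) :=
  (univ : Finset (Lb m)).toList.flatMap
    (fun c => Sum.inl yes :: ((code c).map cls).map Sum.inl) ++ [Sum.inl sep]

/-- template of the first block -/
noncomputable def initT (h m : ℕ) : List (TL h m) :=
  (univ : Finset (Lb m)).toList.flatMap
    (fun c => Sum.inl yes :: ((code c).reverse.map opn).map Sum.inl) ++ [Sum.inl sep]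

/-- template of an inner node -/
noncomputable def blockT (v : Nd h) : List (TL h m) :=
  (univ : Finset (Lb m × Lb m × Lb m)).toList.flatMap
    (fun x => Sum.inr (v, x) :: (bdy x).map Sum.inl) ++ [Sum.inl sep]

/-- template of a subtree -/
noncomputable def treeT : ℕ → Nd h → List (TL h m)
  | 0, _ => leafT h m
  | i + 1, v => blockT v ++ (treeT i (lc v) ++ treeT i (rc v))

theorem isBr_cls (c : List Bool) : ∀ x ∈ c.map cls, IsBr x := by
  intro x hx; rw [List.mem_map] at hx; obtain ⟨y, _, rfl⟩ := hx; exact ⟨y, Or.inr rfl⟩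

theorem isBr_opn (c : List Bool) : ∀ x ∈ c.map opn, IsBr x := by
  intro x hx; rw [List.mem_map] at hx; obtain ⟨y, _, rfl⟩ := hx; exact ⟨y, Or.inl rfl⟩

theorem isBr_bdy (x : Lb m × Lb m × Lb m) : ∀ c ∈ bdy x, IsBr c := by
  intro c hc
  unfold bdy at hc
  rw [List.mem_append, List.mem_append] at hc
  rcases hc with hc | hc | hc
  · exact isBr_cls _ _ hc
  · exact isBr_opn _ _ hc
  · exact isBr_opn _ _ hc

theorem run_leaf (x : Set (Var h (Lb m))) (σ : List Bool) (q : St) (τ : List Bool) :
    Rn B σ ((leafT h m).map (ev x)) q τ ↔ q = B ∧ ∃ c : Lb m, σ = code c ++ τ := by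
  have h1 : (leafT h m).map (ev x) = flat ((univ : Finset (Lb m)).toList.map
      (fun c => (yes, (code c).map cls))) ++ [sep] := by
    simp only [leafT, flat, List.map_append, List.map_flatMap, List.map_cons, List.map_map,
      List.flatMap_map, ev, List.map_nil, Function.comp_def]
  rw [h1, block]
  · simp only [List.mem_map, mem_toList, mem_univ, true_and]
    constructor
    · rintro ⟨rfl, o, ⟨c, rfl⟩, _, h2⟩
      exact ⟨rfl, c, (run_cls _ _ _).1 h2⟩
    · rintro ⟨rfl, c, h2⟩
      exact ⟨rfl, _, ⟨c, rfl⟩, rfl, (run_cls _ _ _).2 h2⟩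
  · intro o ho
    rw [List.mem_map] at ho
    obtain ⟨c, _, rfl⟩ := ho
    exact ⟨Or.inl rfl, isBr_cls _⟩

theorem run_init (x : Set (Var h (Lb m))) (σ : List Bool) (q : St) (τ : List Bool) :
    Rn B σ ((initT h m).map (ev x)) q τ ↔ q = B ∧ ∃ c : Lb m, τ = code c ++ σ := by
  have h1 : (initT h m).map (ev x) = flat ((univ : Finset (Lb m)).toList.map
      (fun c => (yes, (code c).reverse.map opn))) ++ [sep] := by
    simp only [initT, flat, List.map_append, List.map_flatMap, List.map_cons, List.map_map,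
      List.flatMap_map, ev, List.map_nil, Function.comp_def]
  rw [h1, block]
  · simp only [List.mem_map, mem_toList, mem_univ, true_and]
    constructor
    · rintro ⟨rfl, o, ⟨c, rfl⟩, _, h2⟩
      have := (run_opn _ _ _).1 h2
      rw [List.reverse_reverse] at this
      exact ⟨rfl, c, this⟩
    · rintro ⟨rfl, c, h2⟩
      refine ⟨rfl, _, ⟨c, rfl⟩, rfl, (run_opn _ _ _).2 ?_⟩
      rw [List.reverse_reverse]; exact h2
  · intro o ho
    rw [List.mem_map] at ho
    obtain ⟨c, _, rfl⟩ := ho
    exact ⟨Or.inl rfl, isBr_opn _⟩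

theorem run_block (v : Nd h) (x : Set (Var h (Lb m))) (σ : List Bool) (q : St) (τ : List Bool) :
    Rn B σ ((blockT v).map (ev x)) q τ ↔ q = B ∧ ∃ a b c : Lb m, ∃ ρ, (v, a, b, c) ∈ x ∧
      σ = code c ++ ρ ∧ τ = code a ++ (code b ++ ρ) := by
  classical
  have h1 : (blockT (m := m) v).map (ev x) = flat ((univ : Finset (Lb m × Lb m × Lb m)).toList.map
      (fun y => (if (v, y) ∈ x then yes else no, bdy y))) ++ [sep] := by
    simp only [blockT, flat, List.map_append, List.map_flatMap, List.map_cons, List.map_map,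
      List.flatMap_map, ev, List.map_nil, Function.comp_def, List.map_id']
  rw [h1, block]
  · simp only [List.mem_map, mem_toList, mem_univ, true_and]
    constructor
    · rintro ⟨rfl, o, ⟨⟨a, b, c⟩, rfl⟩, h2, h3⟩
      simp only at h2 h3
      split_ifs at h2 with h4
      obtain ⟨ρ, h5, h6⟩ := (run_body _ _ _ _ _).1 h3
      exact ⟨rfl, a, b, c, ρ, h4, h5, h6⟩
    · rintro ⟨rfl, a, b, c, ρ, h4, h5, h6⟩
      refine ⟨rfl, _, ⟨(a, b, c), rfl⟩, ?_, (run_body _ _ _ _ _).2 ⟨ρ, h5, h6⟩⟩
      simp only [h4, if_true]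
  · intro o ho
    rw [List.mem_map] at ho
    obtain ⟨y, _, rfl⟩ := ho
    refine ⟨?_, isBr_bdy _⟩
    simp only
    split_ifs
    · exact Or.inl rfl
    · exact Or.inr rfl

/-- arithmetic of the heap order -/
theorem aux1 (x i h : ℕ) (_hx : 1 ≤ x) (hv : x * 2 ^ (i + 1) < 2 ^ (h + 1)) : x < 2 ^ h := by
  rw [pow_succ, pow_succ 2 h] at hv
  have : 1 ≤ 2 ^ i := Nat.one_le_two_pow
  nlinarith

theorem aux2 (x i h : ℕ) (hx : 1 ≤ x) (hv : x * 2 ^ (i + 1) < 2 ^ (h + 1)) :
    2 * x * 2 ^ i < 2 ^ (h + 1) ∧ (2 * x + 1) * 2 ^ i < 2 ^ (h + 1) := by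
  have hih : i ≤ h := by
    by_contra hcon
    rw [not_le] at hcon
    have h1 : 2 ^ (h + 1) ≤ 2 ^ (i + 1) := Nat.pow_le_pow_right (by norm_num) (by omega)
    have h2 : 2 ^ (i + 1) ≤ x * 2 ^ (i + 1) := Nat.le_mul_of_pos_left _ hx
    omega
  have hv' : 2 * x * 2 ^ i < 2 ^ (h + 1) := by
    rw [pow_succ 2 i] at hv
    calc 2 * x * 2 ^ i = x * (2 ^ i * 2) := by ring
      _ < _ := hv
  refine ⟨hv', ?_⟩
  obtain ⟨e, rfl⟩ : ∃ e, h = i + e := ⟨h - i, by omega⟩
  have h3 : 2 ^ (i + e + 1) = 2 ^ (e + 1) * 2 ^ i := by rw [← pow_add]; congr 1; omega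
  rw [h3] at hv' ⊢
  have h2 : 2 * x < 2 ^ (e + 1) := Nat.lt_of_mul_lt_mul_right hv'
  have h4 : 2 * x + 1 < 2 ^ (e + 1) := by
    rw [pow_succ] at h2 ⊢; omega
  exact Nat.mul_lt_mul_of_pos_right h4 (by positivity)

theorem aux3 (x i h : ℕ) (hv : 2 ^ h ≤ x * 2 ^ (i + 1)) : 2 ^ h ≤ 2 * x * 2 ^ i := by
  rw [pow_succ 2 i] at hv
  calc 2 ^ h ≤ x * (2 ^ i * 2) := hv
    _ = _ := by ring

/-- positive tests are accepted -/
theorem run_pos (l : Nd h → Lb m) : ∀ (i : ℕ) (v : Nd h) (τ : List Bool), 1 ≤ v.val →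
    v.val * 2 ^ i < 2 ^ (h + 1) →
    Rn B (code (l v) ++ τ) ((treeT i v).map (ev (posT l))) B τ := by
  intro i
  induction i with
  | zero =>
    intro v τ _ _
    exact (run_leaf _ _ _ _).2 ⟨rfl, l v, rfl⟩
  | succ i ih =>
    intro v τ hv1 hv
    have hvi : v ∈ inner h := mem_inner.2 ⟨hv1, aux1 _ _ _ hv1 hv⟩
    have hl := lc_val hvi
    have hr := rc_val hvi
    obtain ⟨hv', hv''⟩ := aux2 _ _ _ hv1 hv
    rw [treeT, List.map_append, List.map_append, Rn_append]
    refine ⟨B, code (l (lc v)) ++ (code (l (rc v)) ++ τ), ?_, ?_⟩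
    · exact (run_block _ _ _ _ _).2 ⟨rfl, l (lc v), l (rc v), l v, τ, ⟨hvi, rfl⟩, rfl, rfl⟩
    · rw [Rn_append]
      refine ⟨B, code (l (rc v)) ++ τ, ?_, ?_⟩
      · exact ih (lc v) _ (by rw [hl]; omega) (by rw [hl]; exact hv')
      · exact ih (rc v) _ (by rw [hr]; omega) (by rw [hr]; exact hv'')

/-- in negative tests only false labels can be popped -/
theorem run_neg (hh : 1 ≤ h) (χ : Nd h × Lb m → Bool) : ∀ (i : ℕ) (v : Nd h) (σ τ : List Bool) (q : St),
    1 ≤ v.val → 2 ^ h ≤ v.val * 2 ^ i → v.val * 2 ^ i < 2 ^ (h + 1) →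
    Rn B σ ((treeT i v).map (ev (negT χ))) q τ →
    q = B ∧ ∃ c : Lb m, σ = code c ++ τ ∧ eff χ v c = false := by
  intro i
  induction i with
  | zero =>
    intro v σ τ q _ hv _ h1
    obtain ⟨h2, c, h3⟩ := (run_leaf _ _ _ _).1 h1
    refine ⟨h2, c, h3, ?_⟩
    unfold eff
    have hne : v ≠ root h := by
      intro h4
      have h5 : v.val = 1 := by rw [h4]; rfl
      have h6 : 2 ^ 1 ≤ 2 ^ h := Nat.pow_le_pow_right (by norm_num) hh
      omega
    rw [if_neg hne, if_pos (by simpa using hv)]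
  | succ i ih =>
    intro v σ τ q hv1 hv2 hv h1
    have hvi : v ∈ inner h := mem_inner.2 ⟨hv1, aux1 _ _ _ hv1 hv⟩
    have hl := lc_val hvi
    have hr := rc_val hvi
    obtain ⟨hv', hv''⟩ := aux2 _ _ _ hv1 hv
    have hv2' := aux3 _ _ _ hv2
    rw [treeT, List.map_append, List.map_append, Rn_append] at h1
    obtain ⟨r, ρ, h2, h3⟩ := h1
    obtain ⟨rfl, a, b, c, ρ', h4, h5, h6⟩ := (run_block _ _ _ _ _).1 h2
    rw [Rn_append] at h3
    obtain ⟨r', ρ'', h7, h8⟩ := h3
    obtain ⟨rfl, a', h9, h10⟩ := ih (lc v) _ _ _ (by rw [hl]; omega) (by rw [hl]; exact hv2')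
      (by rw [hl]; exact hv') h7
    rw [h6] at h9
    obtain ⟨rfl, h11⟩ := code_inj h9
    obtain ⟨h12, b', h13, h14⟩ := ih (rc v) _ _ _ (by rw [hr]; omega) (by
      rw [hr]; refine hv2'.trans ?_
      exact Nat.mul_le_mul_right _ (Nat.le_succ _)) (by rw [hr]; exact hv'') h8
    rw [← h11] at h13
    obtain ⟨rfl, h15⟩ := code_inj h13
    refine ⟨h12, c, by rw [h5, h15], ?_⟩
    obtain ⟨_, h16⟩ := h4
    by_contra hcon
    rw [Bool.not_eq_false] at hcon
    rcases h16 hcon with h17 | h17
    · simp only at h17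
      rw [h10] at h17; exact absurd h17 (by decide)
    · simp only at h17
      rw [h14] at h17; exact absurd h17 (by decide)

/-- the whole template, with padding -/
noncomputable def full (h m i : ℕ) : List (TL h m) :=
  initT h m ++ (treeT h (root h) ++ (Sum.inl yes :: (List.replicate i (Sum.inl no) ++ [Sum.inl sep])))

theorem pad_map (x : Set (Var h (Lb m))) (i : ℕ) :
    (Sum.inl yes :: (List.replicate i (Sum.inl no) ++ [Sum.inl sep]) : List (TL h m)).map (ev x) =
      yes :: (List.replicate i no ++ [sep]) := by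
  simp [ev]

theorem full_pos (i : ℕ) (l : Nd h → Lb m) : (full h m i).map (ev (posT l)) ∈ Lg := by
  show Rn B [] _ B []
  unfold full
  rw [List.map_append, List.map_append, Rn_append]
  refine ⟨B, code (l (root h)) ++ [], (run_init _ _ _ _).2 ⟨rfl, _, rfl⟩, ?_⟩
  rw [Rn_append]
  refine ⟨B, [], run_pos l h (root h) [] ?_ ?_, ?_⟩
  · exact le_rfl
  · show 1 * 2 ^ h < 2 ^ (h + 1)
    have := two_pow_succ' h
    have : 0 < 2 ^ h := by positivity
    omega
  · rw [pad_map]; exact run_pad i []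

theorem full_neg (hh : 1 ≤ h) (i : ℕ) (χ : Nd h × Lb m → Bool) :
    (full h m i).map (ev (negT χ)) ∉ Lg := by
  intro h0
  have h1 : Rn B [] ((full h m i).map (ev (negT χ))) B [] := h0
  unfold full at h1
  rw [List.map_append, List.map_append, Rn_append] at h1
  obtain ⟨r, ρ, h2, h3⟩ := h1
  obtain ⟨rfl, c, rfl⟩ := (run_init _ _ _ _).1 h2
  rw [Rn_append] at h3
  obtain ⟨r', ρ', h4, h5⟩ := h3
  have h6 : (root h).val = 1 := rfl
  obtain ⟨rfl, c', h7, h8⟩ := run_neg hh χ h (root h) _ _ _ (by rw [h6]) (by rw [h6]; omega)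
    (by
      rw [h6]
      have := two_pow_succ' h
      have : 0 < 2 ^ h := by positivity
      omega) h4
  have h9 : eff χ (root h) c' = true := by unfold eff; rw [if_pos rfl]
  rw [h8] at h9
  exact absurd h9 (by decide)

/-! ### Lengths -/

theorem length_leafT (h m : ℕ) : (leafT h m).length = 2 ^ m * (1 + m) + 1 := by
  unfold leafT
  rw [List.length_append, List.length_flatMap]
  have : ((univ : Finset (Lb m)).toList.map (fun c => (Sum.inl yes :: ((code c).map cls).map Sum.inl :
      List (TL h m)).length)) = (univ : Finset (Lb m)).toList.map (fun _ => 1 + m) := by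
    refine List.map_congr_left fun c _ => ?_
    simp [code_length]; ring
  rw [this, List.map_const', List.sum_replicate, length_toList, card_univ]
  simp

theorem length_initT (h m : ℕ) : (initT h m).length = 2 ^ m * (1 + m) + 1 := by
  unfold initT
  rw [List.length_append, List.length_flatMap]
  have : ((univ : Finset (Lb m)).toList.map (fun c => (Sum.inl yes ::
      ((code c).reverse.map opn).map Sum.inl :
      List (TL h m)).length)) = (univ : Finset (Lb m)).toList.map (fun _ => 1 + m) := by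
    refine List.map_congr_left fun c _ => ?_
    simp [code_length]; ring
  rw [this, List.map_const', List.sum_replicate, length_toList, card_univ]
  simp

theorem length_blockT (v : Nd h) : (blockT (m := m) v).length = 2 ^ (3 * m) * (1 + 3 * m) + 1 := by
  unfold blockT
  rw [List.length_append, List.length_flatMap]
  have : ((univ : Finset (Lb m × Lb m × Lb m)).toList.map (fun x =>
      (Sum.inr (v, x) :: (bdy x).map Sum.inl : List (TL h m)).length)) =
      (univ : Finset (Lb m × Lb m × Lb m)).toList.map (fun _ => 1 + 3 * m) := by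
    refine List.map_congr_left fun c _ => ?_
    simp [bdy, code_length]; ring
  rw [this, List.map_const', List.sum_replicate, length_toList, card_univ]
  simp only [Fintype.card_prod, Fintype.card_fun, Fintype.card_bool, Fintype.card_fin,
    List.length_singleton, smul_eq_mul]
  congr 2
  rw [← pow_add, ← pow_add]
  congr 1
  ring

theorem length_treeT (i : ℕ) (v : Nd h) :
    (treeT (m := m) i v).length + 1 ≤ 2 ^ i * (2 * (2 ^ (3 * m) * (1 + 3 * m) + 1)) := by
  obtain ⟨X, hX⟩ : ∃ X, X = 2 ^ (3 * m) * (1 + 3 * m) + 1 := ⟨_, rfl⟩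
  have h1 : (leafT h m).length ≤ X := by
    rw [length_leafT, hX]
    have h2 : 2 ^ m ≤ 2 ^ (3 * m) := Nat.pow_le_pow_right (by norm_num) (by omega)
    have h3 : 1 + m ≤ 1 + 3 * m := by omega
    have := Nat.mul_le_mul h2 h3
    omega
  have key : ∀ (i : ℕ) (v : Nd h), (treeT (m := m) i v).length + X ≤ 2 ^ i * (2 * X) := by
    intro i
    induction i with
    | zero =>
      intro v
      simp only [treeT]
      omega
    | succ i ih =>
      intro v
      have h2 := ih (lc v)
      have h3 := ih (rc v)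
      simp only [treeT, List.length_append, length_blockT, ← hX]
      rw [pow_succ]
      have : 2 ^ i * 2 * (2 * X) = 2 ^ i * (2 * X) + 2 ^ i * (2 * X) := by ring
      omega
  rw [← hX]
  have := key i v
  have : 1 ≤ X := by omega
  omega

theorem length_full (h m : ℕ) : ∃ n₁, (∀ i, (full h m i).length = n₁ + i + 2) ∧
    n₁ ≤ 2 ^ h * (4 * (2 ^ (3 * m) * (1 + 3 * m) + 1)) := by
  refine ⟨(initT h m).length + (treeT (m := m) h (root h)).length, ?_, ?_⟩
  · intro i
    simp only [full, List.length_append, List.length_cons, List.length_replicate, List.length_nil]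
    omega
  · have h1 := length_treeT (m := m) h (root h)
    rw [length_initT]
    have h2 : 2 ^ m * (1 + m) ≤ 2 ^ (3 * m) * (1 + 3 * m) :=
      Nat.mul_le_mul (Nat.pow_le_pow_right (by norm_num) (by omega)) (by omega)
    have h3 : 1 * (2 ^ (3 * m) * (1 + 3 * m) + 1) ≤ 2 ^ h * (2 ^ (3 * m) * (1 + 3 * m) + 1) :=
      Nat.mul_le_mul_right _ Nat.one_le_two_pow
    have h4 : 2 ^ h * (4 * (2 ^ (3 * m) * (1 + 3 * m) + 1)) =
        2 ^ h * (2 * (2 ^ (3 * m) * (1 + 3 * m) + 1)) +
        2 * (2 ^ h * (2 ^ (3 * m) * (1 + 3 * m) + 1)) := by ring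
    omega

end Pool.Agent.T9h47.MN
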