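import Mathlib
import Pool.Agent.T9h47.MN.Red

/-!
# Nondeterministic branching programs over a finite alphabet
-/

set_option autoImplicit false

namespace Pool.Agent.T9h47.MN

open Finset

/-- A nondeterministic branching program for words of length `n` over the alphabet `Γ`: a finite
directed multigraph (loops and cycles are allowed) with a start vertex and a final vertex, in which
every edge `e` carries a condition `guard e` on the input word. -/
structure Program (Γ : Type) (n : ℕ) where
  /-- vertices -/
  V : Type
  /-- edges -/
  E : Type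
  /-- there are finitely many edges -/
  fin : Fintype E
  /-- start of an edge -/
  src : E → V
  /-- end of an edge -/
  dst : E → V
  /-- start vertex -/
  start : V
  /-- final vertex -/
  final : V
  /-- the condition on the input word -/
  guard : E → (Fin n → Γ) → Prop

variable {Γ : Type} {n : ℕ}

/-- The size is the number of edges. -/
def Program.size (P : Program Γ n) : ℕ := @Fintype.card P.E P.fin

/-- The word `x` is accepted if there is a walk from the start vertex to the final vertex all of
whose edges have conditions which hold for `x`. -/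
def Program.Accepts (P : Program Γ n) (x : Fin n → Γ) : Prop :=
  Relation.ReflTransGen (fun u v => ∃ e, P.src e = u ∧ P.dst e = v ∧ P.guard e x) P.start P.final

/-- The program recognizes `L` on words of length `n`. -/
def Program.Recognizes (P : Program Γ n) (L : Language Γ) : Prop :=
  ∀ x : Fin n → Γ, P.Accepts x ↔ List.ofFn x ∈ L

/-- All conditions are monotone with respect to the order of the letters. -/
def Program.Monotone [PartialOrder Γ] (P : Program Γ n) : Prop :=
  ∀ e (x y : Fin n → Γ), (∀ j, x j ≤ y j) → P.guard e x → P.guard e y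

/-- The condition of every edge depends on at most `r` letters of the word. -/
def Program.Reads (P : Program Γ n) (r : ℝ) : Prop :=
  ∀ e, ∃ J : Finset (Fin n), (J.card : ℝ) ≤ r ∧
    ∀ x y : Fin n → Γ, (∀ j ∈ J, x j = y j) → (P.guard e x ↔ P.guard e y)

section red

variable {h m i : ℕ}

/-- the word for a set of variables -/
noncomputable def wrd (hn : (full h m i).length = n) (x : Set (Var h (Lb m))) : Fin n → Ltr :=
  fun j => ev x ((full h m i).get (j.cast hn.symm))

theorem ofFn_wrd (hn : (full h m i).length = n) (x : Set (Var h (Lb m))) :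
    List.ofFn (wrd hn x) = (full h m i).map (ev x) := by
  subst hn
  unfold wrd
  apply List.ext_get
  · simp
  · intro k h1 h2
    simp

theorem ev_mono {x y : Set (Var h (Lb m))} (hxy : x ⊆ y) (c : TL h m) : ev x c ≤ ev y c := by
  cases c with
  | inl c => exact le_rfl
  | inr q =>
    unfold ev
    by_cases h1 : q ∈ x
    · simp [h1, hxy h1]
    · simp only [h1, if_false]
      split_ifs
      · exact Or.inr ⟨rfl, rfl⟩
      · exact le_rfl

/-- the network of a program -/
noncomputable def toNet (P : Program Ltr n) (hn : (full h m i).length = n) : Net (Var h (Lb m)) where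
  V := P.V
  E := P.E
  src := P.src
  dst := P.dst
  s := P.start
  t := P.final
  guard := fun e x => P.guard e (wrd hn x)

theorem toNet_reach (P : Program Ltr n) (hn : (full h m i).length = n)
    (x : Set (Var h (Lb m))) : (toNet P hn).Reach x (toNet P hn).t ↔ P.Accepts (wrd hn x) := Iff.rfl

open Classical in
theorem toNet_dep (P : Program Ltr n) (hn : (full h m i).length = n) (e : P.E)
    (J : Finset (Fin n)) (hJ : ∀ x y : Fin n → Ltr, (∀ j ∈ J, x j = y j) →
      (P.guard e x ↔ P.guard e y)) :
    ∃ I : Finset (Var h (Lb m)), I.card ≤ J.card ∧ DepOn ((toNet P hn).guard e) I := by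
  refine ⟨J.biUnion (fun j => match (full h m i).get (j.cast hn.symm) with
    | Sum.inl _ => ∅
    | Sum.inr q => {q}), ?_, ?_⟩
  · refine (card_biUnion_le_card_mul _ _ 1 ?_).trans (by simp)
    intro j _
    cases (full h m i).get (j.cast hn.symm) with
    | inl _ => simp
    | inr q => simp
  · intro x y hxy
    refine hJ _ _ ?_
    intro j hj
    unfold wrd
    cases hc : (full h m i).get (j.cast hn.symm) with
    | inl _ => rfl
    | inr q =>
      have h1 : q ∈ x ↔ q ∈ y := by
        have h2 : q ∈ J.biUnion (fun j => match (full h m i).get (j.cast hn.symm) with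
            | Sum.inl _ => ∅
            | Sum.inr q => {q}) := by
          rw [mem_biUnion]
          exact ⟨j, hj, by rw [hc]; simp⟩
        have h3 := congrArg (fun S : Set (Var h (Lb m)) => q ∈ S) hxy
        simp only [Set.mem_inter_iff, mem_coe, h2, and_true, eq_iff_iff] at h3
        exact h3
      unfold ev
      simp only [h1]

theorem reduce (hh : 1 ≤ h) (P : Program Ltr n) (hn : (full h m i).length = n)
    (hmono : P.Monotone) (hrec : P.Recognizes Lg) {r : ℕ}
    (hloc : ∀ e, ∃ J : Finset (Fin n), J.card ≤ r ∧
      ∀ x y : Fin n → Ltr, (∀ j ∈ J, x j = y j) → (P.guard e x ↔ P.guard e y)) :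
    (toNet P hn).Mono ∧
    (∀ e, ∃ I : Finset (Var h (Lb m)), I.card ≤ r ∧ DepOn ((toNet P hn).guard e) I) ∧
    (∀ l : Nd h → Lb m, (toNet P hn).Reach (posT l) (toNet P hn).t) ∧
    (∀ χ, ¬ (toNet P hn).Reach (negT χ) (toNet P hn).t) := by
  classical
  refine ⟨?_, ?_, ?_, ?_⟩
  · intro e x y hxy hx
    exact hmono e _ _ (fun j => ev_mono hxy _) hx
  · intro e
    obtain ⟨J, hJ1, hJ2⟩ := hloc e
    obtain ⟨I, hI1, hI2⟩ := toNet_dep P hn e J hJ2
    exact ⟨I, hI1.trans hJ1, hI2⟩
  · intro l
    rw [toNet_reach, hrec, ofFn_wrd]
    exact full_pos i l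
  · intro χ
    rw [toNet_reach, hrec, ofFn_wrd]
    exact full_neg hh i χ

end red

end Pool.Agent.T9h47.MN
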