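import Mathlib
import Pool.Agent.T9h47.MN.Prog

/-!
# The choice of the parameters
-/

set_option autoImplicit false

namespace Pool.Agent.T9h47.MN

open Finset

theorem pow_half (K : ℕ) : (2 ^ K - 1) ^ (2 ^ K) * 2 ≤ (2 ^ K) ^ (2 ^ K) := by
  obtain ⟨x, hx⟩ : ∃ x, 2 ^ K = x + 1 := ⟨2 ^ K - 1, by have := Nat.one_le_two_pow (n := K); omega⟩
  rw [hx, Nat.add_sub_cancel]
  have h1 : (x : ℕ) ^ (x + 1) + (x + 1) * x ^ x ≤ (x + 1) ^ (x + 1) := by
    have h2 := add_pow (x : ℕ) 1 (x + 1)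
    rw [h2, sum_range_succ, sum_range_succ]
    simp
    rw [mul_comm]
    omega
  have h3 : x ^ (x + 1) ≤ (x + 1) * x ^ x := by
    rw [pow_succ, mul_comm]
    exact Nat.mul_le_mul_right _ (Nat.le_succ x)
  omega

theorem hC1_aux (K s : ℕ) : (2 ^ K - 1) ^ (2 ^ K * s) * 2 ^ s ≤ (2 ^ K) ^ (2 ^ K * s) := by
  rw [pow_mul, pow_mul, ← mul_pow]
  exact Nat.pow_le_pow_left (pow_half K) s

theorem hC1_num (a C E : ℕ) (ha : 1 ≤ a) (hE : E + 1 ≤ 2 ^ (a * a)) :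
    (E + 1) * ((2 ^ (64 * a + 1) * 2 ^ (64 * a * C) + 1) ^ (7 * a) * 2 ^ (7 * a + 1)) *
      (4 ^ (7 * a) * (2 ^ (7 * a) - 1) ^ (2 ^ (7 * a) * ((448 * (C + 1) + 40) * (a * a)))) <
      (2 ^ (7 * a)) ^ (2 ^ (7 * a) * ((448 * (C + 1) + 40) * (a * a))) := by
  obtain ⟨s, hs⟩ : ∃ s, s = (448 * (C + 1) + 40) * (a * a) := ⟨_, rfl⟩
  rw [← hs]
  have h1 := hC1_aux (7 * a) s
  have h2 : (2 ^ (64 * a + 1) * 2 ^ (64 * a * C) + 1) ^ (7 * a) ≤
      2 ^ ((64 * a + 64 * a * C + 2) * (7 * a)) := by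
    rw [pow_mul 2 (64 * a + 64 * a * C + 2)]
    refine Nat.pow_le_pow_left ?_ _
    rw [← pow_add]
    have : 2 ^ (64 * a + 64 * a * C + 2) = 2 * 2 ^ (64 * a + 1 + 64 * a * C) := by ring
    have h3 : 1 ≤ 2 ^ (64 * a + 1 + 64 * a * C) := Nat.one_le_two_pow
    omega
  have h3 : (E + 1) * ((2 ^ (64 * a + 1) * 2 ^ (64 * a * C) + 1) ^ (7 * a) * 2 ^ (7 * a + 1)) *
      4 ^ (7 * a) < 2 ^ s := by
    calc (E + 1) * ((2 ^ (64 * a + 1) * 2 ^ (64 * a * C) + 1) ^ (7 * a) * 2 ^ (7 * a + 1)) *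
          4 ^ (7 * a)
        ≤ 2 ^ (a * a) * (2 ^ ((64 * a + 64 * a * C + 2) * (7 * a)) * 2 ^ (7 * a + 1)) *
          4 ^ (7 * a) :=
          Nat.mul_le_mul_right _ (Nat.mul_le_mul hE (Nat.mul_le_mul_right _ h2))
      _ = 2 ^ (a * a + ((64 * a + 64 * a * C + 2) * (7 * a) + (7 * a + 1)) + 2 * (7 * a)) := by
          rw [show (4 : ℕ) = 2 ^ 2 by norm_num, ← pow_mul, ← pow_add, ← pow_add, ← pow_add]
      _ < 2 ^ s := by
          refine Nat.pow_lt_pow_right (by norm_num) ?_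
          rw [hs]
          nlinarith [Nat.mul_le_mul ha ha, Nat.mul_le_mul_left a ha]
  have hpos : 0 < (2 ^ (7 * a) - 1) ^ (2 ^ (7 * a) * s) := by
    apply Nat.pow_pos
    have : 2 ^ 1 ≤ 2 ^ (7 * a) := Nat.pow_le_pow_right (by norm_num) (by omega)
    omega
  calc (E + 1) * ((2 ^ (64 * a + 1) * 2 ^ (64 * a * C) + 1) ^ (7 * a) * 2 ^ (7 * a + 1)) *
        (4 ^ (7 * a) * (2 ^ (7 * a) - 1) ^ (2 ^ (7 * a) * s))
      = (2 ^ (7 * a) - 1) ^ (2 ^ (7 * a) * s) * ((E + 1) * ((2 ^ (64 * a + 1) *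
        2 ^ (64 * a * C) + 1) ^ (7 * a) * 2 ^ (7 * a + 1)) * 4 ^ (7 * a)) := by ring
    _ < (2 ^ (7 * a) - 1) ^ (2 ^ (7 * a) * s) * 2 ^ s := Nat.mul_lt_mul_of_pos_left h3 hpos
    _ ≤ _ := h1

theorem beta_num (a C : ℕ) (ha : 1 ≤ a) (hC : 2 ≤ C) :
    2 * 2 ^ (64 * a + 1) * (7 * a) * (2 ^ (7 * a) * ((448 * (C + 1) + 40) * (a * a))) * 2 ^ a ≤
      2 ^ (64 * a * C) := by
  have h1 : 448 * (C + 1) + 40 ≤ 2 ^ 10 * 2 ^ C := by
    have : C < 2 ^ C := Nat.lt_two_pow_self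
    omega
  have h2 : a ≤ 2 ^ a := Nat.lt_two_pow_self.le
  have h3 : 7 * a ≤ 2 ^ 3 * 2 ^ a := by omega
  have h4 : a * a ≤ 2 ^ a * 2 ^ a := Nat.mul_le_mul h2 h2
  calc 2 * 2 ^ (64 * a + 1) * (7 * a) * (2 ^ (7 * a) * ((448 * (C + 1) + 40) * (a * a))) * 2 ^ a
      ≤ 2 * 2 ^ (64 * a + 1) * (2 ^ 3 * 2 ^ a) * (2 ^ (7 * a) * ((2 ^ 10 * 2 ^ C) *
        (2 ^ a * 2 ^ a))) * 2 ^ a := by
        refine Nat.mul_le_mul_right _ ?_
        exact Nat.mul_le_mul (Nat.mul_le_mul_left _ h3)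
          (Nat.mul_le_mul_left _ (Nat.mul_le_mul h1 h4))
    _ = 2 ^ (75 * a + 15 + C) := by ring
    _ ≤ 2 ^ (64 * a * C) := by
        refine Nat.pow_le_pow_right (by norm_num) ?_
        nlinarith [Nat.mul_le_mul ha hC, Nat.mul_le_mul_left a hC, Nat.mul_le_mul_right C ha]

/-- the lower bound for one choice of the parameters -/
theorem lower (a C n i : ℕ) (ha : 2 ≤ a) (hC : 2 ≤ C) (P : Program Ltr n)
    (hn : (full (2 * (32 * a)) (64 * a * C) i).length = n)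
    (hmono : P.Monotone) (hrec : P.Recognizes Lg)
    (hloc : ∀ e, ∃ J : Finset (Fin n), J.card ≤ 2 ^ (192 * a * C - a) ∧
      ∀ x y : Fin n → Ltr, (∀ j ∈ J, x j = y j) → (P.guard e x ↔ P.guard e y)) :
    2 ^ (a * a) ≤ 16 * P.size := by
  by_contra hcon
  rw [not_le] at hcon
  obtain ⟨h1, h2, h3, h4⟩ := reduce (by omega) P hn hmono hrec hloc
  obtain ⟨t, ht⟩ : ∃ t, 3 * t + 1 = 4 ^ (32 * a) := by
    have h5 : 4 ^ (32 * a) % 3 = 1 := by rw [Nat.pow_mod]; norm_num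
    exact ⟨4 ^ (32 * a) / 3, by omega⟩
  have h44 : 4 ^ (32 * a) = 2 ^ (2 * (32 * a)) := by
    rw [pow_mul 2 2]; norm_num
  have hbig : 2 ^ 64 ≤ 2 ^ (2 * (32 * a)) := Nat.pow_le_pow_right (by norm_num) (by omega)
  have hE : P.size = @Fintype.card (toNet P hn).E P.fin := rfl
  have hLab : Fintype.card (Lb (64 * a * C)) = 2 ^ (64 * a * C) := by simp
  have h64 : 2 * (32 * a) = 64 * a := by ring
  have hNd : Fintype.card (Nd (2 * (32 * a))) = 2 ^ (64 * a + 1) := by rw [← h64]; simp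
  have hs16 : P.size + 1 ≤ 2 ^ (a * a) := by omega
  let _ : Fintype (toNet P hn).E := P.fin
  refine core (toNet P hn) a (2 * a) (2 ^ (7 * a) * ((448 * (C + 1) + 40) * (a * a))) h1 ?_
    (K := 7 * a) (t := t) (a := a) (r := 2 ^ (192 * a * C - a)) rfl (by omega) ?_ ?_ ?_ h2 h3 h4
    ?_ ?_ ?_ ?_
  · exact Nat.mul_pos (by positivity) (Nat.mul_pos (by omega) (Nat.mul_pos (by omega) (by omega)))
  · rw [h44] at ht; omega
  · rw [card_inner, ← h44]; rw [← h44] at hbig; omega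
  · intro α D hα hcr hcard
    have := iso (32 * a) t ht α D hα hcard hcr
    omega
  · rw [hLab]; positivity
  · rw [Fintype.card_prod, hLab, hNd, ← hE]
    exact hC1_num a C P.size (by omega) hs16
  · rw [hLab, hNd, div_le_one (by positivity)]
    have h5 := beta_num a C (by omega) hC
    have h6 : (2 * 2 ^ (64 * a + 1) * (7 * a) * (2 ^ (7 * a) * ((448 * (C + 1) + 40) * (a * a))) *
      2 ^ a : ℝ) ≤ 2 ^ (64 * a * C) := by exact_mod_cast h5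
    push_cast
    refine le_trans ?_ h6
    refine le_mul_of_one_le_right (by positivity) (one_le_pow₀ (by norm_num))
  · rw [hLab, hNd, ← hE]
    have h5 := beta_num a C (by omega) hC
    have h6 : (2 * 2 ^ (64 * a + 1) * (7 * a) * (2 ^ (7 * a) * ((448 * (C + 1) + 40) * (a * a))) *
      2 ^ a : ℝ) ≤ 2 ^ (64 * a * C) := by exact_mod_cast h5
    obtain ⟨β, hβ⟩ : ∃ β : ℝ, β = (2 * ((2 ^ (64 * a + 1) : ℕ) : ℝ) * ((7 * a : ℕ) : ℝ) *
      ((2 ^ (7 * a) * ((448 * (C + 1) + 40) * (a * a)) : ℕ) : ℝ)) /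
      ((2 ^ (64 * a * C) : ℕ) : ℝ) := ⟨_, rfl⟩
    rw [← hβ]
    have hβ0 : 0 ≤ β := by rw [hβ]; positivity
    have hβ1 : β ≤ 1 / 2 ^ a := by
      rw [hβ, div_le_div_iff₀ (by positivity) (by positivity), one_mul]
      push_cast
      exact h6
    have hpow : β ^ (a + 1) ≤ 1 / (2 ^ (a * a) * 2 ^ a) := by
      calc β ^ (a + 1) ≤ (1 / 2 ^ a) ^ (a + 1) := pow_le_pow_left₀ hβ0 hβ1 _
        _ = 1 / (2 ^ (a * a) * 2 ^ a) := by
          rw [div_pow, one_pow, ← pow_mul, mul_add, mul_one, pow_add]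
    have hr : (((2 ^ (192 * a * C - a) : ℕ) : ℝ) / (((2 ^ (64 * a * C) : ℕ) : ℝ)) ^ 3) ^ a =
        1 / 2 ^ (a * a) := by
      have h7 : ((2 ^ (192 * a * C - a) : ℕ) : ℝ) / (((2 ^ (64 * a * C) : ℕ) : ℝ)) ^ 3 =
          1 / 2 ^ a := by
        rw [div_eq_div_iff (by positivity) (by positivity)]
        push_cast
        rw [one_mul, ← pow_add, ← pow_mul]
        congr 1
        have h8 : a ≤ 192 * a * C := by nlinarith
        have h9 : 192 * a * C = 64 * a * C * 3 := by ring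
        rw [← h9]
        exact Nat.sub_add_cancel h8
      rw [h7, div_pow, one_pow, ← pow_mul]
    rw [hr]
    have ha2 : (a : ℝ) ≤ 2 ^ a := by exact_mod_cast Nat.lt_two_pow_self.le
    have hs : (16 * P.size : ℝ) < 2 ^ (a * a) := by exact_mod_cast hcon
    calc (P.size : ℝ) * (2 * ((7 * a : ℕ) : ℝ) * β ^ (a + 1) + 2 * (1 / 2 ^ (a * a)))
        ≤ (P.size : ℝ) * (14 * (1 / 2 ^ (a * a)) + 2 * (1 / 2 ^ (a * a))) := by
          refine mul_le_mul_of_nonneg_left ?_ (by positivity)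
          refine add_le_add_left ?_ _
          push_cast
          calc 2 * (7 * (a : ℝ)) * β ^ (a + 1)
              ≤ 2 * (7 * (2 ^ a)) * (1 / (2 ^ (a * a) * 2 ^ a)) := by
                refine mul_le_mul (by linarith) hpow (by positivity) (by positivity)
            _ = 14 * (1 / 2 ^ (a * a)) := by field_simp; norm_num
      _ = (16 * P.size : ℝ) / 2 ^ (a * a) := by ring
      _ < 1 := by rw [div_lt_one (by positivity)]; exact hs

end Pool.Agent.T9h47.MN
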