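import Mathlib
import Pool.Agent.T9h47.MN.Num

/-!
# The asymptotic form of the lower bound
-/

set_option autoImplicit false

namespace Pool.Agent.T9h47.MN

open Finset

theorem len_num (a C : ℕ) (ha : 10 + C ≤ a) (hC : 2 ≤ C) :
    2 ^ (2 * (32 * a)) * (4 * (2 ^ (3 * (64 * a * C)) * (1 + 3 * (64 * a * C)) + 1)) + 2 ≤
      2 ^ ((66 + 192 * C) * a) := by
  obtain ⟨X, hX⟩ : ∃ X, X = 2 ^ (2 * (32 * a)) * 2 ^ (3 * (64 * a * C)) := ⟨_, rfl⟩
  have h1 : 1 ≤ 2 ^ (2 * (32 * a)) := Nat.one_le_two_pow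
  have h2 : 1 ≤ 2 ^ (3 * (64 * a * C)) := Nat.one_le_two_pow
  have hX1 : 1 ≤ X := by rw [hX]; exact Nat.mul_pos h1 h2
  have hX2 : 2 ^ (2 * (32 * a)) ≤ X := by rw [hX]; exact Nat.le_mul_of_pos_right _ h2
  have haC : 1 ≤ a * C := Nat.mul_pos (by omega) (by omega)
  have hCle : C ≤ 2 ^ C := Nat.lt_two_pow_self.le
  have hale : a ≤ 2 ^ a := Nat.lt_two_pow_self.le
  calc 2 ^ (2 * (32 * a)) * (4 * (2 ^ (3 * (64 * a * C)) * (1 + 3 * (64 * a * C)) + 1)) + 2
      = 4 * (X * (1 + 192 * (a * C))) + 4 * 2 ^ (2 * (32 * a)) + 2 := by rw [hX]; ring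
    _ ≤ 4 * (X * (1 + 192 * (a * C))) + 4 * X + 2 * X := by omega
    _ = X * (10 + 768 * (a * C)) := by ring
    _ ≤ X * (1024 * (a * C)) := Nat.mul_le_mul_left _ (by omega)
    _ ≤ X * (1024 * (2 ^ a * 2 ^ C)) :=
        Nat.mul_le_mul_left _ (Nat.mul_le_mul_left _ (Nat.mul_le_mul hale hCle))
    _ = 2 ^ (65 * a + 192 * C * a + 10 + C) := by rw [hX]; ring
    _ ≤ 2 ^ ((66 + 192 * C) * a) := by
        refine Nat.pow_le_pow_right (by norm_num) ?_
        have : (66 + 192 * C) * a = 66 * a + 192 * C * a := by ring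
        omega

/-- the size of the conditions -/
theorem read_num (δ : ℝ) (C a n : ℕ) (hC : 2 ≤ C) (hδ : 1 ≤ C * δ) (ha : 2 * C ≤ a)
    (hn1 : 1 ≤ n) (hn : n ≤ 2 ^ ((66 + 192 * C) * (a + 1))) :
    (n : ℝ) ^ (1 - δ) ≤ ((2 ^ (192 * a * C - a) : ℕ) : ℝ) := by
  have hC0 : (0 : ℝ) < C := by exact_mod_cast (by omega : 0 < C)
  have hC2 : (2 : ℝ) ≤ C := by exact_mod_cast hC
  have haC : (2 : ℝ) * C ≤ a := by exact_mod_cast ha
  have h1 : 1 / (C : ℝ) ≤ δ := by rw [div_le_iff₀ hC0, mul_comm]; exact hδ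
  have h2 : (1 : ℝ) / C ≤ 1 := by rw [div_le_one hC0]; linarith
  have hn' : (1 : ℝ) ≤ n := by exact_mod_cast hn1
  have hle : a ≤ 192 * a * C := by nlinarith
  calc (n : ℝ) ^ (1 - δ) ≤ (n : ℝ) ^ (1 - 1 / (C : ℝ)) :=
        Real.rpow_le_rpow_of_exponent_le hn' (by linarith)
    _ ≤ ((2 : ℝ) ^ (((66 + 192 * C) * (a + 1) : ℕ) : ℝ)) ^ (1 - 1 / (C : ℝ)) := by
        refine Real.rpow_le_rpow (by linarith) ?_ (by linarith)
        rw [Real.rpow_natCast]
        exact_mod_cast hn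
    _ = (2 : ℝ) ^ ((((66 + 192 * C) * (a + 1) : ℕ) : ℝ) * (1 - 1 / (C : ℝ))) := by
        rw [← Real.rpow_mul (by norm_num)]
    _ ≤ (2 : ℝ) ^ (((192 * a * C - a : ℕ) : ℕ) : ℝ) := by
        refine Real.rpow_le_rpow_of_exponent_le (by norm_num) ?_
        rw [Nat.cast_sub hle]
        push_cast
        have h3 : (66 + 192 * (C : ℝ)) * (a + 1) * (1 - 1 / C) =
            (192 * C - 126 - 66 / C) * (a + 1) := by
          field_simp
          ring
        rw [h3]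
        have h4 : (0 : ℝ) ≤ 66 / C := by positivity
        have h5 : (0 : ℝ) ≤ a + 1 := by positivity
        nlinarith
    _ = ((2 ^ (192 * a * C - a) : ℕ) : ℝ) := by
        rw [Real.rpow_natCast]; push_cast; rfl

/-- Every program for the language has quasipolynomial size. -/
theorem main_bound (δ : ℝ) (hδ : 0 < δ) : ∃ c : ℝ, 0 < c ∧ ∃ n₀ : ℕ, ∀ n ≥ n₀,
    ∀ P : Program Ltr n, P.Monotone → P.Reads ((n : ℝ) ^ (1 - δ)) → P.Recognizes Lg →
      (n : ℝ) ^ (c * Real.log n) ≤ P.size := by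
  obtain ⟨C, hC, hCδ⟩ : ∃ C : ℕ, 2 ≤ C ∧ 1 ≤ C * δ := by
    obtain ⟨C, hC⟩ := exists_nat_ge (1 / δ)
    refine ⟨max 2 C, le_max_left _ _, ?_⟩
    rw [div_le_iff₀ hδ] at hC
    refine hC.trans (mul_le_mul_of_nonneg_right ?_ hδ.le)
    exact_mod_cast le_max_right _ _
  obtain ⟨M, hM⟩ : ∃ M, M = 66 + 192 * C := ⟨_, rfl⟩
  have hM0 : 0 < M := by omega
  have hMr : (0 : ℝ) < M := by exact_mod_cast hM0
  refine ⟨1 / (8 * (M : ℝ) ^ 2), by positivity, 2 ^ (M * (10 + 3 * C)), ?_⟩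
  intro n hn P hmono hreads hrec
  have hnpos : 0 < n := lt_of_lt_of_le (by positivity) hn
  obtain ⟨a, ha⟩ : ∃ a, a = Nat.log 2 n / M := ⟨_, rfl⟩
  have hlog : M * (10 + 3 * C) ≤ Nat.log 2 n := Nat.le_log_of_pow_le (by norm_num) hn
  have ha1 : 10 + 3 * C ≤ a := by
    rw [ha, Nat.le_div_iff_mul_le hM0, mul_comm]; exact hlog
  have hlow : 2 ^ (M * a) ≤ n := by
    refine Nat.pow_le_of_le_log (by omega) ?_
    rw [ha]; exact Nat.mul_div_le _ _
  have hup : n ≤ 2 ^ (M * (a + 1)) := by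
    have h1 : n < 2 ^ (Nat.log 2 n + 1) := Nat.lt_pow_succ_log_self (by norm_num) n
    refine h1.le.trans (Nat.pow_le_pow_right (by norm_num) ?_)
    have h2 := Nat.lt_mul_div_succ (Nat.log 2 n) hM0
    rw [← ha] at h2
    exact h2
  obtain ⟨n₁, h1, h2⟩ := length_full (2 * (32 * a)) (64 * a * C)
  have h3 : n₁ + 2 ≤ n := by
    have := len_num a C (by omega) hC
    rw [← hM] at this
    omega
  have h4 : (full (2 * (32 * a)) (64 * a * C) (n - n₁ - 2)).length = n := by rw [h1]; omega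
  have key := lower a C n (n - n₁ - 2) (by omega) hC P h4 hmono hrec (by
    intro e
    obtain ⟨J, hJ1, hJ2⟩ := hreads e
    refine ⟨J, ?_, hJ2⟩
    have h5 := hJ1.trans (read_num δ C a n hC hCδ (by omega) hnpos (by rw [← hM]; exact hup))
    exact_mod_cast h5)
  have hnr : (0 : ℝ) < n := by exact_mod_cast hnpos
  have hl2 : 0 < Real.log 2 := Real.log_pos (by norm_num)
  have hl2' : Real.log 2 < 1 := by
    have := Real.log_two_lt_d9
    linarith
  have har : (3 : ℝ) ≤ a := by exact_mod_cast (by omega : 3 ≤ a)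
  have hlogn : Real.log n ≤ 2 * M * a * Real.log 2 := by
    have h5 : (n : ℝ) ≤ 2 ^ (M * (a + 1)) := by exact_mod_cast hup
    have h6 := Real.log_le_log hnr h5
    rw [Real.log_pow] at h6
    refine h6.trans (mul_le_mul_of_nonneg_right ?_ hl2.le)
    push_cast
    nlinarith
  have hlogn0 : 0 ≤ Real.log n := Real.log_nonneg (by exact_mod_cast hnpos)
  have hexp : Real.log n * (1 / (8 * (M : ℝ) ^ 2) * Real.log n) ≤
      ((a : ℝ) ^ 2 - 4) * Real.log 2 := by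
    have h5 : Real.log n * Real.log n ≤ (2 * M * a * Real.log 2) * (2 * M * a * Real.log 2) :=
      mul_le_mul hlogn hlogn hlogn0 (hlogn0.trans hlogn)
    calc Real.log n * (1 / (8 * (M : ℝ) ^ 2) * Real.log n)
        = (Real.log n * Real.log n) / (8 * (M : ℝ) ^ 2) := by ring
      _ ≤ ((2 * M * a * Real.log 2) * (2 * M * a * Real.log 2)) / (8 * (M : ℝ) ^ 2) :=
          div_le_div_of_nonneg_right h5 (by positivity)
      _ = ((a : ℝ) ^ 2 / 2 * Real.log 2) * Real.log 2 := by field_simp; norm_num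
      _ ≤ ((a : ℝ) ^ 2 / 2 * Real.log 2) * 1 :=
          mul_le_mul_of_nonneg_left hl2'.le (by positivity)
      _ ≤ ((a : ℝ) ^ 2 - 4) * Real.log 2 := by
          rw [mul_one]
          refine mul_le_mul_of_nonneg_right ?_ hl2.le
          nlinarith
  calc (n : ℝ) ^ (1 / (8 * (M : ℝ) ^ 2) * Real.log n)
      = Real.exp (Real.log n * (1 / (8 * (M : ℝ) ^ 2) * Real.log n)) :=
        Real.rpow_def_of_pos hnr _
    _ ≤ Real.exp (((a : ℝ) ^ 2 - 4) * Real.log 2) := Real.exp_le_exp.2 hexp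
    _ = 2 ^ (a * a) / 16 := by
        rw [mul_comm, ← Real.rpow_def_of_pos (by norm_num), Real.rpow_sub (by norm_num)]
        congr 1
        · rw [show ((a : ℝ) ^ 2) = ((a * a : ℕ) : ℝ) by push_cast; ring, Real.rpow_natCast]
        · norm_num
    _ ≤ P.size := by
        rw [div_le_iff₀ (by norm_num), mul_comm (P.size : ℝ)]
        exact_mod_cast key

end Pool.Agent.T9h47.MN
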