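import Mathlib
import Pool.Agent.Helper336.CF

/-!
# Context-free languages and finite substitutions
-/

set_option autoImplicit false

namespace Pool.Agent.T9h47.MN

open Finset Pool.Agent.Helper336.CF

variable {T T' : Type}

/-- `w` arises from `u` if each letter `t` is replaced by a word in `F t` -/
def Sb (F : T → Set (List T')) : List T → List T' → Prop
  | [], w => w = []
  | t :: u, w => ∃ v w', w = v ++ w' ∧ v ∈ F t ∧ Sb F u w'

theorem Sb_append (F : T → Set (List T')) (u₁ u₂ : List T) (w : List T') :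
    Sb F (u₁ ++ u₂) w ↔ ∃ w₁ w₂, w = w₁ ++ w₂ ∧ Sb F u₁ w₁ ∧ Sb F u₂ w₂ := by
  induction u₁ generalizing w with
  | nil =>
    simp only [List.nil_append, Sb]
    constructor
    · intro h; exact ⟨[], w, rfl, rfl, h⟩
    · rintro ⟨w₁, w₂, rfl, rfl, h⟩; exact h
  | cons t u ih =>
    simp only [List.cons_append, Sb, ih]
    constructor
    · rintro ⟨v, w', rfl, hv, w₁, w₂, rfl, h1, h2⟩
      exact ⟨v ++ w₁, w₂, by simp, ⟨v, w₁, rfl, hv, h1⟩, h2⟩
    · rintro ⟨w₁, w₂, rfl, ⟨v, w', rfl, hv, h1⟩, h2⟩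
      exact ⟨v, w' ++ w₂, by simp, hv, w', w₂, rfl, h1, h2⟩

/-- replace terminals by nonterminals -/
def lft {N : Type} : Symbol T N → Symbol T' (N ⊕ T)
  | Symbol.terminal t => Symbol.nonterminal (Sum.inr t)
  | Symbol.nonterminal A => Symbol.nonterminal (Sum.inl A)

open Classical in
/-- the rules of the substitution -/
noncomputable def sbR [Fintype T] (g : ContextFreeGrammar T) (F : T → Finset (List T')) :
    Finset (ContextFreeRule T' (g.NT ⊕ T)) :=
  (g.rules.image (fun r => ⟨Sum.inl r.input, r.output.map lft⟩)) ∪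
    (univ.biUnion (fun t => (F t).image (fun v => ⟨Sum.inr t, v.map Symbol.terminal⟩)))

theorem mem_sbR [Fintype T] (g : ContextFreeGrammar T) (F : T → Finset (List T'))
    (r : ContextFreeRule T' (g.NT ⊕ T)) : r ∈ sbR g F ↔
      (∃ r' ∈ g.rules, r = ⟨Sum.inl r'.input, r'.output.map lft⟩) ∨
      (∃ t, ∃ v ∈ F t, r = ⟨Sum.inr t, v.map Symbol.terminal⟩) := by
  classical
  unfold sbR
  simp only [mem_union, mem_biUnion, mem_image, mem_univ, true_and, eq_comm]

/-- the grammar of the substitution -/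
noncomputable def sbG [Fintype T] (g : ContextFreeGrammar T) (F : T → Finset (List T')) :
    ContextFreeGrammar T' where
  NT := g.NT ⊕ T
  initial := Sum.inl g.initial
  rules := sbR g F

theorem sb_cf [Fintype T] (L : Language T) (hL : L.IsContextFree) (F : T → Finset (List T')) :
    IsCF {w : List T' | ∃ u ∈ L, Sb (fun t => (F t : Set (List T'))) u w} := by
  classical
  obtain ⟨g, rfl⟩ := hL
  refine ⟨sbG g F, ?_⟩
  obtain ⟨FF, hFF⟩ : ∃ FF : T → Set (List T'), FF = fun t => (F t : Set (List T')) := ⟨_, rfl⟩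
  rw [← hFF]
  obtain ⟨S, hS⟩ : ∃ S : g.NT ⊕ T → Set (List T'), S = fun x => match x with
    | Sum.inl A => {w | ∃ u ∈ Gen g A, Sb FF u w}
    | Sum.inr t => FF t := ⟨_, rfl⟩
  have hSl : ∀ A, S (Sum.inl A) = {w | ∃ u ∈ Gen g A, Sb FF u w} := fun A => by rw [hS]
  have hSr : ∀ t, S (Sum.inr t) = FF t := fun t => by rw [hS]
  have key : ∀ (α : List (Symbol T g.NT)) (w : List T'), Comp S (α.map lft) w →
      ∃ u, Comp (Gen g) α u ∧ Sb FF u w := by
    intro α
    induction α with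
    | nil => intro w hw; exact ⟨[], rfl, hw⟩
    | cons s α ih =>
      intro w hw
      cases s with
      | terminal t =>
        obtain ⟨w₁, w₂, rfl, h1, h2⟩ := hw
        obtain ⟨u, h3, h4⟩ := ih _ h2
        rw [hSr] at h1
        exact ⟨t :: u, ⟨u, rfl, h3⟩, w₁, w₂, rfl, h1, h4⟩
      | nonterminal A =>
        obtain ⟨w₁, w₂, rfl, h1, h2⟩ := hw
        obtain ⟨u, h3, h4⟩ := ih _ h2
        rw [hSl] at h1
        obtain ⟨u', h5, h6⟩ := h1
        exact ⟨u' ++ u, ⟨u', u, rfl, h5, h3⟩, (Sb_append _ _ _ _).2 ⟨w₁, w₂, rfl, h6, h4⟩⟩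
  have key2 : ∀ (t : T) (v : List T'), v ∈ FF t → v ∈ Gen (sbG g F) (Sum.inr t) := by
    intro t v hv
    rw [hFF] at hv
    exact gen_of_rule (sbG g F) ⟨Sum.inr t, v.map Symbol.terminal⟩
      ((mem_sbR g F _).2 (Or.inr ⟨t, v, hv, rfl⟩)) v ((comp_map_terminal _ _ _).2 rfl)
  have key4 : ∀ (α : List (Symbol T g.NT)) (u : List T),
      Comp (fun A : g.NT => {u | ∀ w, Sb FF u w → w ∈ Gen (sbG g F) (Sum.inl A)}) α u →
      ∀ w, Sb FF u w → Comp (Gen (sbG g F)) (α.map lft) w := by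
    intro α
    induction α with
    | nil =>
      intro u hu w hw
      simp only [Comp] at hu
      subst hu
      exact hw
    | cons s α ih =>
      intro u hu w hw
      cases s with
      | terminal t =>
        obtain ⟨u', rfl, h3⟩ := hu
        obtain ⟨v, w', rfl, h4, h5⟩ := hw
        exact ⟨v, w', rfl, key2 t v h4, ih _ h3 _ h5⟩
      | nonterminal A =>
        obtain ⟨u₁, u₂, rfl, h3, h4⟩ := hu
        rw [Sb_append] at hw
        obtain ⟨w₁, w₂, rfl, h5, h6⟩ := hw
        exact ⟨w₁, w₂, rfl, h3 _ h5, ih _ h4 _ h6⟩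
  ext w
  refine (language_eq (sbG g F) S ?_ ?_ w).trans ?_
  · intro r hr w hw
    rcases (mem_sbR g F r).1 hr with ⟨r', hr', rfl⟩ | ⟨t, v, hv, rfl⟩
    · obtain ⟨u, h1, h2⟩ := key _ _ hw
      simp only
      rw [hSl]
      exact ⟨u, gen_of_rule g r' hr' u h1, h2⟩
    · have := (comp_map_terminal S v w).1 hw
      subst this
      simp only
      rw [hSr, hFF]
      exact hv
  · intro w hw
    have hw' : w ∈ S (Sum.inl g.initial) := hw
    rw [hSl] at hw'
    obtain ⟨u, h1, h2⟩ := hw'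
    have key3 : Comp (fun A : g.NT => {u | ∀ w, Sb FF u w → w ∈ Gen (sbG g F) (Sum.inl A)})
        [Symbol.nonterminal g.initial] u := by
      refine comp_of_derives g _ ?_ _ _ h1
      intro r hr u hu w hw
      exact gen_of_rule (sbG g F) ⟨Sum.inl r.input, r.output.map lft⟩
        ((mem_sbR g F _).2 (Or.inl ⟨r, hr, rfl⟩)) w (key4 _ _ hu _ hw)
    obtain ⟨u₁, u₂, rfl, h3, h4⟩ := key3
    simp only [Comp] at h4
    subst h4
    rw [List.append_nil] at h2
    exact h3 _ h2
  · show w ∈ S (Sum.inl g.initial) ↔ _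
    rw [hSl]
    rfl

end Pool.Agent.T9h47.MN
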