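import Mathlib
import Pool.Agent.T9h47.MN.Sub
import Pool.Agent.T9h47.MN.Asym

/-!
# The binary alphabet
-/

set_option autoImplicit false

namespace Pool.Agent.T9h47.MN

open Finset Ltr St Pool.Agent.Helper336.CF

/-- The code of a letter: `no` is below `yes`, and all other pairs are incomparable. -/
def cd : Ltr → List Bool
  | yes => [true, true, false, false, false]
  | no => [true, false, false, false, false]
  | sep => [false, true, true, false, false]
  | opn false => [false, true, false, true, false]
  | opn true => [false, true, false, false, true]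
  | cls false => [false, false, true, true, false]
  | cls true => [false, false, true, false, true]

theorem cd_length (c : Ltr) : (cd c).length = 5 := by
  rcases c with _ | _ | _ | b | b
  · rfl
  · rfl
  · rfl
  · cases b <;> rfl
  · cases b <;> rfl

theorem cd_le (c c' : Ltr) (h : List.Forall₂ (· ≤ ·) (cd c) (cd c')) : c ≤ c' := by
  rw [le_iff]
  rcases c with _ | _ | _ | b | b <;> rcases c' with _ | _ | _ | b' | b' <;>
    first | (left; rfl) | (right; exact ⟨rfl, rfl⟩) | skip
  all_goals try cases b
  all_goals try cases b'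
  all_goals first
    | (left; rfl)
    | (exfalso; simp [cd] at h; exact absurd h (by decide))

/-- the word of the codes -/
def cdw (u : List Ltr) : List Bool := u.flatMap cd

theorem cdw_length (u : List Ltr) : (cdw u).length = 5 * u.length := by
  induction u with
  | nil => rfl
  | cons c u ih =>
    simp only [cdw, List.flatMap_cons, List.length_append, cd_length, List.length_cons] at ih ⊢
    omega

theorem forall₂_split {A B : Type} {R : A → B → Prop} : ∀ (a : List A) (c : List B) (b : List A)
    (d : List B), a.length = c.length → List.Forall₂ R (a ++ b) (c ++ d) →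
    List.Forall₂ R a c ∧ List.Forall₂ R b d := by
  intro a
  induction a with
  | nil =>
    intro c b d h1 h2
    have : c = [] := List.eq_nil_of_length_eq_zero h1.symm
    subst this
    exact ⟨List.Forall₂.nil, h2⟩
  | cons x a ih =>
    intro c b d h1 h2
    cases c with
    | nil => simp at h1
    | cons y c =>
      simp only [List.cons_append, List.forall₂_cons] at h2
      simp only [List.length_cons, Nat.add_right_cancel_iff] at h1
      obtain ⟨h3, h4⟩ := ih c b d h1 h2.2
      exact ⟨List.Forall₂.cons h2.1 h3, h4⟩

theorem cdw_le : ∀ (u u' : List Ltr), List.Forall₂ (· ≤ ·) (cdw u) (cdw u') →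
    List.Forall₂ (· ≤ ·) u u' := by
  intro u
  induction u with
  | nil =>
    intro u' h
    have h1 := h.length_eq
    rw [cdw_length, cdw_length] at h1
    have : u' = [] := List.eq_nil_of_length_eq_zero (by rw [List.length_nil] at h1; omega)
    subst this
    exact List.Forall₂.nil
  | cons c u ih =>
    intro u' h
    cases u' with
    | nil =>
      have h1 := h.length_eq
      rw [cdw_length, cdw_length] at h1
      simp at h1
    | cons c' u' =>
      simp only [cdw, List.flatMap_cons] at h
      obtain ⟨h1, h2⟩ := forall₂_split _ _ _ _ (by rw [cd_length, cd_length]) h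
      exact List.Forall₂.cons (cd_le _ _ h1) (ih u' h2)

/-- The language over the binary alphabet: words `v z` where `z` has less than five letters and `v`
dominates the code of a word of `Lg`. -/
def LB : Language Bool := {w | ∃ u ∈ Lg, ∃ v z, w = v ++ z ∧ z.length < 5 ∧
  List.Forall₂ (· ≤ ·) (cdw u) v}

open Classical in
/-- words above the code of a letter -/
noncomputable def up (c : Ltr) : Finset (List Bool) :=
  ((univ : Finset (Fin 5 → Bool)).image List.ofFn).filter (fun v => List.Forall₂ (· ≤ ·) (cd c) v)

theorem mem_up (c : Ltr) (v : List Bool) : v ∈ up c ↔ List.Forall₂ (· ≤ ·) (cd c) v := by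
  classical
  unfold up
  rw [mem_filter, mem_image]
  constructor
  · exact fun h => h.2
  · intro h
    refine ⟨?_, h⟩
    have h1 := h.length_eq
    rw [cd_length] at h1
    exact ⟨fun i => v.get (i.cast h1), mem_univ _,
      (List.ofFn_congr h1.symm v.get).symm.trans (List.ofFn_get v)⟩

theorem Sb_up (u : List Ltr) (w : List Bool) :
    Sb (fun c => (up c : Set (List Bool))) u w ↔ List.Forall₂ (· ≤ ·) (cdw u) w := by
  induction u generalizing w with
  | nil => simp [Sb, cdw]
  | cons c u ih =>
    simp only [Sb, mem_coe, mem_up, ih, cdw, List.flatMap_cons]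
    constructor
    · rintro ⟨v, w', rfl, h1, h2⟩
      exact List.rel_append h1 h2
    · intro h
      have h1 := h.length_eq
      rw [List.length_append, cd_length] at h1
      have h2 : w = w.take 5 ++ w.drop 5 := (List.take_append_drop 5 w).symm
      rw [h2] at h
      obtain ⟨h3, h4⟩ := forall₂_split _ _ _ _ (by rw [cd_length, List.length_take]; omega) h
      exact ⟨_, _, h2, h3, h4⟩

open Classical in
/-- short words -/
noncomputable def sh : Finset (List Bool) :=
  (range 5).biUnion (fun k => (univ : Finset (Fin k → Bool)).image List.ofFn)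

theorem mem_sh (z : List Bool) : z ∈ sh ↔ z.length < 5 := by
  classical
  unfold sh
  rw [mem_biUnion]
  constructor
  · rintro ⟨k, hk, hz⟩
    rw [mem_image] at hz
    obtain ⟨f, _, rfl⟩ := hz
    simpa using hk
  · intro h
    refine ⟨z.length, mem_range.2 h, ?_⟩
    rw [mem_image]
    exact ⟨z.get, mem_univ _, List.ofFn_get z⟩

theorem LB_cf : LB.IsContextFree := by
  have h := cf_cat (sb_cf Lg Lg_cf up) (cf_finite sh)
  have : (LB : Set (List Bool)) = cat {w | ∃ u ∈ Lg, Sb (fun c => (up c : Set (List Bool))) u w}
      {w | w ∈ sh} := by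
    ext w
    constructor
    · rintro ⟨u, hu, v, z, rfl, hz, h1⟩
      exact ⟨v, ⟨u, hu, (Sb_up _ _).2 h1⟩, z, (mem_sh z).2 hz, rfl⟩
    · rintro ⟨v, ⟨u, hu, h1⟩, z, hz, rfl⟩
      exact ⟨u, hu, v, z, rfl, (mem_sh z).1 hz, (Sb_up _ _).1 h1⟩
  have h2 : IsCF (LB : Set (List Bool)) := by rw [this]; exact h
  exact h2

theorem LB_up {w w' : List Bool} (hw : List.Forall₂ (· ≤ ·) w w') (h : w ∈ LB) : w' ∈ LB := by
  obtain ⟨u, hu, v, z, rfl, hz, h1⟩ := h
  have h2 : w' = w'.take v.length ++ w'.drop v.length := (List.take_append_drop _ _).symm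
  have h3 := hw.length_eq
  rw [List.length_append] at h3
  rw [h2] at hw
  obtain ⟨h4, h5⟩ := forall₂_split _ _ _ _ (by rw [List.length_take]; omega) hw
  refine ⟨u, hu, _, _, h2, by rw [← h5.length_eq]; exact hz, ?_⟩
  have htr : ∀ (a b c : List Bool), List.Forall₂ (· ≤ ·) a b → List.Forall₂ (· ≤ ·) b c →
      List.Forall₂ (· ≤ ·) a c := by
    intro a b c hab hbc
    induction hab generalizing c with
    | nil => exact hbc
    | cons h _ ih =>
      cases hbc with
      | cons h' hbc' => exact List.Forall₂.cons (h.trans h') (ih _ hbc')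
  exact htr _ _ _ h1 h4

theorem mem_LB (u : List Ltr) (z : List Bool) (hz : z.length < 5) : cdw u ++ z ∈ LB ↔ u ∈ Lg := by
  constructor
  · rintro ⟨u', hu', v, z', h1, hz', h2⟩
    have h3 := congrArg List.length h1
    have h4 := h2.length_eq
    rw [List.length_append, List.length_append, cdw_length] at h3
    rw [cdw_length] at h4
    have h5 : u'.length = u.length := by omega
    have h6 := List.append_inj h1 (by rw [cdw_length]; omega)
    rw [← h6.1] at h2
    exact Rn_mono (cdw_le _ _ h2) _ _ _ _ hu'
  · intro h
    exact ⟨u, h, cdw u, z, rfl, hz, List.forall₂_refl _⟩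

/-! ### Programs -/

theorem cdw_get (u : List Ltr) (j : ℕ) :
    (cdw u)[j]? = (u[j / 5]?).bind (fun c => (cd c)[j % 5]?) := by
  induction u generalizing j with
  | nil => simp [cdw]
  | cons c u ih =>
    simp only [cdw, List.flatMap_cons] at ih ⊢
    by_cases hj : j < 5
    · rw [List.getElem?_append_left (by rw [cd_length]; exact hj)]
      have h1 : j / 5 = 0 := by omega
      have h2 : j % 5 = j := by omega
      rw [h1, h2]
      rfl
    · rw [List.getElem?_append_right (by rw [cd_length]; omega), cd_length, ih]
      have h1 : j / 5 = (j - 5) / 5 + 1 := by omega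
      have h2 : j % 5 = (j - 5) % 5 := by omega
      rw [h1, h2]
      rfl

/-- the encoded word -/
def enc {n' : ℕ} (n : ℕ) (x : Fin n' → Ltr) (j : Fin n) : Bool :=
  if hj : j.val / 5 < n' then ((cd (x ⟨j.val / 5, hj⟩))[j.val % 5]?).getD false else false

theorem ofFn_enc {n' s n : ℕ} (hn : n = 5 * n' + s) (x : Fin n' → Ltr) :
    List.ofFn (enc n x) = cdw (List.ofFn x) ++ List.replicate s false := by
  apply List.ext_getElem?
  intro j
  rw [List.getElem?_ofFn]
  by_cases hj : j < n
  · rw [dif_pos hj]
    unfold enc
    by_cases hj' : j / 5 < n'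
    · rw [List.getElem?_append_left (by rw [cdw_length, List.length_ofFn]; omega), cdw_get,
        List.getElem?_ofFn]
      simp only [hj', dif_pos, Option.bind_some]
      have h1 : j % 5 < (cd (x ⟨j / 5, hj'⟩)).length := by rw [cd_length]; omega
      rw [List.getElem?_eq_getElem h1]
      rfl
    · simp only [hj', dif_neg, not_false_eq_true]
      rw [List.getElem?_append_right (by rw [cdw_length, List.length_ofFn]; omega), cdw_length,
        List.length_ofFn, List.getElem?_replicate, if_pos (by omega)]
  · rw [dif_neg hj, List.getElem?_eq_none]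
    rw [List.length_append, cdw_length, List.length_ofFn, List.length_replicate]
    omega

theorem enc_mono {n' : ℕ} (n : ℕ) {x y : Fin n' → Ltr} (hxy : ∀ j, x j ≤ y j) (j : Fin n) :
    enc n x j ≤ enc n y j := by
  unfold enc
  split_ifs with hj
  · rcases hxy ⟨j.val / 5, hj⟩ with h | ⟨h1, h2⟩
    · rw [h]
    · rw [h1, h2]
      have : j.val % 5 < 5 := Nat.mod_lt _ (by norm_num)
      interval_cases (j.val % 5) <;> simp [cd]
  · exact le_rfl

/-- from programs for `LB` to programs for `Lg` -/
theorem to_Ltr {n' s n : ℕ} (hn : n = 5 * n' + s) (hs : s < 5) (P : Program Bool n) :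
    ∃ Q : Program Ltr n', Q.size = P.size ∧ (P.Monotone → Q.Monotone) ∧
      (∀ r, P.Reads r → Q.Reads r) ∧ (P.Recognizes LB → Q.Recognizes Lg) := by
  classical
  refine ⟨⟨P.V, P.E, P.fin, P.src, P.dst, P.start, P.final, fun e x => P.guard e (enc n x)⟩,
    rfl, ?_, ?_, ?_⟩
  · intro h e x y hxy hx
    exact h e _ _ (enc_mono n hxy) hx
  · intro r h e
    obtain ⟨J, hJ1, hJ2⟩ := h e
    refine ⟨univ.filter (fun i : Fin n' => ∃ j ∈ J, j.val / 5 = i.val), ?_, ?_⟩
    · refine le_trans ?_ hJ1
      have : (univ.filter (fun i : Fin n' => ∃ j ∈ J, j.val / 5 = i.val)).card ≤ J.card := by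
        have h1 : (univ.filter (fun i : Fin n' => ∃ j ∈ J, j.val / 5 = i.val)).image
            Fin.val ⊆ J.image (fun j => j.val / 5) := by
          intro k hk
          rw [mem_image] at hk ⊢
          obtain ⟨i, hi, rfl⟩ := hk
          rw [mem_filter] at hi
          exact hi.2
        calc _ = ((univ.filter (fun i : Fin n' => ∃ j ∈ J, j.val / 5 = i.val)).image
              Fin.val).card := (card_image_of_injective _ Fin.val_injective).symm
          _ ≤ (J.image (fun j => j.val / 5)).card := card_le_card h1
          _ ≤ J.card := card_image_le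
      exact_mod_cast this
    · intro x y hxy
      refine hJ2 _ _ ?_
      intro j hj
      unfold enc
      split_ifs with hj'
      · rw [hxy ⟨j.val / 5, hj'⟩ (by rw [mem_filter]; exact ⟨mem_univ _, j, hj, rfl⟩)]
      · rfl
  · intro h x
    have h1 := h (enc n x)
    rw [ofFn_enc hn, mem_LB _ _ (by rw [List.length_replicate]; exact hs)] at h1
    exact h1

end Pool.Agent.T9h47.MN
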