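import Mathlib
import Pool.Agent.T9h47.MN.Bin

/-!
# The lower bound over the binary alphabet
-/

set_option autoImplicit false

namespace Pool.Agent.T9h47.MN

theorem main_bin (δ : ℝ) (hδ : 0 < δ) : ∃ c : ℝ, 0 < c ∧ ∃ n₀ : ℕ, ∀ n ≥ n₀,
    ∀ P : Program Bool n, P.Monotone → P.Reads ((n : ℝ) ^ (1 - δ)) → P.Recognizes LB →
      (n : ℝ) ^ (c * Real.log n) ≤ P.size := by
  obtain ⟨δ₁, hδ₁⟩ : ∃ δ₁, δ₁ = min δ 1 := ⟨_, rfl⟩
  have hp : 0 < δ₁ := by rw [hδ₁]; exact lt_min hδ one_pos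
  have hle : δ₁ ≤ δ := by rw [hδ₁]; exact min_le_left _ _
  have hle1 : δ₁ ≤ 1 := by rw [hδ₁]; exact min_le_right _ _
  obtain ⟨c, hc, n₀, h⟩ := main_bound (δ₁ / 2) (by positivity)
  obtain ⟨N, hN⟩ := exists_nat_ge ((10 : ℝ) ^ (2 / δ₁))
  refine ⟨c / 4, by positivity, 10 * (n₀ + N + 10), ?_⟩
  intro n hn P hmono hreads hrec
  obtain ⟨n', hn'⟩ : ∃ n', n' = n / 5 := ⟨_, rfl⟩
  obtain ⟨Q, hQ1, hQ2, hQ3, hQ4⟩ := to_Ltr (n' := n') (s := n % 5) (n := n)
    (by omega) (Nat.mod_lt _ (by norm_num)) P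
  have h1 : n ≤ 10 * n' := by omega
  have h2 : n₀ + N + 10 ≤ n' := by omega
  have hnr : (n : ℝ) ≤ 10 * n' := by exact_mod_cast h1
  have hn1 : (1 : ℝ) ≤ n := by exact_mod_cast (by omega : 1 ≤ n)
  have hn'10 : (10 : ℝ) ≤ n' := by exact_mod_cast (by omega : 10 ≤ n')
  have hn'N : (10 : ℝ) ^ (2 / δ₁) ≤ n' := hN.trans (by exact_mod_cast (by omega : N ≤ n'))
  have hread' : Q.Reads ((n' : ℝ) ^ (1 - δ₁ / 2)) := by
    intro e
    obtain ⟨J, hJ1, hJ2⟩ := hQ3 _ hreads e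
    refine ⟨J, hJ1.trans ?_, hJ2⟩
    calc (n : ℝ) ^ (1 - δ) ≤ (n : ℝ) ^ (1 - δ₁) :=
          Real.rpow_le_rpow_of_exponent_le hn1 (by linarith)
      _ ≤ (10 * n' : ℝ) ^ (1 - δ₁) := Real.rpow_le_rpow (by linarith) hnr (by linarith)
      _ = (10 : ℝ) ^ (1 - δ₁) * (n' : ℝ) ^ (1 - δ₁) :=
          Real.mul_rpow (by norm_num) (by linarith)
      _ ≤ (n' : ℝ) ^ (δ₁ / 2) * (n' : ℝ) ^ (1 - δ₁) := by
          refine mul_le_mul_of_nonneg_right ?_ (by positivity)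
          calc (10 : ℝ) ^ (1 - δ₁) ≤ (10 : ℝ) ^ (1 : ℝ) :=
                Real.rpow_le_rpow_of_exponent_le (by norm_num) (by linarith)
            _ = ((10 : ℝ) ^ (2 / δ₁)) ^ (δ₁ / 2) := by
                rw [← Real.rpow_mul (by norm_num)]
                congr 1
                field_simp
            _ ≤ (n' : ℝ) ^ (δ₁ / 2) := Real.rpow_le_rpow (by positivity) hn'N (by positivity)
      _ = (n' : ℝ) ^ (1 - δ₁ / 2) := by
          rw [← Real.rpow_add (by linarith)]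
          congr 1
          ring
  have key := h n' (by omega) Q (hQ2 hmono) hread' (hQ4 hrec)
  rw [hQ1] at key
  refine le_trans ?_ key
  rw [Real.rpow_def_of_pos (by linarith), Real.rpow_def_of_pos (by linarith)]
  refine Real.exp_le_exp.2 ?_
  have hl1 : 0 ≤ Real.log n := Real.log_nonneg hn1
  have hl2 : Real.log n ≤ 2 * Real.log n' := by
    calc Real.log n ≤ Real.log (n' * n') :=
          Real.log_le_log (by linarith) (hnr.trans (by nlinarith))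
      _ = 2 * Real.log n' := by rw [Real.log_mul (by linarith) (by linarith)]; ring
  have hl3 : Real.log n * Real.log n ≤ (2 * Real.log n') * (2 * Real.log n') :=
    mul_le_mul hl2 hl2 hl1 (hl1.trans hl2)
  nlinarith

end Pool.Agent.T9h47.MN
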